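import Mathlib
import Pool.Agent.Lib.MP_570bef_ntWD.Defs
import Pool.Agent.Lib.MP_570bef_ntWD.Def2

/-!
# Shifts with an exponentially small exceptional set: definitions

The definitions of MP_570bef_ntWD with two variables on every level.
-/

set_option autoImplicit false

open Finset Real MeasureTheory
open Pool.Agent.Lib.MP_2a816b_nt (e norm_e conj_e e_add e_neg)

namespace Pool.Agent.Lib.MP_570bef_ntWE

open Pool.Agent.Lib.MP_570bef_ntWD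

/-- the block with two variables on each of the `v` levels, largest variables `≤ P` -/
noncomputable def BC (k : ℕ) (r : ℕ → ℝ) (η : ℝ) (v : ℕ) (P : ℝ) : Finset (List ℕ) :=
  blk (k - 1) (fun _ => 2) r η P v

/-- all the parameters -/
structure Cy (k v t : ℕ) (r : ℕ → ℝ) (η κ : ℝ) : Prop where
  hk : 8 ≤ k
  hη : 0 < η
  hr : ∀ i, 0 < r i
  hr4 : ∀ i < 2, r i + η ≤ 1 / 4
  hL : Lips k 2 r η
  hκ : 0 < κ
  hκ16 : κ ≤ 1 / 16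
  hv : la (k - 1) v ≤ κ
  ht : la k t ≤ κ
  hkκ : 4 ≤ k * κ

/-- the bad shifts at the scale `P` -/
def BadC (k : ℕ) (r : ℕ → ℝ) (η : ℝ) (v : ℕ) (ω b₀ P : ℝ) : Set ℝ :=
  {β | 0 ≤ β ∧ β ≤ 1 ∧ ∃ ξ : ℝ, P ^ (b₀ - k) ≤ |ξ| ∧ |ξ| ≤ P ^ (1 / 2 : ℝ) ∧
    2 * ((BC k r η v P).card : ℝ) * (|ξ| * P ^ (k : ℝ)) ^ (-ω) < ‖Es k β (BC k r η v P) ξ‖}

/-- the bad shifts for the frequencies of one dyadic size -/
def Sb (k : ℕ) (r : ℕ → ℝ) (η : ℝ) (v : ℕ) (ω b P : ℝ) : Set ℝ :=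
  {β | 0 ≤ β ∧ β ≤ 1 ∧ ∃ ξ : ℝ, P ^ (b - k) ≤ |ξ| ∧ |ξ| ≤ 2 * P ^ (b - k) ∧
    ((BC k r η v P).card : ℝ) * P ^ (-(ω * b)) ≤ ‖Es k β (BC k r η v P) ξ‖}

/-- the full family at the scale `2 ^ n` -/
noncomputable def GC (k : ℕ) (r : ℕ → ℝ) (η : ℝ) (v t u n : ℕ) : Finset (List ℕ) :=
  cat (one (Finset.Icc (2 ^ (n - 1)) (2 ^ (n + 1))))
    (cat (pw (one (Finset.Ico (2 ^ (n - 4)) (2 * 2 ^ (n - 4)))) u)
      (cat (BC k r η v ((2 : ℝ) ^ n))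
        (cat (HH k r η t ((2 : ℝ) ^ n)) (HH k r η t ((2 : ℝ) ^ n)))))

/-- all the variables of `GC` but the first -/
noncomputable def RC (k : ℕ) (r : ℕ → ℝ) (η : ℝ) (v t u n : ℕ) : Finset (List ℕ) :=
  cat (pw (one (Finset.Ico (2 ^ (n - 4)) (2 * 2 ^ (n - 4)))) u)
    (cat (BC k r η v ((2 : ℝ) ^ n))
      (cat (HH k r η t ((2 : ℝ) ^ n)) (HH k r η t ((2 : ℝ) ^ n))))

/-- number of terms -/
def ntc (v t u : ℕ) : ℕ := 1 + (u + (2 * v + (t + t)))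

/-- the integrand of the error for the family `GC`, `w = P^(-1/4)`, `W = P^(k-1/4)`, `P = 2^n` -/
noncomputable def JC (k : ℕ) (r : ℕ → ℝ) (η : ℝ) (v t u n : ℕ) (β ξ : ℝ) : ℝ :=
  Jn k β (GC k r η v t u n) (((2 : ℝ) ^ n) ^ (-(1 / 4) : ℝ)) (((2 : ℝ) ^ n) ^ ((k : ℝ) - 1 / 4)) ξ

/-- `2 (number of terms of RC) ≤ 3^k` -/
def SzC (k v t u : ℕ) : Prop := 2 * (u + (2 * v + (t + t))) ≤ 3 ^ k

/-- `b - (1 - λ) k` for the level `l` -/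
noncomputable def xl (k : ℕ) (b : ℝ) (l : ℕ) : ℝ := b - (1 - la (k - 1) l) * k

end Pool.Agent.Lib.MP_570bef_ntWE
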