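import Mathlib
import Pool.Agent.Lib.MP_570bef_ntWD.LevA
import Pool.Agent.Lib.MP_570bef_ntWE.Defs

/-!
# Spl: splitting a block at a level (easy)

bl_BC: the fields from h (K = k - 1, j = 2; 8 ≤ k). bl_HC: Lips k 1 from Lips k 2 (n ≤ 1 ≤ 2), r 0 + η ≤ 1/4.
split: induction on v': blk (l + (v'+1)) = cat (blk (l+v')) (lev c r η (P^la K (l+v'))) and
(P^la K l)^la K v' = P^(la K l * la K v') = P^la K (l + v') (P > 0, pow_add); Es_cat, card_cat, blk_len, lev_len.
sub_bad: ‖Es (blk P (l+v'))‖ = ‖Es (blk P l)‖ ‖Es (blk Q v')‖ ≤ card (blk P l) ‖Es (blk Q v')‖ (Es_norm_le), and cancel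
card (blk P l) > 0.
-/

set_option autoImplicit false

open Finset Real MeasureTheory
open Pool.Agent.Lib.MP_2a816b_nt (e norm_e conj_e e_add e_neg)

namespace Pool.Agent.Lib.MP_570bef_ntWE

open Pool.Agent.Lib.MP_570bef_ntWD

theorem bl_BC {k v t : ℕ} {r : ℕ → ℝ} {η κ : ℝ} (h : Cy k v t r η κ) :
    Bl k 2 (k - 1) (fun _ => 2) r η := by
  have h1 := h.hk
  exact ⟨by omega, by omega, by omega, by omega, fun l => le_refl 2, h.hη, h.hr, h.hr4, h.hL⟩

theorem bl_HC {k v t : ℕ} {r : ℕ → ℝ} {η κ : ℝ} (h : Cy k v t r η κ) :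
    Bl k 1 k (fun _ => 1) r η := by
  have h1 := h.hk
  refine ⟨le_refl 1, by omega, by omega, le_refl _, fun l => le_refl 1, h.hη, h.hr, fun i hi => h.hr4 i (by omega), ?_⟩
  obtain ⟨C, hC, h3⟩ := h.hL
  exact ⟨C, hC, fun n hn => h3 n (by omega)⟩

private theorem Spl_la (K : ℕ) (P : ℝ) (hP : 0 < P) (l v' : ℕ) :
    P ^ la K (l + v') = (P ^ la K l) ^ la K v' := by
  rw [← Real.rpow_mul hP.le]
  unfold la
  rw [pow_add]

theorem Es_split (K c : ℕ) (r : ℕ → ℝ) (η P : ℝ) (hP : 0 < P) (l v' k : ℕ) (β ξ : ℝ) :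
    Es k β (blk K (fun _ => c) r η P (l + v')) ξ =
      Es k β (blk K (fun _ => c) r η P l) ξ *
        Es k β (blk K (fun _ => c) r η (P ^ la K l) v') ξ := by
  induction v' with
  | zero =>
    have h1 : Es k β (blk K (fun _ => c) r η (P ^ la K l) 0) ξ = 1 := by
      unfold Es blk
      rw [Finset.sum_singleton, Ps_nil, mul_zero]
      simp [e]
    rw [h1, mul_one, Nat.add_zero]
  | succ v' ih =>
    have h1 : Es k β (blk K (fun _ => c) r η P (l + (v' + 1))) ξ =
        Es k β (blk K (fun _ => c) r η P (l + v')) ξ * Es k β (lev c r η (P ^ la K (l + v'))) ξ :=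
      Es_cat (blk_len K (fun _ => c) r η P (l + v')) k β ξ
    have h2 : Es k β (blk K (fun _ => c) r η (P ^ la K l) (v' + 1)) ξ =
        Es k β (blk K (fun _ => c) r η (P ^ la K l) v') ξ * Es k β (lev c r η ((P ^ la K l) ^ la K v')) ξ :=
      Es_cat (blk_len K (fun _ => c) r η (P ^ la K l) v') k β ξ
    rw [h1, h2, ih, Spl_la K P hP l v', mul_assoc]

theorem card_split (K c : ℕ) (r : ℕ → ℝ) (η P : ℝ) (hP : 0 < P) (l v' : ℕ) :
    (blk K (fun _ => c) r η P (l + v')).card =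
      (blk K (fun _ => c) r η P l).card * (blk K (fun _ => c) r η (P ^ la K l) v').card := by
  induction v' with
  | zero =>
    have h1 : (blk K (fun _ => c) r η (P ^ la K l) 0).card = 1 := Finset.card_singleton _
    rw [h1, mul_one, Nat.add_zero]
  | succ v' ih =>
    have h1 : (blk K (fun _ => c) r η P (l + (v' + 1))).card =
        (blk K (fun _ => c) r η P (l + v')).card * (lev c r η (P ^ la K (l + v'))).card :=
      card_cat (blk_len K (fun _ => c) r η P (l + v'))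
    have h2 : (blk K (fun _ => c) r η (P ^ la K l) (v' + 1)).card =
        (blk K (fun _ => c) r η (P ^ la K l) v').card * (lev c r η ((P ^ la K l) ^ la K v')).card :=
      card_cat (blk_len K (fun _ => c) r η (P ^ la K l) v')
    rw [h1, h2, ih, Spl_la K P hP l v', mul_assoc]

theorem sub_bad (K c : ℕ) (r : ℕ → ℝ) (η P : ℝ) (hP : 0 < P) (l v' k : ℕ) (β ξ σ : ℝ)
    (h0 : 0 < (blk K (fun _ => c) r η P l).card)
    (h : ((blk K (fun _ => c) r η P (l + v')).card : ℝ) * σ ≤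
      ‖Es k β (blk K (fun _ => c) r η P (l + v')) ξ‖) :
    ((blk K (fun _ => c) r η (P ^ la K l) v').card : ℝ) * σ ≤
      ‖Es k β (blk K (fun _ => c) r η (P ^ la K l) v') ξ‖ := by
  have h0' : (0 : ℝ) < ((blk K (fun _ => c) r η P l).card : ℝ) := by exact_mod_cast h0
  rw [Es_split K c r η P hP, card_split K c r η P hP, norm_mul, Nat.cast_mul] at h
  have h1 := Es_norm_le k β (blk K (fun _ => c) r η P l) ξ
  have h2 : ((blk K (fun _ => c) r η P l).card : ℝ) *
      (((blk K (fun _ => c) r η (P ^ la K l) v').card : ℝ) * σ) ≤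
      ((blk K (fun _ => c) r η P l).card : ℝ) * ‖Es k β (blk K (fun _ => c) r η (P ^ la K l) v') ξ‖ := by
    rw [← mul_assoc]
    exact h.trans (mul_le_mul_of_nonneg_right h1 (norm_nonneg _))
  exact le_of_mul_le_mul_left h2 h0'

end Pool.Agent.Lib.MP_570bef_ntWE
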