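import Mathlib
import Pool.Agent.Lib.MP_570bef_ntWD.CntE
import Pool.Agent.Lib.MP_570bef_ntWD.Tele
import Pool.Agent.Lib.MP_570bef_ntWE.Spl

/-!
# Bk3: the counts for the two blocks (easy+; model MP_570bef_ntWD/Bk2.lean, Bk3.lean)

bk_new: K = k - 1. For i ∈ {0, 1} let f_i l = la K l - ex k i D_i (la K l) ≥ 0, D_0 = k - b, D_1 = k - 1 - b/2. If la K l > X_i :=
max (D_i/(k-i-1)) ε then D_i - la K l (k-i-1) < 0, so ex = 0 and f_i l = la K l: tele gives ∑_l f_i l ≥ K (1 - X_i).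
i = 0: K (1 - D_0/(k-1)) = b - 1, so K (1 - X_0) = min (b - 1) ((k-1)(1-ε)) ≥ b - 1 - max 0 (b - (k-1)(1-ε)).
i = 1: K (1 - D_1/(k-2)) = (k-1)/(k-2) (b/2 - 1) ≥ b/2 - 1 if b ≥ 2 (and if b < 2 use ∑ f_1 ≥ 0 ≥ b/2 - 1); (k-1)(1-ε) ≥ (3/4)(k-1) ≥ b/2.
Sum: ≥ 3b/2 - 2 - max 0 (...). cnt_BC: cnt_ex (with n = 2, so range (n l) = range 2, D i = k - i - b (1 - i/2)) and bk_new.
cnt_HC: exactly cnt_HH of MP_570bef_ntWD/Bk3.lean (copy; bl_HC, h.ht).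
-/

set_option autoImplicit false

open Finset Real MeasureTheory
open Pool.Agent.Lib.MP_2a816b_nt (e norm_e conj_e e_add e_neg)

namespace Pool.Agent.Lib.MP_570bef_ntWE

open Pool.Agent.Lib.MP_570bef_ntWD

theorem bk_new {k v : ℕ} {ε b : ℝ} (hk : 8 ≤ k) (hε : 0 < ε) (hε4 : ε ≤ 1 / 4)
    (hv : la (k - 1) v ≤ ε) (hb : 0 ≤ b) (hbk : b ≤ 3 / 2 * ((k : ℝ) - 1)) :
    3 * b / 2 - 2 - max 0 (b - ((k : ℝ) - 1) * (1 - ε)) ≤
      ∑ l ∈ range v, ∑ i ∈ range 2,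
        (la (k - 1) l - ex k i ((k : ℝ) - i - b * (1 - (i : ℝ) / 2)) (la (k - 1) l)) := by
  have hk' : (8 : ℝ) ≤ k := by exact_mod_cast hk
  have hK1 : 1 ≤ k - 1 := by omega
  have hKr : ((k - 1 : ℕ) : ℝ) = (k : ℝ) - 1 := by
    rw [Nat.cast_sub (by omega)]
    norm_num
  have hg0 : ∀ (i : ℕ) (D x : ℝ), 0 ≤ x - ex k i D x := fun i D x => sub_nonneg.2 (min_le_left _ _)
  have hgX : ∀ (i : ℕ) (D : ℝ) (l : ℕ), 0 < (k : ℝ) - i - 1 → D / ((k : ℝ) - i - 1) < la (k - 1) l →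
      la (k - 1) l ≤ la (k - 1) l - ex k i D (la (k - 1) l) := by
    intro i D l hq h
    rw [div_lt_iff₀ hq] at h
    have h4 : ex k i D (la (k - 1) l) = 0 := by
      unfold ex
      rw [max_eq_left (by linarith), min_eq_right (la_nonneg hK1 l)]
    rw [h4]
    linarith
  have e0 : ∑ l ∈ range v, ∑ i ∈ range 2,
        (la (k - 1) l - ex k i ((k : ℝ) - i - b * (1 - (i : ℝ) / 2)) (la (k - 1) l)) =
      ∑ l ∈ range v, (la (k - 1) l - ex k 0 ((k : ℝ) - b) (la (k - 1) l)) +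
        ∑ l ∈ range v, (la (k - 1) l - ex k 1 ((k : ℝ) - 1 - b / 2) (la (k - 1) l)) := by
    rw [← Finset.sum_add_distrib]
    refine Finset.sum_congr rfl fun l _ => ?_
    rw [Finset.sum_range_succ, Finset.sum_range_one]
    have h1 : (k : ℝ) - ((0 : ℕ) : ℝ) - b * (1 - ((0 : ℕ) : ℝ) / 2) = (k : ℝ) - b := by
      push_cast
      ring
    have h2 : (k : ℝ) - ((1 : ℕ) : ℝ) - b * (1 - ((1 : ℕ) : ℝ) / 2) = (k : ℝ) - 1 - b / 2 := by
      push_cast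
      ring
    rw [h1, h2]
  rw [e0]
  -- the first equation
  have a0 : b - 1 - max 0 (b - ((k : ℝ) - 1) * (1 - ε)) ≤
      ∑ l ∈ range v, (la (k - 1) l - ex k 0 ((k : ℝ) - b) (la (k - 1) l)) := by
    have h1 := tele (k - 1) v hK1 (max (((k : ℝ) - b) / ((k : ℝ) - ((0 : ℕ) : ℝ) - 1)) ε)
      (hv.trans (le_max_right _ _)) (fun l => la (k - 1) l - ex k 0 ((k : ℝ) - b) (la (k - 1) l))
      (fun l _ => hg0 _ _ _)
      (fun l _ hX => hgX 0 _ l (by push_cast; linarith) (lt_of_le_of_lt (le_max_left _ _) hX))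
    refine le_trans ?_ h1
    rw [hKr]
    have hq : (0 : ℝ) < (k : ℝ) - ((0 : ℕ) : ℝ) - 1 := by push_cast; linarith
    rcases le_total (((k : ℝ) - b) / ((k : ℝ) - ((0 : ℕ) : ℝ) - 1)) ε with h3 | h3
    · rw [max_eq_right h3]
      have h4 := le_max_right (0 : ℝ) (b - ((k : ℝ) - 1) * (1 - ε))
      linarith
    · rw [max_eq_left h3]
      have h4 := le_max_left (0 : ℝ) (b - ((k : ℝ) - 1) * (1 - ε))
      have h5 : ((k : ℝ) - 1) * (1 - ((k : ℝ) - b) / ((k : ℝ) - ((0 : ℕ) : ℝ) - 1)) = b - 1 := by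
        have h6 : (k : ℝ) - ((0 : ℕ) : ℝ) - 1 = (k : ℝ) - 1 := by push_cast; ring
        rw [h6] at hq ⊢
        rw [mul_sub, mul_div_cancel₀ _ hq.ne']
        ring
      rw [h5]
      linarith
  -- the second equation
  have a1 : b / 2 - 1 ≤
      ∑ l ∈ range v, (la (k - 1) l - ex k 1 ((k : ℝ) - 1 - b / 2) (la (k - 1) l)) := by
    rcases le_or_gt b 2 with hb2 | hb2
    · have h1 : 0 ≤ ∑ l ∈ range v, (la (k - 1) l - ex k 1 ((k : ℝ) - 1 - b / 2) (la (k - 1) l)) :=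
        Finset.sum_nonneg fun l _ => hg0 _ _ _
      linarith
    · have h1 := tele (k - 1) v hK1 (max (((k : ℝ) - 1 - b / 2) / ((k : ℝ) - ((1 : ℕ) : ℝ) - 1)) ε)
        (hv.trans (le_max_right _ _)) (fun l => la (k - 1) l - ex k 1 ((k : ℝ) - 1 - b / 2) (la (k - 1) l))
        (fun l _ => hg0 _ _ _)
        (fun l _ hX => hgX 1 _ l (by push_cast; linarith) (lt_of_le_of_lt (le_max_left _ _) hX))
      refine le_trans ?_ h1
      rw [hKr]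
      have hq : (0 : ℝ) < (k : ℝ) - ((1 : ℕ) : ℝ) - 1 := by push_cast; linarith
      rcases le_total (((k : ℝ) - 1 - b / 2) / ((k : ℝ) - ((1 : ℕ) : ℝ) - 1)) ε with h3 | h3
      · rw [max_eq_right h3]
        have h4 : ((k : ℝ) - 1) * (3 / 4) ≤ ((k : ℝ) - 1) * (1 - ε) :=
          mul_le_mul_of_nonneg_left (by linarith) (by linarith)
        linarith
      · rw [max_eq_left h3]
        have h6 : (k : ℝ) - ((1 : ℕ) : ℝ) - 1 = (k : ℝ) - 2 := by push_cast; ring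
        rw [h6] at hq ⊢
        have h5 : ((k : ℝ) - 1) * (1 - ((k : ℝ) - 1 - b / 2) / ((k : ℝ) - 2)) =
            ((k : ℝ) - 1) * (b / 2 - 1) / ((k : ℝ) - 2) := by
          field_simp
          ring
        rw [h5, le_div_iff₀ hq]
        nlinarith
  linarith

theorem cnt_BC {k : ℕ} {r : ℕ → ℝ} {η : ℝ} (h : Bl k 2 (k - 1) (fun _ => 2) r η) (hk : 8 ≤ k)
    (v : ℕ) :
    ∃ C Q₀ : ℝ, 0 < C ∧ 1 ≤ Q₀ ∧ ∀ Q : ℝ, Q₀ ≤ Q → ∀ β : ℝ, 0 ≤ β → β ≤ 1 →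
      ∀ ε b : ℝ, 0 < ε → ε ≤ 1 / 4 → la (k - 1) v ≤ ε → 0 ≤ b → b ≤ 3 / 2 * ((k : ℝ) - 1) →
      ∀ c : ℕ → ℝ, (Nm k 2 β (blk (k - 1) (fun _ => 2) r η Q v) c
        (fun i => Q ^ ((k : ℝ) - i - b * (1 - (i : ℝ) / 2))) : ℝ) ≤
        C * ((blk (k - 1) (fun _ => 2) r η Q v).card : ℝ) *
          Q ^ (-(3 * b / 2) + 2 + max 0 (b - ((k : ℝ) - 1) * (1 - ε))) := by
  obtain ⟨C, Q₀, hC, hQ0, hcnt⟩ := cnt_ex h v
  refine ⟨C, Q₀, hC, hQ0, fun Q hQ β hβ hβ1 ε b hε hε4 hv hb hbk c => ?_⟩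
  have h1 := hcnt Q hQ β hβ hβ1 (fun i => (k : ℝ) - i - b * (1 - (i : ℝ) / 2)) c
  have h2 := bk_new hk hε hε4 hv hb hbk
  have hQ1 : 1 ≤ Q := hQ0.trans hQ
  refine h1.trans ?_
  refine mul_le_mul_of_nonneg_left ?_ (mul_nonneg hC.le (Nat.cast_nonneg _))
  refine Real.rpow_le_rpow_of_exponent_le hQ1 ?_
  linarith

theorem cnt_HC {k v t : ℕ} {r : ℕ → ℝ} {η κ : ℝ} (h : Cy k v t r η κ) :
    ∃ C P₀ : ℝ, 0 < C ∧ 1 ≤ P₀ ∧ ∀ P : ℝ, P₀ ≤ P → ∀ β : ℝ, 0 ≤ β → β ≤ 1 →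
      ∀ b : ℝ, 1 ≤ b → b ≤ k + 1 → ∀ c : ℕ → ℝ,
      (Nm k 1 β (HH k r η t P) c (fun _ => P ^ ((k : ℝ) - b)) : ℝ) ≤
        C * ((HH k r η t P).card : ℝ) * P ^ (-(min (b - 1) (k * (1 - κ)))) := by
  obtain ⟨C, P₀, hC, hP0, hcnt⟩ := cnt_ex (bl_HC h) t
  refine ⟨C, P₀, hC, hP0, fun P hP β hβ hβ1 b hb hbk c => ?_⟩
  have h1 := hcnt P hP β hβ hβ1 (fun _ => (k : ℝ) - b) c
  have hP1 : 1 ≤ P := hP0.trans hP
  have hk5 : 5 ≤ k := by
    have h3 := h.hk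
    omega
  have hk5' : (5 : ℝ) ≤ k := by exact_mod_cast hk5
  have hk1 : (0 : ℝ) < (k : ℝ) - 1 := by linarith
  refine h1.trans ?_
  refine mul_le_mul_of_nonneg_left ?_ (mul_nonneg hC.le (Nat.cast_nonneg _))
  refine Real.rpow_le_rpow_of_exponent_le hP1 (neg_le_neg ?_)
  simp only [Finset.sum_range_one]
  have h2 := tele k t (by omega) (max (((k : ℝ) - b) / ((k : ℝ) - 1)) κ) (h.ht.trans (le_max_right _ _))
    (fun l => la k l - ex k 0 ((k : ℝ) - b) (la k l)) ?_ ?_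
  · refine le_trans ?_ h2
    rcases le_total (((k : ℝ) - b) / ((k : ℝ) - 1)) κ with h3 | h3
    · rw [max_eq_right h3]
      exact min_le_right _ _
    · rw [max_eq_left h3]
      refine (min_le_left _ _).trans ?_
      have h4 : (k : ℝ) * (1 - ((k : ℝ) - b) / ((k : ℝ) - 1)) = k * (b - 1) / ((k : ℝ) - 1) := by
        field_simp
        ring
      rw [h4, le_div_iff₀ hk1]
      nlinarith
  · intro l _
    unfold ex
    have h3 := min_le_left (la k l) (max 0 ((k : ℝ) - b - la k l * ((k : ℝ) - ((0 : ℕ) : ℝ) - 1)))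
    linarith
  · intro l _ hX
    have h3 : ((k : ℝ) - b) / ((k : ℝ) - 1) < la k l := lt_of_le_of_lt (le_max_left _ _) hX
    rw [div_lt_iff₀ hk1] at h3
    have h4 : (k : ℝ) - b - la k l * ((k : ℝ) - ((0 : ℕ) : ℝ) - 1) ≤ 0 := by
      push_cast
      linarith
    unfold ex
    rw [max_eq_left h4, min_eq_right (la_nonneg (by omega) l)]
    linarith

end Pool.Agent.Lib.MP_570bef_ntWE
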