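import Mathlib
import Pool.Agent.Lib.MP_570bef_ntWD.LevA
import Pool.Agent.Lib.MP_570bef_ntWE.Defs

/-!
# Chn: the levels of the chain (medium)

x l = xl k b l = b - (1 - la (k-1) l) k is decreasing in l, x 0 = b, x l - x (l+1) = k la (k-1) l/(k-1) ≤ 2 (la (l+1) = (1 - 1/(k-1)) la l).
Construct L i with b/2^i ≤ x (L i) ≤ b/2^i + 4, L 0 = 0 (recursively; Nat.rec / choose from: for every i < q and every l with these two
bounds there is l' with x l/2 ≤ x l' ≤ x l/2 + 2 and l' < v). Given l, y = x l/2 ≥ b/2^(i+1) ≥ b/2^q. CLAIM x v < y: x v = b - k + la v k ≤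
b - k + κ k; if b ≤ k/2 this is ≤ -k/2 + k/16 < 0 < y; if b > k/2 it is ≤ 1/2 + k (1/2)^(q+4) and y ≥ b/2^q > k/2^(q+1) = 8 k (1/2)^(q+4), and
k (1/2)^(q+4) ≥ 2. Let m be the least index with x m < y (m ≤ v; m ≥ 1 since x 0 = b ≥ b/2 + 2 ≥ y, b ≥ 8), l' = m - 1 < v: x l' ≥ y and
x l' = x m + (x l' - x m) < y + 2.
4κ ≤ la (L i): la = (x + k - b)/k; if b ≤ k/2: ≥ 1/2 ≥ 4κ (κ ≤ 1/16; use κ ≤ (1/2)^(q+4)); if b > k/2: x ≥ b/2^q ≥ k/2^(q+1), k - b ≥ -1/2, so
la ≥ 2^(-q-1) - 1/(2k) ≥ 2^(-q-2) ≥ 4κ. x (L i) ≥ b/2^q ≥ 8 ≥ 4. 0 < v: la 0 = 1 > κ ≥ la v.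
-/

set_option autoImplicit false

open Finset Real MeasureTheory
open Pool.Agent.Lib.MP_2a816b_nt (e norm_e conj_e e_add e_neg)

namespace Pool.Agent.Lib.MP_570bef_ntWE

open Pool.Agent.Lib.MP_570bef_ntWD

theorem levels {k v t : ℕ} {r : ℕ → ℝ} {η κ : ℝ} (h : Cy k v t r η κ) (q : ℕ)
    (hq : κ ≤ (1 / 2 : ℝ) ^ (q + 4)) (hkq : 2 ^ (q + 5) ≤ k) (b : ℝ) (hb : (2 : ℝ) ^ (q + 3) ≤ b)
    (hbk : b ≤ k + 1 / 2) :
    ∃ L : ℕ → ℕ, L 0 = 0 ∧ (∀ i ≤ q, L i < v ∧ 4 * κ ≤ la (k - 1) (L i) ∧ 4 ≤ xl k b (L i) ∧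
      xl k b (L i) ≤ b / 2 ^ i + 4) ∧ ∀ i < q, xl k b (L i) / 2 ≤ xl k b (L (i + 1)) := by
  have hk8 : (8 : ℝ) ≤ k := by exact_mod_cast h.hk
  have hK2 : 2 ≤ k - 1 := by have := h.hk; omega
  have hK1 : 1 ≤ k - 1 := le_trans (by norm_num) hK2
  have hκ16 := h.hκ16
  have hκ0 := h.hκ
  obtain ⟨δ, hδ⟩ : ∃ δ : ℝ, δ = (1 / 2 : ℝ) ^ (q + 4) := ⟨_, rfl⟩
  have hδ0 : 0 < δ := by rw [hδ]; positivity
  have h2q : (2 : ℝ) ^ (q + 4) * δ = 1 := by
    rw [hδ, ← mul_pow]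
    norm_num
  have hkδ : 2 ≤ k * δ := by
    have h1 : ((2 ^ (q + 5) : ℕ) : ℝ) ≤ k := by exact_mod_cast hkq
    rw [Nat.cast_pow, Nat.cast_ofNat] at h1
    have h2 : (2 : ℝ) ^ (q + 5) * δ = 2 := by
      rw [pow_succ, mul_right_comm, h2q, one_mul]
    have h3 := mul_le_mul_of_nonneg_right h1 hδ0.le
    rw [h2] at h3
    exact h3
  have hb0 : 0 < b := lt_of_lt_of_le (by positivity) hb
  have hbq : b / 2 ^ q = 16 * b * δ := by
    rw [div_eq_iff (by positivity)]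
    have h1 : (2 : ℝ) ^ (q + 4) = 16 * 2 ^ q := by
      rw [pow_add]
      norm_num
      ring
    have h2 : 16 * (2 : ℝ) ^ q * δ = 1 := by rw [← h1]; exact h2q
    calc b = b * (16 * (2 : ℝ) ^ q * δ) := by rw [h2, mul_one]
      _ = 16 * b * δ * 2 ^ q := by ring
  have hb8 : 8 ≤ b / 2 ^ q := by
    rw [le_div_iff₀ (by positivity)]
    have h1 : (2 : ℝ) ^ (q + 3) = 8 * 2 ^ q := by
      rw [pow_add]
      norm_num
      ring
    rw [← h1]
    exact hb
  have hbi : ∀ i ≤ q, b / 2 ^ q ≤ b / 2 ^ i := fun i hi =>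
    div_le_div_of_nonneg_left hb0.le (by positivity) (pow_le_pow_right₀ (by norm_num) hi)
  have hx0 : xl k b 0 = b := by
    unfold xl la
    rw [pow_zero]
    ring
  have hxs : ∀ l, xl k b l ≤ xl k b (l + 1) + 2 := by
    intro l
    have h1 := la_le_one hK1 l
    have h2 := la_nonneg hK1 l
    have h3 : la (k - 1) (l + 1) = la (k - 1) l * (1 - 1 / ((k - 1 : ℕ) : ℝ)) := by
      unfold la
      rw [pow_succ]
    have h4 : ((k - 1 : ℕ) : ℝ) = (k : ℝ) - 1 := by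
      rw [Nat.cast_sub (by have := h.hk; omega), Nat.cast_one]
    have h5 : (k : ℝ) * (1 / ((k : ℝ) - 1)) ≤ 2 := by
      rw [mul_one_div, div_le_iff₀ (by linarith)]
      linarith
    unfold xl
    rw [h3, h4]
    have h6 : (k : ℝ) * (1 / ((k : ℝ) - 1)) * la (k - 1) l ≤ 2 * 1 :=
      mul_le_mul h5 h1 h2 (by norm_num)
    nlinarith
  have hv : xl k b v < b / 2 ^ q := by
    have h1 : la (k - 1) v * k ≤ κ * k := mul_le_mul_of_nonneg_right h.hv (by linarith)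
    unfold xl
    rcases le_or_gt b (k / 2) with h2 | h2
    · nlinarith
    · rw [hbq]
      have h3 : κ * k ≤ δ * k := mul_le_mul_of_nonneg_right (by rw [hδ]; exact hq) (by linarith)
      nlinarith
  have hv0 : 0 < v := by
    rcases Nat.eq_zero_or_pos v with h1 | h1
    · have h2 := h.hv
      rw [h1] at h2
      unfold la at h2
      rw [pow_zero] at h2
      linarith
    · exact h1
  have hla : ∀ l, b / 2 ^ q ≤ xl k b l → 4 * κ ≤ la (k - 1) l := by
    intro l hl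
    have h1 : (k : ℝ) * la (k - 1) l = xl k b l + k - b := by
      unfold xl
      ring
    have h2 : (k : ℝ) * (4 * κ) ≤ k * la (k - 1) l := by
      rw [h1]
      rcases le_or_gt b (k / 2) with h2 | h2
      · nlinarith
      · rw [hbq] at hl
        have h3 : κ * k ≤ δ * k := mul_le_mul_of_nonneg_right (by rw [hδ]; exact hq) (by linarith)
        nlinarith
    exact le_of_mul_le_mul_left h2 (by linarith)
  have step : ∀ i l : ℕ, ∃ l', i < q → b / 2 ^ i ≤ xl k b l →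
      xl k b l / 2 ≤ xl k b l' ∧ xl k b l' ≤ xl k b l / 2 + 2 ∧ l' < v := by
    intro i l
    by_cases hi : i < q
    · by_cases hl : b / 2 ^ i ≤ xl k b l
      · by_cases h0 : xl k b l / 2 ≤ b
        · have h1 : b / 2 ^ q ≤ xl k b l / 2 := by
            refine le_trans (hbi (i + 1) hi) ?_
            rw [pow_succ, ← div_div]
            linarith
          have h2 : ∃ m, xl k b m < xl k b l / 2 := ⟨v, lt_of_lt_of_le hv h1⟩
          classical
          have h3 := Nat.find_spec h2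
          have h4 : Nat.find h2 ≤ v := Nat.find_min' h2 (lt_of_lt_of_le hv h1)
          obtain ⟨m, hm⟩ : ∃ m, Nat.find h2 = m + 1 := by
            refine Nat.exists_eq_succ_of_ne_zero fun h5 => ?_
            rw [h5, hx0] at h3
            linarith
          have h6 : ¬ xl k b m < xl k b l / 2 := Nat.find_min h2 (by omega)
          rw [hm] at h3 h4
          refine ⟨m, fun _ _ => ⟨not_lt.1 h6, ?_, h4⟩⟩
          have h7 := hxs m
          linarith
        · exfalso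
          have h1 : xl k b l ≤ b := by
            have h2 := la_le_one hK1 l
            unfold xl
            nlinarith
          linarith
      · exact ⟨0, fun _ h1 => absurd h1 hl⟩
    · exact ⟨0, fun h1 => absurd h1 hi⟩
  choose f hf using step
  obtain ⟨L, hL0, hLs⟩ : ∃ L : ℕ → ℕ, L 0 = 0 ∧ ∀ i, L (i + 1) = f i (L i) :=
    ⟨fun i => Nat.rec 0 (fun i l => f i l) i, rfl, fun _ => rfl⟩
  have hind : ∀ i ≤ q, b / 2 ^ i ≤ xl k b (L i) ∧ xl k b (L i) ≤ b / 2 ^ i + 4 ∧ L i < v := by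
    intro i
    induction i with
    | zero =>
      intro _
      rw [hL0, hx0, pow_zero, div_one]
      exact ⟨le_refl _, by linarith, hv0⟩
    | succ i ih =>
      intro hi
      obtain ⟨h1, h2, -⟩ := ih (by omega)
      obtain ⟨h3, h4, h5⟩ := hf i (L i) (by omega) h1
      rw [hLs, pow_succ, ← div_div]
      exact ⟨by linarith, by linarith, h5⟩
  refine ⟨L, hL0, fun i hi => ?_, fun i hi => ?_⟩
  · obtain ⟨h1, h2, h3⟩ := hind i hi
    have h4 : b / 2 ^ q ≤ xl k b (L i) := le_trans (hbi i hi) h1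
    exact ⟨h3, hla _ h4, by linarith, h2⟩
  · rw [hLs]
    exact (hf i (L i) hi (hind i hi.le).1).1

end Pool.Agent.Lib.MP_570bef_ntWE
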