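import Mathlib
import Pool.Agent.Lib.MP_570bef_ntWE.Defs
import Pool.Agent.Lib.MP_570bef_ntWD.LevA
import Pool.Agent.Lib.MP_570bef_ntWE.Spl
import Pool.Agent.Lib.MP_570bef_ntWD.Def2

/-!
# EsG: factorisation for the full family (easy)

Es_cat, Es_pw, Es_one (VS k β X ξ = ∑ over Ico X (2X) with X = 2^(n-4)), card_cat, card_pw, card_one (card (Ico X (2X)) = X),
Len_cat, Len_pw, Len_one, blk_len; norms multiply. GC_rr is rfl (unfold). GC_pos: every factor is positive: 2^(n-1) is in the first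
interval, 2^(n-4) in the second, blk_card for BC and HH.
-/

set_option autoImplicit false

open Finset Real MeasureTheory
open Pool.Agent.Lib.MP_2a816b_nt (e norm_e conj_e e_add e_neg)

namespace Pool.Agent.Lib.MP_570bef_ntWE

open Pool.Agent.Lib.MP_570bef_ntWD

open Pool.Agent.Lib.MP_570bef_ntS (VS)

theorem GC_rr (k : ℕ) (r : ℕ → ℝ) (η : ℝ) (v t u n : ℕ) : GC k r η v t u n =
    cat (one (Finset.Icc (2 ^ (n - 1)) (2 ^ (n + 1)))) (RC k r η v t u n) := by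
  rfl

private theorem EsG_HHlen (k : ℕ) (r : ℕ → ℝ) (η : ℝ) (t : ℕ) (P : ℝ) : Len t (HH k r η t P) := by
  have h := blk_len k (fun _ => 1) r η P t
  rw [Finset.sum_const, Finset.card_range, smul_eq_mul, mul_one] at h
  exact h

private theorem EsG_BClen (k : ℕ) (r : ℕ → ℝ) (η : ℝ) (v : ℕ) (P : ℝ) :
    Len (2 * v) (BC k r η v P) := by
  have h := blk_len (k - 1) (fun _ => 2) r η P v
  rw [Finset.sum_const, Finset.card_range, smul_eq_mul, mul_comm] at h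
  exact h

theorem RC_len (k : ℕ) (r : ℕ → ℝ) (η : ℝ) (v t u n : ℕ) :
    Len (u + (2 * v + (t + t))) (RC k r η v t u n) := by
  exact Len_cat (Len_pw (Len_one _) u) (Len_cat (EsG_BClen k r η v _)
    (Len_cat (EsG_HHlen k r η t _) (EsG_HHlen k r η t _)))

theorem GC_len (k : ℕ) (r : ℕ → ℝ) (η : ℝ) (v t u n : ℕ) :
    Len (ntc v t u) (GC k r η v t u n) := by
  rw [GC_rr]
  exact Len_cat (Len_one _) (RC_len k r η v t u n)

theorem GC_card (k : ℕ) (r : ℕ → ℝ) (η : ℝ) (v t u n : ℕ) :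
    ((GC k r η v t u n).card : ℝ) =
      ((Finset.Icc (2 ^ (n - 1)) (2 ^ (n + 1)) : Finset ℕ).card : ℝ) *
        (((2 ^ (n - 4) : ℕ) : ℝ) ^ u * (((BC k r η v ((2 : ℝ) ^ n)).card : ℝ) *
          ((HH k r η t ((2 : ℝ) ^ n)).card : ℝ) ^ 2)) := by
  rw [GC_rr, card_cat (Len_one _), card_one]
  unfold RC
  rw [card_cat (Len_pw (Len_one _) u), card_pw (Len_one _), card_one,
    card_cat (A := BC k r η v ((2 : ℝ) ^ n)) (blk_len _ _ _ _ _ _),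
    card_cat (EsG_HHlen k r η t _), Nat.card_Ico]
  have h1 : 2 * 2 ^ (n - 4) - 2 ^ (n - 4) = 2 ^ (n - 4) := by omega
  rw [h1]
  push_cast
  ring

theorem GC_norm (k : ℕ) (r : ℕ → ℝ) (η : ℝ) (v t u n : ℕ) (β ξ : ℝ) :
    ‖Es k β (GC k r η v t u n) ξ‖ ≤
      ((Finset.Icc (2 ^ (n - 1)) (2 ^ (n + 1)) : Finset ℕ).card : ℝ) *
        (‖VS k β (2 ^ (n - 4)) ξ‖ ^ u * (‖Es k β (BC k r η v ((2 : ℝ) ^ n)) ξ‖ *
          ‖Es k β (HH k r η t ((2 : ℝ) ^ n)) ξ‖ ^ 2)) := by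
  have h1 : Es k β (one (Finset.Ico (2 ^ (n - 4)) (2 * 2 ^ (n - 4)))) ξ = VS k β (2 ^ (n - 4)) ξ := by
    rw [Es_one]
    rfl
  have h2 : Es k β (RC k r η v t u n) ξ = VS k β (2 ^ (n - 4)) ξ ^ u *
      (Es k β (BC k r η v ((2 : ℝ) ^ n)) ξ *
        (Es k β (HH k r η t ((2 : ℝ) ^ n)) ξ * Es k β (HH k r η t ((2 : ℝ) ^ n)) ξ)) := by
    unfold RC
    rw [Es_cat (Len_pw (Len_one _) u), Es_pw (Len_one _), h1,
      Es_cat (A := BC k r η v ((2 : ℝ) ^ n)) (blk_len _ _ _ _ _ _),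
      Es_cat (EsG_HHlen k r η t _)]
  rw [GC_rr, Es_cat (Len_one _), h2, norm_mul, norm_mul, norm_mul, norm_mul, norm_pow, ← pow_two]
  have h3 := Es_norm_le k β (one (Finset.Icc (2 ^ (n - 1)) (2 ^ (n + 1)))) ξ
  rw [card_one] at h3
  exact mul_le_mul_of_nonneg_right h3 (by positivity)

theorem VS_le (k : ℕ) (β : ℝ) (X : ℕ) (ξ : ℝ) : ‖VS k β X ξ‖ ≤ X := by
  have h : VS k β X ξ = ∑ n ∈ Finset.Ico X (2 * X), e (ξ * ((n : ℝ) + β) ^ k) := rfl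
  rw [h]
  refine (norm_sum_le _ _).trans ?_
  simp only [norm_e, Finset.sum_const, nsmul_eq_mul, mul_one, Nat.card_Ico]
  have h1 : 2 * X - X = X := by omega
  rw [h1]

theorem GC_pos {k v t : ℕ} {r : ℕ → ℝ} {η κ : ℝ} (h : Cy k v t r η κ) (u : ℕ) :
    ∃ n₀ : ℕ, ∀ n ≥ n₀, 0 < ((GC k r η v t u n).card : ℝ) := by
  obtain ⟨c1, P1, hc1, hP1, h1⟩ := blk_card (bl_BC h) v
  obtain ⟨c2, P2, hc2, hP2, h2⟩ := blk_card (bl_HC h) t
  obtain ⟨m, hm⟩ := pow_unbounded_of_one_lt (max P1 P2) (one_lt_two : (1 : ℝ) < 2)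
  refine ⟨m, fun n hn => ?_⟩
  have h3 : max P1 P2 ≤ (2 : ℝ) ^ n := hm.le.trans (pow_le_pow_right₀ one_le_two hn)
  have hP : (0 : ℝ) < (2 : ℝ) ^ n := by positivity
  have h4 : 0 < ((BC k r η v ((2 : ℝ) ^ n)).card : ℝ) :=
    lt_of_lt_of_le (mul_pos hc1 (Real.rpow_pos_of_pos hP _)) (h1 _ ((le_max_left _ _).trans h3))
  have h5 : 0 < ((HH k r η t ((2 : ℝ) ^ n)).card : ℝ) :=
    lt_of_lt_of_le (mul_pos hc2 (Real.rpow_pos_of_pos hP _)) (h2 _ ((le_max_right _ _).trans h3))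
  have h6 : 0 < ((Finset.Icc (2 ^ (n - 1)) (2 ^ (n + 1)) : Finset ℕ).card : ℝ) := by
    rw [Nat.cast_pos, Finset.card_pos]
    exact ⟨2 ^ (n - 1), Finset.mem_Icc.2 ⟨le_refl _, Nat.pow_le_pow_right (by norm_num) (by omega)⟩⟩
  rw [GC_card]
  positivity

end Pool.Agent.Lib.MP_570bef_ntWE
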