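import Mathlib
import Pool.Agent.Lib.MP_570bef_ntWE.Defs
import Pool.Agent.Lib.MP_570bef_ntWE.EsG

/-!
# ManA: the other variables contribute at most P^k/2 (easy+)

P = 2^n, n ≥ 4 large. Entries of members of RC: in Ico (2^(n-4)) (2 * 2^(n-4)), so < P/8 (mem_pw, mem of one), or entries of BC, HH, so
≤ P/4 (blk_entry with bl_BC, bl_HC). So 0 ≤ a + β ≤ P/4 + 1 ≤ P/3 for P ≥ 12, and Ps k β y ≤ (length) (P/3)^k with
length = u + ... (RC_len); 2 * length ≤ 3^k (SzC).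
-/

set_option autoImplicit false

open Finset Real MeasureTheory
open Pool.Agent.Lib.MP_2a816b_nt (e norm_e conj_e e_add e_neg)

namespace Pool.Agent.Lib.MP_570bef_ntWE

open Pool.Agent.Lib.MP_570bef_ntWD

private theorem ManA_Ps (d : ℕ) (β : ℝ) (x : List ℕ) :
    Ps d β x = (x.map (fun n : ℕ => ((n : ℝ) + β) ^ d)).sum := by
  induction x with
  | nil => exact Ps_nil d β
  | cons a l ih =>
    have h1 : Ps d β (a :: l) = Ps d β [a] + Ps d β l := Ps_append d β [a] l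
    have h2 : Ps d β [a] = ((a : ℝ) + β) ^ d := by simp [Ps]
    rw [h1, h2, ih, List.map_cons, List.sum_cons]

private theorem ManA_bound {s : ℕ} {x : List ℕ} (hs : x.length = s) {P β : ℝ} (hβ : 0 ≤ β)
    (hβ1 : β ≤ 1) (hP : 12 ≤ P) (hx : ∀ a ∈ x, (a : ℝ) ≤ P / 4) (d : ℕ) :
    0 ≤ Ps d β x ∧ Ps d β x ≤ s * (P / 3) ^ d := by
  have h1 : ∀ a ∈ x, 0 ≤ ((a : ℝ) + β) ^ d ∧ ((a : ℝ) + β) ^ d ≤ (P / 3) ^ d := by
    intro a ha
    have h2 : 0 ≤ (a : ℝ) + β := add_nonneg (Nat.cast_nonneg a) hβ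
    have h3 := hx a ha
    exact ⟨pow_nonneg h2 d, pow_le_pow_left₀ h2 (by linarith) d⟩
  rw [ManA_Ps]
  constructor
  · refine List.sum_nonneg fun y hy => ?_
    obtain ⟨a, ha, rfl⟩ := List.mem_map.1 hy
    exact (h1 a ha).1
  · have h4 := List.sum_le_card_nsmul (x.map fun n : ℕ => ((n : ℝ) + β) ^ d) ((P / 3) ^ d) (fun y hy => by
      obtain ⟨a, ha, rfl⟩ := List.mem_map.1 hy
      exact (h1 a ha).2)
    rw [List.length_map, hs, nsmul_eq_mul] at h4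
    exact h4

theorem rest_small {k v t : ℕ} {r : ℕ → ℝ} {η κ : ℝ} (h : Cy k v t r η κ) (u : ℕ)
    (hs : SzC k v t u) : ∃ n₀ : ℕ, ∀ n ≥ n₀, ∀ β : ℝ, 0 ≤ β → β ≤ 1 →
      ∀ y ∈ RC k r η v t u n, 0 ≤ Ps k β y ∧ 2 * Ps k β y ≤ ((2 : ℝ) ^ n) ^ k := by
  refine ⟨4, fun n hn β hβ hβ1 y hy => ?_⟩
  have hP16 : (16 : ℝ) ≤ (2 : ℝ) ^ n := by
    have h1 : (2 : ℝ) ^ 4 ≤ (2 : ℝ) ^ n := pow_le_pow_right₀ (by norm_num) hn
    linarith [show (2 : ℝ) ^ 4 = 16 by norm_num]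
  have hP1 : (1 : ℝ) ≤ (2 : ℝ) ^ n := by linarith
  have hlen := RC_len k r η v t u n y hy
  have hent : ∀ a ∈ y, (a : ℝ) ≤ (2 : ℝ) ^ n / 4 := by
    intro a ha
    obtain ⟨y1, hy1, y2, hy2, rfl⟩ := mem_cat.1 hy
    rcases List.mem_append.1 ha with h1 | h1
    · obtain ⟨z, hz, haz⟩ := mem_pw u hy1 h1
      unfold one at hz
      obtain ⟨m, hm, rfl⟩ := Finset.mem_image.1 hz
      have h2 : a = m := by simpa using haz
      rw [h2]
      have h3 := (Finset.mem_Ico.1 hm).2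
      have h4 : (m : ℝ) ≤ 2 * (2 : ℝ) ^ (n - 4) := by
        have h5 : (m : ℝ) < ((2 * 2 ^ (n - 4) : ℕ) : ℝ) := by exact_mod_cast h3
        rw [Nat.cast_mul, Nat.cast_pow, Nat.cast_ofNat] at h5
        exact h5.le
      have h6 : (2 : ℝ) ^ n = 16 * (2 : ℝ) ^ (n - 4) := by
        have h7 : n = (n - 4) + 4 := by omega
        rw [h7, pow_add, Nat.add_sub_cancel]
        ring
      have h8 : (0 : ℝ) ≤ (2 : ℝ) ^ (n - 4) := by positivity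
      rw [h6]
      linarith
    · obtain ⟨y3, hy3, y4, hy4, rfl⟩ := mem_cat.1 hy2
      rcases List.mem_append.1 h1 with h2 | h2
      · exact blk_entry (bl_BC h) hP1 v hy3 h2
      · obtain ⟨y5, hy5, y6, hy6, rfl⟩ := mem_cat.1 hy4
        rcases List.mem_append.1 h2 with h3 | h3
        · exact blk_entry (bl_HC h) hP1 t hy5 h3
        · exact blk_entry (bl_HC h) hP1 t hy6 h3
  have hb := ManA_bound hlen hβ hβ1 (by linarith) hent k
  refine ⟨hb.1, ?_⟩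
  have hs' : 2 * ((u + (2 * v + (t + t)) : ℕ) : ℝ) ≤ 3 ^ k := by
    have h1 : (((2 * (u + (2 * v + (t + t))) : ℕ)) : ℝ) ≤ ((3 ^ k : ℕ) : ℝ) :=
      Nat.cast_le.2 hs
    rw [Nat.cast_mul, Nat.cast_pow, Nat.cast_ofNat, Nat.cast_ofNat] at h1
    exact h1
  have h9 : (0 : ℝ) ≤ ((2 : ℝ) ^ n / 3) ^ k := by positivity
  calc 2 * Ps k β y ≤ 2 * (((u + (2 * v + (t + t)) : ℕ) : ℝ) *
        ((2 : ℝ) ^ n / 3) ^ k) := by linarith [hb.2]
    _ = (2 * ((u + (2 * v + (t + t)) : ℕ) : ℝ)) *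
        ((2 : ℝ) ^ n / 3) ^ k := by ring
    _ ≤ 3 ^ k * ((2 : ℝ) ^ n / 3) ^ k := mul_le_mul_of_nonneg_right hs' h9
    _ = ((2 : ℝ) ^ n) ^ k := by
        rw [← mul_pow]
        congr 1
        ring

end Pool.Agent.Lib.MP_570bef_ntWE
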