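import Mathlib
import Pool.Agent.Lib.MP_570bef_ntWE.Defs
import Pool.Agent.Lib.MP_570bef_ntWE.ManA
import Pool.Agent.Lib.MP_570bef_ntWD.ManB

/-!
# ManC: many members of the family near τ (easy+)

GC_rr. Members [m] ++ y, Ps k β ([m] ++ y) = (m+β)^k + Ps k β y. For y ∈ RC, τ' = τ - Ps k β y satisfies P^k ≤ 2 τ', τ' ≤ (2P)^k
(rest_small), so wide_count gives ≥ c P^(3/4) values m. The map (m, y) ↦ m :: y is injective: the number is ≥ |RC| c P^(3/4)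
(sum over y of the fibres, sum_cat with the indicator, or card of a sigma type). |GC| = |Icc| |RC| ≤ 2P |RC| (Icc has
2^(n+1) - 2^(n-1) + 1 ≤ 2^(n+1) = 2P members, n ≥ 1; card_cat). So it is ≥ (c/2) |GC| P^(-1/4).
-/

set_option autoImplicit false

open Finset Real MeasureTheory
open Pool.Agent.Lib.MP_2a816b_nt (e norm_e conj_e e_add e_neg)

namespace Pool.Agent.Lib.MP_570bef_ntWE

open Pool.Agent.Lib.MP_570bef_ntWD

open Classical in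
private theorem ManC_count {k v t u n : ℕ} {r : ℕ → ℝ} {η β τ W : ℝ} :
    ((GC k r η v t u n).filter fun x => |Ps k β x - τ| ≤ W).card =
      ∑ y ∈ RC k r η v t u n, ((Finset.Icc (2 ^ (n - 1)) (2 ^ (n + 1))).filter
        fun m : ℕ => |((m : ℝ) + β) ^ k - (τ - Ps k β y)| ≤ W).card := by
  have h1 : GC k r η v t u n =
      cat (one (Finset.Icc (2 ^ (n - 1)) (2 ^ (n + 1)))) (RC k r η v t u n) := rfl
  rw [Finset.card_filter, h1, sum_cat (Len_one _), Finset.sum_comm]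
  refine Finset.sum_congr rfl fun y _ => ?_
  rw [Finset.card_filter]
  unfold one
  rw [Finset.sum_image fun a _ b _ h => by simpa using h]
  refine Finset.sum_congr rfl fun m _ => ?_
  have h2 : Ps k β ([m] ++ y) - τ = ((m : ℝ) + β) ^ k - (τ - Ps k β y) := by
    rw [Ps_append]
    have h3 : Ps k β [m] = ((m : ℝ) + β) ^ k := by simp [Ps]
    rw [h3]
    ring
  rw [h2]

open Classical in
theorem many {k v t : ℕ} {r : ℕ → ℝ} {η κ : ℝ} (h : Cy k v t r η κ) (u : ℕ)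
    (hs : SzC k v t u) : ∃ (c : ℝ) (n₀ : ℕ), 0 < c ∧ ∀ n ≥ n₀, ∀ β : ℝ, 0 ≤ β → β ≤ 1 →
      ∀ τ : ℝ, ((2 : ℝ) ^ n) ^ k ≤ τ → τ ≤ ((2 : ℝ) ^ (n + 1)) ^ k →
      c * ((GC k r η v t u n).card : ℝ) * ((2 : ℝ) ^ n) ^ (-(1 / 4) : ℝ) ≤
        (((GC k r η v t u n).filter
          fun x => |Ps k β x - τ| ≤ ((2 : ℝ) ^ n) ^ ((k : ℝ) - 1 / 4)).card : ℝ) := by
  obtain ⟨n₁, h1⟩ := rest_small h u hs
  have hk : 2 ≤ k := by
    have := h.hk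
    omega
  obtain ⟨c₀, n₂, hc₀, hn₂, h2⟩ := wide_count k hk
  refine ⟨c₀ / 2, max n₁ n₂, by positivity, ?_⟩
  intro n hn β hβ0 hβ1 τ hτ1 hτ2
  have hn1 : n₁ ≤ n := (le_max_left _ _).trans hn
  have hn2 : n₂ ≤ n := (le_max_right _ _).trans hn
  have hn0 : 1 ≤ n := hn₂.trans hn2
  have hP : (0 : ℝ) < (2 : ℝ) ^ n := by positivity
  rw [ManC_count]
  push_cast
  have h3 : ∀ y ∈ RC k r η v t u n, c₀ * ((2 : ℝ) ^ n) ^ (3 / 4 : ℝ) ≤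
      (((Finset.Icc (2 ^ (n - 1)) (2 ^ (n + 1))).filter
        fun m : ℕ => |((m : ℝ) + β) ^ k - (τ - Ps k β y)| ≤ ((2 : ℝ) ^ n) ^ ((k : ℝ) - 1 / 4)).card : ℝ) := by
    intro y hy
    obtain ⟨h4, h5⟩ := h1 n hn1 β hβ0 hβ1 y hy
    exact h2 n hn2 β hβ0 hβ1 (τ - Ps k β y) (by linarith) (by linarith)
  have h4 := Finset.sum_le_sum h3
  rw [Finset.sum_const, nsmul_eq_mul] at h4
  refine le_trans ?_ h4
  have h5 : (GC k r η v t u n).card =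
      (Finset.Icc (2 ^ (n - 1)) (2 ^ (n + 1))).card * (RC k r η v t u n).card := by
    have h6 : GC k r η v t u n =
      cat (one (Finset.Icc (2 ^ (n - 1)) (2 ^ (n + 1)))) (RC k r η v t u n) := rfl
    rw [h6, card_cat (Len_one _), MP_570bef_ntWD.card_one]
  have h6 : ((Finset.Icc (2 ^ (n - 1)) (2 ^ (n + 1))).card : ℝ) ≤ 2 * (2 : ℝ) ^ n := by
    rw [Nat.card_Icc]
    have h7 : 2 ^ (n + 1) + 1 - 2 ^ (n - 1) ≤ 2 * 2 ^ n := by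
      have h8 : 1 ≤ 2 ^ (n - 1) := Nat.one_le_two_pow
      rw [pow_succ]
      omega
    exact_mod_cast h7
  have h7 : (2 : ℝ) ^ n * ((2 : ℝ) ^ n) ^ (-(1 / 4) : ℝ) = ((2 : ℝ) ^ n) ^ (3 / 4 : ℝ) := by
    have h8 : (2 : ℝ) ^ n * ((2 : ℝ) ^ n) ^ (-(1 / 4) : ℝ) =
        ((2 : ℝ) ^ n) ^ (1 : ℝ) * ((2 : ℝ) ^ n) ^ (-(1 / 4) : ℝ) := by
      rw [Real.rpow_one]
    rw [h8, ← Real.rpow_add hP]
    norm_num
  rw [h5]
  push_cast
  rw [← h7]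
  have h8 : (0 : ℝ) ≤ ((2 : ℝ) ^ n) ^ (-(1 / 4) : ℝ) := by positivity
  have h9 : (0 : ℝ) ≤ ((RC k r η v t u n).card : ℝ) := Nat.cast_nonneg _
  have h10 := mul_le_mul_of_nonneg_right h6 (mul_nonneg (mul_nonneg h9 h8) hc₀.le)
  calc c₀ / 2 * (((Finset.Icc (2 ^ (n - 1)) (2 ^ (n + 1))).card : ℝ) *
        ((RC k r η v t u n).card : ℝ)) * ((2 : ℝ) ^ n) ^ (-(1 / 4) : ℝ)
      = ((Finset.Icc (2 ^ (n - 1)) (2 ^ (n + 1))).card : ℝ) *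
        (((RC k r η v t u n).card : ℝ) * ((2 : ℝ) ^ n) ^ (-(1 / 4) : ℝ) * c₀) / 2 := by ring
    _ ≤ 2 * (2 : ℝ) ^ n * (((RC k r η v t u n).card : ℝ) * ((2 : ℝ) ^ n) ^ (-(1 / 4) : ℝ) * c₀) / 2 :=
        div_le_div_of_nonneg_right h10 (by norm_num)
    _ = _ := by ring

end Pool.Agent.Lib.MP_570bef_ntWE
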