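import Mathlib
import Pool.Agent.Lib.MP_570bef_ntWE.Defs
import Pool.Agent.Lib.MP_570bef_ntWE.EsG
import Pool.Agent.Lib.MP_570bef_ntWD.KLo
import Pool.Agent.Lib.MP_570bef_ntWD.RwI

/-!
# RegA: the error for |ξ| ≤ P^(-k+1/2) (medium)

P = 2^n, X = 2^(n-4) = P/16, w = P^(-1/4), W = P^(k-1/4). |ξ| X^k ≤ P^(1/2) ≤ X^(3/4) for large P, so kl_low gives for ξ ≠ 0
‖VS k β X ξ‖ ≤ 2 X/(|ξ| X^k) = X * C1/(|ξ| P^k), C1 = 2 * 16^k; also ‖VS‖ ≤ X. With GC_norm, GC_card, u ≥ 4 (four factors with the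
bound, the others trivial: VS_le, Es_norm_le): ‖Es GC ξ‖ ≤ |GC| min 1 ((C1/(|ξ| P^k))^4). JC ≤ w π (W ξ)² ‖Es GC ξ‖.
|ξ| ≤ P^(-k): JC ≤ π w W² P^(-2k) |GC|, integral ≤ 2 π w W² P^(-3k) |GC|. P^(-k) ≤ |ξ|: JC ≤ π w W² C1^4 P^(-4k) |GC| /ξ²
and the integral of 1/ξ² over |ξ| ≥ P^(-k) is 2 P^k (or on |ξ| ∈ [P^(-k), P^(-k+1/2)], at most that). Total
≤ C w W² P^(-3k) |GC| = C P^(-1/4) P^(2k - 1/2) P^(-3k) |GC| = C |GC| P^(-k-3/4).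
-/

set_option autoImplicit false

open Finset Real MeasureTheory
open Pool.Agent.Lib.MP_2a816b_nt (e norm_e conj_e e_add e_neg)

namespace Pool.Agent.Lib.MP_570bef_ntWE

open Pool.Agent.Lib.MP_570bef_ntWD

/-- the bound for one factor to the power `u ≥ 4` -/
private theorem RegA_pw {V X b a : ℝ} (hV : 0 ≤ V) (hX : V ≤ X) (hb : 0 < b) (h : a ≠ 0 → V ≤ X * (b / |a|)) {u : ℕ}
    (hu : 4 ≤ u) : a ^ 2 * V ^ u ≤ X ^ u * (2 * b ^ 2) * (1 + (a / b) ^ 2)⁻¹ := by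
  have hX0 : 0 ≤ X := hV.trans hX
  have hD : 0 < 1 + (a / b) ^ 2 := by positivity
  rw [← div_eq_mul_inv, le_div_iff₀ hD]
  have e1 : a ^ 2 = (a / b) ^ 2 * b ^ 2 := by
    field_simp
  rcases le_or_gt |a| b with h1 | h1
  · have h2 : V ^ u ≤ X ^ u := pow_le_pow_left₀ hV hX u
    have h3 : (a / b) ^ 2 ≤ 1 := by
      rw [div_pow, div_le_one (by positivity), sq_le_sq, abs_of_pos hb]
      exact h1
    have h4 : 0 ≤ (a / b) ^ 2 := by positivity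
    have h5 : (a / b) ^ 2 * (1 + (a / b) ^ 2) ≤ 2 := by nlinarith
    calc a ^ 2 * V ^ u * (1 + (a / b) ^ 2) = (a / b) ^ 2 * (1 + (a / b) ^ 2) * (b ^ 2 * V ^ u) := by
          rw [e1]
          ring
      _ ≤ 2 * (b ^ 2 * X ^ u) := by
          refine mul_le_mul h5 (mul_le_mul_of_nonneg_left h2 (by positivity)) (by positivity) (by norm_num)
      _ = X ^ u * (2 * b ^ 2) := by ring
  · have ha : 0 < |a| := hb.trans h1
    have ha0 : a ≠ 0 := abs_pos.1 ha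
    have h2 : V ≤ X * (b / |a|) := h ha0
    have h3 : 0 ≤ b / |a| := by positivity
    have h4 : b / |a| ≤ 1 := by
      rw [div_le_one ha]
      exact h1.le
    have h5 : V ^ u ≤ X ^ u * (b / |a|) ^ 4 := by
      calc V ^ u ≤ (X * (b / |a|)) ^ u := pow_le_pow_left₀ hV h2 u
        _ = X ^ u * (b / |a|) ^ u := mul_pow _ _ _
        _ ≤ X ^ u * (b / |a|) ^ 4 :=
            mul_le_mul_of_nonneg_left (pow_le_pow_of_le_one h3 h4 hu) (by positivity)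
    have h6 : a ^ 2 * (b / |a|) ^ 4 * (1 + (a / b) ^ 2) ≤ 2 * b ^ 2 := by
      have e2 : a ^ 2 * (b / |a|) ^ 4 * (1 + (a / b) ^ 2) = b ^ 2 * ((b / |a|) ^ 2 + 1) := by
        have e3 : (b / |a|) ^ 4 = b ^ 4 / a ^ 4 := by
          rw [div_pow, show |a| ^ 4 = a ^ 4 from by
            rw [show (4 : ℕ) = 2 * 2 from rfl, pow_mul, pow_mul, sq_abs]]
        have e4 : (b / |a|) ^ 2 = b ^ 2 / a ^ 2 := by
          rw [div_pow, sq_abs]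
        rw [e3, e4]
        field_simp
      rw [e2]
      have h7 : (b / |a|) ^ 2 ≤ 1 := pow_le_one₀ h3 h4
      nlinarith [sq_nonneg b]
    calc a ^ 2 * V ^ u * (1 + (a / b) ^ 2) ≤ a ^ 2 * (X ^ u * (b / |a|) ^ 4) * (1 + (a / b) ^ 2) :=
          mul_le_mul_of_nonneg_right (mul_le_mul_of_nonneg_left h5 (sq_nonneg a)) hD.le
      _ = X ^ u * (a ^ 2 * (b / |a|) ^ 4 * (1 + (a / b) ^ 2)) := by ring
      _ ≤ X ^ u * (2 * b ^ 2) := mul_le_mul_of_nonneg_left h6 (by positivity)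

private theorem RegA_int (A b : ℝ) (hb : 0 < b) :
    Integrable (fun ξ : ℝ => A * (1 + (ξ / b) ^ 2)⁻¹) ∧ ∫ ξ : ℝ, A * (1 + (ξ / b) ^ 2)⁻¹ = A * (b * π) := by
  have h1 : Integrable (fun ξ : ℝ => (1 + (ξ / b) ^ 2)⁻¹) :=
    integrable_inv_one_add_sq.comp_div hb.ne'
  refine ⟨h1.const_mul A, ?_⟩
  rw [integral_const_mul]
  have h2 := MeasureTheory.Measure.integral_comp_div (fun x : ℝ => (1 + x ^ 2)⁻¹) b
  rw [h2, abs_of_pos hb, smul_eq_mul, integral_univ_inv_one_add_sq]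

private theorem RegA_rpow (P : ℝ) (hP : 0 < P) (k : ℕ) :
    P ^ (-(1 / 4) : ℝ) * (P ^ ((k : ℝ) - 1 / 4)) ^ 2 * (1 / P ^ k) ^ 3 = P ^ (-(k : ℝ) - 3 / 4) := by
  have e1 : (P ^ ((k : ℝ) - 1 / 4)) ^ 2 = P ^ (((k : ℝ) - 1 / 4) * 2) := by
    rw [Real.rpow_mul hP.le]
    norm_num
  have e2 : (1 / P ^ k) ^ 3 = P ^ (-((k : ℝ) * 3)) := by
    rw [Real.rpow_neg hP.le, Real.rpow_mul hP.le, Real.rpow_natCast, one_div, inv_pow]
    norm_num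
  rw [e1, e2, ← Real.rpow_add hP, ← Real.rpow_add hP]
  congr 1
  ring

theorem regA {k v t : ℕ} {r : ℕ → ℝ} {η κ : ℝ} (h : Cy k v t r η κ) (u : ℕ)
    (hu : 4 ≤ u) : ∃ (C : ℝ) (n₀ : ℕ), 0 < C ∧ ∀ n ≥ n₀, ∀ β : ℝ, 0 ≤ β → β ≤ 1 →
      ∫ ξ in {ξ : ℝ | |ξ| ≤ ((2 : ℝ) ^ n) ^ (-(k : ℝ) + 1 / 2)}, JC k r η v t u n β ξ ≤
        C * ((GC k r η v t u n).card : ℝ) * ((2 : ℝ) ^ n) ^ (-(k : ℝ) - 3 / 4) := by
  have hk : 2 ≤ k := by
    have h1 := h.hk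
    omega
  obtain ⟨P₀, hP₀, hkl⟩ := kl_low k hk
  refine ⟨2 * π ^ 2 * (2 * 16 ^ k) ^ 3, P₀ + 4, by positivity, fun n hn β hβ hβ1 => ?_⟩
  obtain ⟨P, hP⟩ : ∃ P : ℝ, P = (2 : ℝ) ^ n := ⟨_, rfl⟩
  have hP0 : 0 < P := by
    rw [hP]
    positivity
  have hn4 : 4 ≤ n := by omega
  have hX0 : P₀ ≤ 2 ^ (n - 4) := by
    have h1 : n - 4 < 2 ^ (n - 4) := Nat.lt_two_pow_self
    omega
  obtain ⟨X, hX⟩ : ∃ X : ℝ, X = ((2 ^ (n - 4) : ℕ) : ℝ) := ⟨_, rfl⟩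
  have hX1 : 1 ≤ X := by
    rw [hX]
    exact_mod_cast hP₀.trans hX0
  have hPX : P = 16 * X := by
    rw [hP, hX]
    push_cast
    obtain ⟨m, rfl⟩ : ∃ m, n = m + 4 := ⟨n - 4, by omega⟩
    rw [Nat.add_sub_cancel, pow_add]
    norm_num
    ring
  rw [← hP]
  obtain ⟨w, hw⟩ : ∃ w : ℝ, w = P ^ (-(1 / 4) : ℝ) := ⟨_, rfl⟩
  obtain ⟨W, hW⟩ : ∃ W : ℝ, W = P ^ ((k : ℝ) - 1 / 4) := ⟨_, rfl⟩
  have hw0 : 0 < w := by
    rw [hw]
    positivity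
  obtain ⟨b, hb⟩ : ∃ b : ℝ, b = 2 * 16 ^ k * (1 / P ^ k) := ⟨_, rfl⟩
  have hb0 : 0 < b := by
    rw [hb]
    positivity
  obtain ⟨N, hN⟩ : ∃ N : ℝ, N = ((GC k r η v t u n).card : ℝ) := ⟨_, rfl⟩
  have hN0 : 0 ≤ N := by
    rw [hN]
    positivity
  rw [← hN]
  obtain ⟨A, hA⟩ : ∃ A : ℝ, A = w * (π * W ^ 2) * N * (2 * b ^ 2) := ⟨_, rfl⟩
  have hA0 : 0 ≤ A := by
    rw [hA]
    positivity
  -- the pointwise bound
  have hpt : ∀ ξ : ℝ, |ξ| ≤ P ^ (-(k : ℝ) + 1 / 2) → JC k r η v t u n β ξ ≤ A * (1 + (ξ / b) ^ 2)⁻¹ := by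
    intro ξ hξ
    have hVX : ‖MP_570bef_ntS.VS k β (2 ^ (n - 4)) ξ‖ ≤ X := by
      rw [hX]
      exact VS_le k β _ ξ
    have hVb : ξ ≠ 0 → ‖MP_570bef_ntS.VS k β (2 ^ (n - 4)) ξ‖ ≤ X * (b / |ξ|) := by
      intro hξ0
      have hξ1 : 0 < |ξ| := abs_pos.2 hξ0
      have h1 : |ξ| * X ^ k ≤ X ^ (3 / 4 : ℝ) := by
        have h2 : |ξ| * P ^ k ≤ P ^ (1 / 2 : ℝ) := by
          calc |ξ| * P ^ k ≤ P ^ (-(k : ℝ) + 1 / 2) * P ^ k := mul_le_mul_of_nonneg_right hξ (by positivity)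
            _ = P ^ (1 / 2 : ℝ) := by
              rw [← Real.rpow_natCast P k, ← Real.rpow_add hP0]
              congr 1
              ring
        have h3 : P ^ (1 / 2 : ℝ) = 4 * X ^ (1 / 2 : ℝ) := by
          rw [hPX, Real.mul_rpow (by norm_num) (by linarith)]
          congr 1
          rw [show (16 : ℝ) = 4 ^ (2 : ℝ) from by norm_num, ← Real.rpow_mul (by norm_num)]
          norm_num
        have h4 : |ξ| * P ^ k = 16 ^ k * (|ξ| * X ^ k) := by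
          rw [hPX, mul_pow]
          ring
        have h5 : (16 : ℝ) ≤ 16 ^ k := by
          calc (16 : ℝ) = 16 ^ 1 := (pow_one _).symm
            _ ≤ 16 ^ k := pow_le_pow_right₀ (by norm_num) (by omega)
        have h6 : X ^ (1 / 2 : ℝ) ≤ X ^ (3 / 4 : ℝ) := Real.rpow_le_rpow_of_exponent_le hX1 (by norm_num)
        have h7 : 0 ≤ |ξ| * X ^ k := by positivity
        have h8 : 0 ≤ X ^ (1 / 2 : ℝ) := by positivity
        rw [h4, h3] at h2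
        nlinarith
      have h2 := hkl (2 ^ (n - 4)) ξ β hX0 hβ hβ1 hξ0 (by rw [← hX]; exact h1)
      rw [← hX] at h2
      refine h2.trans (le_of_eq ?_)
      rw [hb, hPX, mul_pow]
      have : X ≠ 0 := by linarith
      field_simp
    have hmain := RegA_pw (norm_nonneg (MP_570bef_ntS.VS k β (2 ^ (n - 4)) ξ)) hVX hb0 hVb hu
    have hG := GC_norm k r η v t u n β ξ
    have hcard := GC_card k r η v t u n
    rw [← hN, ← hX] at hcard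
    have hBB := Es_norm_le k β (BC k r η v ((2 : ℝ) ^ n)) ξ
    have hHH := Es_norm_le k β (HH k r η t ((2 : ℝ) ^ n)) ξ
    unfold JC Jn
    rw [← hP, ← hw, ← hW]
    rw [← hP] at hG hcard hBB hHH
    obtain ⟨c1, hc1⟩ : ∃ c1 : ℝ, c1 = ((Finset.Icc (2 ^ (n - 1)) (2 ^ (n + 1)) : Finset ℕ).card : ℝ) := ⟨_, rfl⟩
    obtain ⟨cB, hcB⟩ : ∃ cB : ℝ, cB = ((BC k r η v P).card : ℝ) := ⟨_, rfl⟩
    obtain ⟨cH, hcH⟩ : ∃ cH : ℝ, cH = ((HH k r η t P).card : ℝ) := ⟨_, rfl⟩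
    have hc10 : 0 ≤ c1 := by
      rw [hc1]
      positivity
    have hcB0 : 0 ≤ cB := by
      rw [hcB]
      positivity
    have hcH0 : 0 ≤ cH := by
      rw [hcH]
      positivity
    rw [← hc1] at hG hcard
    rw [← hcB] at hcard hBB
    rw [← hcH] at hcard hHH
    have hES : ξ ^ 2 * ‖Es k β (GC k r η v t u n) ξ‖ ≤ N * (2 * b ^ 2) * (1 + (ξ / b) ^ 2)⁻¹ := by
      have h1 : ‖Es k β (BC k r η v P) ξ‖ * ‖Es k β (HH k r η t P) ξ‖ ^ 2 ≤ cB * cH ^ 2 :=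
        mul_le_mul hBB (pow_le_pow_left₀ (norm_nonneg _) hHH 2) (by positivity) hcB0
      calc ξ ^ 2 * ‖Es k β (GC k r η v t u n) ξ‖
          ≤ ξ ^ 2 * (c1 * (‖MP_570bef_ntS.VS k β (2 ^ (n - 4)) ξ‖ ^ u * (‖Es k β (BC k r η v P) ξ‖ *
              ‖Es k β (HH k r η t P) ξ‖ ^ 2))) := mul_le_mul_of_nonneg_left hG (sq_nonneg ξ)
        _ = c1 * ((ξ ^ 2 * ‖MP_570bef_ntS.VS k β (2 ^ (n - 4)) ξ‖ ^ u) * (‖Es k β (BC k r η v P) ξ‖ *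
              ‖Es k β (HH k r η t P) ξ‖ ^ 2)) := by ring
        _ ≤ c1 * ((X ^ u * (2 * b ^ 2) * (1 + (ξ / b) ^ 2)⁻¹) * (cB * cH ^ 2)) := by
            refine mul_le_mul_of_nonneg_left (mul_le_mul hmain h1 (by positivity) (by positivity)) hc10
        _ = N * (2 * b ^ 2) * (1 + (ξ / b) ^ 2)⁻¹ := by
            rw [hcard]
            ring
    have hmin : min 1 (π * (W * ξ) ^ 2) ≤ π * (W * ξ) ^ 2 := min_le_right _ _
    have hmin0 : 0 ≤ min 1 (π * (W * ξ) ^ 2) := le_min zero_le_one (by positivity)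
    have hexp : Real.exp (-π * (w * ξ) ^ 2) ≤ 1 := by
      rw [Real.exp_le_one_iff]
      have : 0 ≤ π * (w * ξ) ^ 2 := by positivity
      linarith
    have hexp0 : 0 ≤ Real.exp (-π * (w * ξ) ^ 2) := (Real.exp_pos _).le
    calc w * min 1 (π * (W * ξ) ^ 2) * Real.exp (-π * (w * ξ) ^ 2) * ‖Es k β (GC k r η v t u n) ξ‖
        ≤ w * (π * (W * ξ) ^ 2) * 1 * ‖Es k β (GC k r η v t u n) ξ‖ := by
          refine mul_le_mul_of_nonneg_right ?_ (norm_nonneg _)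
          exact mul_le_mul (mul_le_mul_of_nonneg_left hmin hw0.le) hexp hexp0 (by positivity)
      _ = w * (π * W ^ 2) * (ξ ^ 2 * ‖Es k β (GC k r η v t u n) ξ‖) := by ring
      _ ≤ w * (π * W ^ 2) * (N * (2 * b ^ 2) * (1 + (ξ / b) ^ 2)⁻¹) :=
          mul_le_mul_of_nonneg_left hES (by positivity)
      _ = A * (1 + (ξ / b) ^ 2)⁻¹ := by
          rw [hA]
          ring
  have hnn : ∀ ξ : ℝ, 0 ≤ JC k r η v t u n β ξ := by
    intro ξ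
    unfold JC Jn
    have : 0 ≤ min 1 (π * (((2 : ℝ) ^ n) ^ ((k : ℝ) - 1 / 4) * ξ) ^ 2) := le_min zero_le_one (by positivity)
    positivity
  have hmeas : MeasurableSet {ξ : ℝ | |ξ| ≤ P ^ (-(k : ℝ) + 1 / 2)} :=
    measurableSet_le measurable_norm measurable_const
  obtain ⟨hI, hIv⟩ := RegA_int A b hb0
  calc ∫ ξ in {ξ : ℝ | |ξ| ≤ P ^ (-(k : ℝ) + 1 / 2)}, JC k r η v t u n β ξ
      ≤ ∫ ξ in {ξ : ℝ | |ξ| ≤ P ^ (-(k : ℝ) + 1 / 2)}, A * (1 + (ξ / b) ^ 2)⁻¹ := by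
        refine integral_mono_of_nonneg (ae_of_all _ hnn) hI.integrableOn ?_
        exact (ae_restrict_iff' hmeas).2 (ae_of_all _ fun ξ hξ => hpt ξ hξ)
    _ ≤ ∫ ξ, A * (1 + (ξ / b) ^ 2)⁻¹ :=
        setIntegral_le_integral hI (ae_of_all _ fun ξ => by positivity)
    _ = A * (b * π) := hIv
    _ = 2 * π ^ 2 * (2 * 16 ^ k) ^ 3 * N * P ^ (-(k : ℝ) - 3 / 4) := by
        rw [← RegA_rpow P hP0 k, ← hw, ← hW, hA, hb]
        ring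

end Pool.Agent.Lib.MP_570bef_ntWE
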