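import Mathlib
import Pool.Agent.Lib.MP_570bef_ntWE.Defs
import Pool.Agent.Lib.MP_570bef_ntWE.EsG
import Pool.Agent.Lib.MP_570bef_ntWD.WeL
import Pool.Agent.Lib.MP_570bef_ntWD.RwI

/-!
# RegB: the error for P^(-k+1/2) ≤ |ξ| ≤ P^(b₀-k) (medium-)

P = 2^n, X = 2^(n-4) = P/16. |ξ| X^k ≥ P^(1/2) 16^(-k) ≥ X^(1/4) for large P; |ξ| X^k ≤ P^b₀ = 16^b₀ X^b₀ ≤ X^(b₀ + 5/4) for large P. So
weyl_mid: ‖VS k β X ξ‖ ≤ C X^(1 - sg b₀), and GC_norm, GC_card, Es_norm_le: ‖Es GC ξ‖ ≤ |GC| C^u X^(-(u sg b₀)) ≤ |GC| C^u X^(-(b₀+1))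
= C' |GC| P^(-(b₀+1)). JC ≤ w ‖Es GC ξ‖, w = P^(-1/4); the length of the set is ≤ 2 P^(b₀-k). Total ≤ 2 C' |GC| P^(-1/4 - k - 1).
-/

set_option autoImplicit false

open Finset Real MeasureTheory
open Pool.Agent.Lib.MP_2a816b_nt (e norm_e conj_e e_add e_neg)

namespace Pool.Agent.Lib.MP_570bef_ntWE

open Pool.Agent.Lib.MP_570bef_ntWD

private lemma RegB_Jn (k : ℕ) (β : ℝ) (G : Finset (List ℕ)) (w W ξ : ℝ) (hw : 0 ≤ w) :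
    Jn k β G w W ξ ≤ w * ‖Es k β G ξ‖ := by
  unfold Jn
  refine mul_le_mul_of_nonneg_right ?_ (norm_nonneg _)
  have h1 : min 1 (π * (W * ξ) ^ 2) ≤ 1 := min_le_left _ _
  have h2 : Real.exp (-π * (w * ξ) ^ 2) ≤ 1 := by
    rw [Real.exp_le_one_iff]
    nlinarith [Real.pi_pos, sq_nonneg (w * ξ), mul_nonneg Real.pi_pos.le (sq_nonneg (w * ξ))]
  have h3 : 0 ≤ min 1 (π * (W * ξ) ^ 2) :=
    le_min zero_le_one (mul_nonneg Real.pi_pos.le (sq_nonneg _))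
  calc w * min 1 (π * (W * ξ) ^ 2) * Real.exp (-π * (w * ξ) ^ 2)
      ≤ w * 1 * 1 := mul_le_mul (mul_le_mul_of_nonneg_left h1 hw) h2 (Real.exp_pos _).le
        (mul_nonneg hw zero_le_one)
    _ = w := by ring

theorem regB {k v t : ℕ} {r : ℕ → ℝ} {η κ : ℝ} (h : Cy k v t r η κ) (u b₀ : ℕ)
    (hb : b₀ + 2 ≤ k) (hu : (b₀ : ℝ) + 1 ≤ u * sg b₀) :
    ∃ (C : ℝ) (n₀ : ℕ), 0 < C ∧ ∀ n ≥ n₀, ∀ β : ℝ, 0 ≤ β → β ≤ 1 →
      ∫ ξ in {ξ : ℝ | ((2 : ℝ) ^ n) ^ (-(k : ℝ) + 1 / 2) ≤ |ξ| ∧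
          |ξ| ≤ ((2 : ℝ) ^ n) ^ ((b₀ : ℝ) - k)}, JC k r η v t u n β ξ ≤
        C * ((GC k r η v t u n).card : ℝ) * ((2 : ℝ) ^ n) ^ (-(k : ℝ) - 3 / 4) := by
  obtain ⟨C₁, hC₁, hW⟩ := weyl_mid k b₀ hb
  refine ⟨2 * (C₁ ^ u * 16 ^ (b₀ + 1)), 16 * k + 4, by positivity, ?_⟩
  intro n hn β hβ0 hβ1
  obtain ⟨P, hP⟩ : ∃ P : ℝ, P = (2 : ℝ) ^ n := ⟨_, rfl⟩
  obtain ⟨X, hX⟩ : ∃ X : ℝ, X = ((2 ^ (n - 4) : ℕ) : ℝ) := ⟨_, rfl⟩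
  have hXP : P = 16 * X := by
    rw [hP, hX]
    push_cast
    have e1 : n = 4 + (n - 4) := by omega
    conv_lhs => rw [e1, pow_add]
    norm_num
  have hX1 : 1 ≤ X := by
    rw [hX]
    exact_mod_cast Nat.one_le_two_pow
  have hP1 : 1 ≤ P := by linarith
  have hP0 : 0 < P := by linarith
  have hX0 : 0 < X := by linarith
  have hXleP : X ≤ P := by linarith
  have hP16 : (16 : ℝ) ^ k ≤ P ^ (1 / 4 : ℝ) := by
    have h1 : ((16 : ℝ) ^ k) ^ 4 ≤ P := by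
      rw [hP, show (16 : ℝ) = 2 ^ 4 by norm_num, ← pow_mul, ← pow_mul]
      exact pow_le_pow_right₀ one_le_two (by omega)
    have h2 : (16 : ℝ) ^ k = (((16 : ℝ) ^ k) ^ 4) ^ (1 / 4 : ℝ) := by
      rw [← Real.rpow_natCast (((16 : ℝ) ^ k)) 4, ← Real.rpow_mul (by positivity)]
      norm_num
    rw [h2]
    exact Real.rpow_le_rpow (by positivity) h1 (by norm_num)
  have hXk : X ^ k * 16 ^ k = P ^ k := by
    rw [← mul_pow, hXP, mul_comm]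
  rw [← hP]
  obtain ⟨M, hM⟩ : ∃ M : ℝ, M = P ^ ((b₀ : ℝ) - k) := ⟨_, rfl⟩
  have hM0 : 0 < M := by
    rw [hM]
    exact Real.rpow_pos_of_pos hP0 _
  obtain ⟨g, hg⟩ : ∃ g : ℝ, g = ((GC k r η v t u n).card : ℝ) := ⟨_, rfl⟩
  have hg0 : 0 ≤ g := by rw [hg]; exact Nat.cast_nonneg _
  have hpt : ∀ ξ ∈ {ξ : ℝ | P ^ (-(k : ℝ) + 1 / 2) ≤ |ξ| ∧ |ξ| ≤ P ^ ((b₀ : ℝ) - k)},
      ‖JC k r η v t u n β ξ‖ ≤ P ^ (-(1 / 4) : ℝ) * (g * (C₁ ^ u * (16 ^ (b₀ + 1) * P ^ (-((b₀ : ℝ) + 1))))) := by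
    rintro ξ ⟨h1, h2⟩
    have hw0 : 0 ≤ P ^ (-(1 / 4) : ℝ) := (Real.rpow_pos_of_pos hP0 _).le
    have hJ0 : 0 ≤ JC k r η v t u n β ξ := by
      unfold JC
      rw [← hP]
      exact Jn_nonneg _ _ _ _ _ _ hw0
    rw [Real.norm_eq_abs, abs_of_nonneg hJ0]
    have hJ1 : JC k r η v t u n β ξ ≤ P ^ (-(1 / 4) : ℝ) * ‖Es k β (GC k r η v t u n) ξ‖ := by
      unfold JC
      rw [← hP]
      exact RegB_Jn _ _ _ _ _ _ hw0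
    refine hJ1.trans (mul_le_mul_of_nonneg_left ?_ hw0)
    have hA : P ^ (-(k : ℝ) + 1 / 2) * P ^ k = P ^ (1 / 4 : ℝ) * P ^ (1 / 4 : ℝ) := by
      rw [← Real.rpow_natCast P k, ← Real.rpow_add hP0, ← Real.rpow_add hP0]
      congr 1
      ring
    have hB : P ^ ((b₀ : ℝ) - k) * P ^ k = P ^ b₀ := by
      rw [← Real.rpow_natCast P k, ← Real.rpow_add hP0, sub_add_cancel, Real.rpow_natCast]
    have hP4 : 0 < P ^ (1 / 4 : ℝ) := Real.rpow_pos_of_pos hP0 _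
    have h16 : (0 : ℝ) < 16 ^ k := by positivity
    have hc1 : X ^ (1 / 4 : ℝ) ≤ |ξ| * X ^ k := by
      have h3 : X ^ (1 / 4 : ℝ) ≤ P ^ (1 / 4 : ℝ) := Real.rpow_le_rpow hX0.le hXleP (by norm_num)
      refine h3.trans ?_
      refine le_of_mul_le_mul_right ?_ h16
      rw [mul_assoc, hXk]
      calc P ^ (1 / 4 : ℝ) * 16 ^ k ≤ P ^ (1 / 4 : ℝ) * P ^ (1 / 4 : ℝ) := mul_le_mul_of_nonneg_left hP16 hP4.le
        _ = P ^ (-(k : ℝ) + 1 / 2) * P ^ k := hA.symm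
        _ ≤ |ξ| * P ^ k := mul_le_mul_of_nonneg_right h1 (pow_pos hP0 _).le
    have hc2 : |ξ| * X ^ k ≤ X ^ ((b₀ : ℝ) + 5 / 4) := by
      have h3 : X ^ b₀ ≤ X ^ ((b₀ : ℝ) + 5 / 4) := by
        rw [← Real.rpow_natCast X b₀]
        exact Real.rpow_le_rpow_of_exponent_le hX1 (by linarith)
      refine le_trans ?_ h3
      refine le_of_mul_le_mul_right ?_ h16
      rw [mul_assoc, hXk]
      calc |ξ| * P ^ k ≤ P ^ ((b₀ : ℝ) - k) * P ^ k := mul_le_mul_of_nonneg_right h2 (pow_pos hP0 _).le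
        _ = P ^ b₀ := hB
        _ = X ^ b₀ * 16 ^ b₀ := by rw [hXP, mul_pow, mul_comm]
        _ ≤ X ^ b₀ * 16 ^ k := mul_le_mul_of_nonneg_left
            (pow_le_pow_right₀ (by norm_num) (by omega)) (pow_pos hX0 _).le
    have hV : ‖Pool.Agent.Lib.MP_570bef_ntS.VS k β (2 ^ (n - 4)) ξ‖ ≤ C₁ * X ^ (1 - sg b₀) := by
      have h3 := hW (2 ^ (n - 4)) ξ β Nat.one_le_two_pow hβ0 hβ1
      rw [← hX] at h3
      exact h3 hc1 hc2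
    have hn1 := GC_norm k r η v t u n β ξ
    have hcard := GC_card k r η v t u n
    rw [← hg, ← hX] at hcard
    refine hn1.trans ?_
    have hVu : ‖Pool.Agent.Lib.MP_570bef_ntS.VS k β (2 ^ (n - 4)) ξ‖ ^ u ≤
        X ^ u * (C₁ ^ u * (16 ^ (b₀ + 1) * P ^ (-((b₀ : ℝ) + 1)))) := by
      refine (pow_le_pow_left₀ (norm_nonneg _) hV u).trans ?_
      rw [mul_pow]
      have h3 : (X ^ (1 - sg b₀)) ^ u = X ^ u * X ^ (-((u : ℝ) * sg b₀)) := by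
        rw [← Real.rpow_natCast (X ^ (1 - sg b₀)) u, ← Real.rpow_mul hX0.le, ← Real.rpow_natCast X u,
          ← Real.rpow_add hX0]
        congr 1
        ring
      have h4 : X ^ (-((u : ℝ) * sg b₀)) ≤ X ^ (-((b₀ : ℝ) + 1)) :=
        Real.rpow_le_rpow_of_exponent_le hX1 (by linarith)
      have h5 : X ^ (-((b₀ : ℝ) + 1)) = 16 ^ (b₀ + 1) * P ^ (-((b₀ : ℝ) + 1)) := by
        rw [hXP, Real.mul_rpow (by norm_num) hX0.le, ← mul_assoc]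
        have h6 : (16 : ℝ) ^ (b₀ + 1) * 16 ^ (-((b₀ : ℝ) + 1)) = 1 := by
          rw [← Real.rpow_natCast, ← Real.rpow_add (by norm_num)]
          push_cast
          rw [add_neg_cancel, Real.rpow_zero]
        rw [h6, one_mul]
      rw [h3, ← h5]
      have h6 : 0 ≤ C₁ ^ u * X ^ u := by positivity
      have h7 := mul_le_mul_of_nonneg_left h4 h6
      linarith
    have hBH : ‖Es k β (BC k r η v ((2 : ℝ) ^ n)) ξ‖ * ‖Es k β (HH k r η t ((2 : ℝ) ^ n)) ξ‖ ^ 2 ≤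
        ((BC k r η v ((2 : ℝ) ^ n)).card : ℝ) * ((HH k r η t ((2 : ℝ) ^ n)).card : ℝ) ^ 2 :=
      mul_le_mul (Es_norm_le _ _ _ _) (pow_le_pow_left₀ (norm_nonneg _) (Es_norm_le _ _ _ _) 2)
        (by positivity) (Nat.cast_nonneg _)
    have hprod := mul_le_mul hVu hBH (by positivity) (by positivity)
    have hprod2 := mul_le_mul_of_nonneg_left hprod
      (Nat.cast_nonneg (Finset.Icc (2 ^ (n - 1)) (2 ^ (n + 1)) : Finset ℕ).card : (0 : ℝ) ≤ _)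
    refine hprod2.trans (le_of_eq ?_)
    rw [hcard]
    ring
  have hsub : {ξ : ℝ | P ^ (-(k : ℝ) + 1 / 2) ≤ |ξ| ∧ |ξ| ≤ P ^ ((b₀ : ℝ) - k)} ⊆ Set.Icc (-M) M := by
    rintro ξ ⟨-, h2⟩
    rw [← hM] at h2
    exact abs_le.1 h2
  have hfin : volume {ξ : ℝ | P ^ (-(k : ℝ) + 1 / 2) ≤ |ξ| ∧ |ξ| ≤ P ^ ((b₀ : ℝ) - k)} < ⊤ :=
    (measure_mono hsub).trans_lt (by rw [Real.volume_Icc]; exact ENNReal.ofReal_lt_top)
  have hint := norm_setIntegral_le_of_norm_le_const hfin hpt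
  have hvol : volume.real {ξ : ℝ | P ^ (-(k : ℝ) + 1 / 2) ≤ |ξ| ∧ |ξ| ≤ P ^ ((b₀ : ℝ) - k)} ≤ 2 * M := by
    have h3 := measureReal_mono hsub (by rw [Real.volume_Icc]; exact ENNReal.ofReal_ne_top) (μ := volume)
    refine h3.trans (le_of_eq ?_)
    rw [Real.volume_real_Icc_of_le (by linarith)]
    ring
  refine (Real.le_norm_self _).trans (hint.trans ?_)
  have hb0 : 0 ≤ P ^ (-(1 / 4) : ℝ) * (g * (C₁ ^ u * (16 ^ (b₀ + 1) * P ^ (-((b₀ : ℝ) + 1))))) := by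
    have h3 : 0 < P ^ (-(1 / 4) : ℝ) := Real.rpow_pos_of_pos hP0 _
    have h4 : 0 < P ^ (-((b₀ : ℝ) + 1)) := Real.rpow_pos_of_pos hP0 _
    positivity
  refine (mul_le_mul_of_nonneg_left hvol hb0).trans ?_
  have hexp : P ^ (-(1 / 4) : ℝ) * P ^ (-((b₀ : ℝ) + 1)) * M = P ^ (-(k : ℝ) - 5 / 4) := by
    rw [hM, ← Real.rpow_add hP0, ← Real.rpow_add hP0]
    congr 1
    ring
  have hexp2 : P ^ (-(k : ℝ) - 5 / 4) ≤ P ^ (-(k : ℝ) - 3 / 4) :=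
    Real.rpow_le_rpow_of_exponent_le hP1 (by linarith)
  have hK : 0 ≤ 2 * (C₁ ^ u * 16 ^ (b₀ + 1)) * g := by positivity
  rw [← hg]
  calc P ^ (-(1 / 4) : ℝ) * (g * (C₁ ^ u * (16 ^ (b₀ + 1) * P ^ (-((b₀ : ℝ) + 1))))) * (2 * M)
      = 2 * (C₁ ^ u * 16 ^ (b₀ + 1)) * g * (P ^ (-(1 / 4) : ℝ) * P ^ (-((b₀ : ℝ) + 1)) * M) := by ring
    _ ≤ 2 * (C₁ ^ u * 16 ^ (b₀ + 1)) * g * P ^ (-(k : ℝ) - 3 / 4) := by
      rw [hexp]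
      exact mul_le_mul_of_nonneg_left hexp2 hK

end Pool.Agent.Lib.MP_570bef_ntWE
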