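import Mathlib
import Pool.Agent.Lib.MP_570bef_ntWE.Defs
import Pool.Agent.Lib.MP_570bef_ntWD.EnA
import Pool.Agent.Lib.MP_570bef_ntWE.Bk3

/-!
# EnB: the energy of the block HH (easy+)

energy_one with Y = P^(b-k), 1/Y = P^(k-b), N = C |H| P^(-(min (b-1) (k (1-κ)))) (cnt_HC); and
b - k - min (b-1) (k(1-κ)) = -k + max 1 (b - k (1-κ)).
-/

set_option autoImplicit false

open Finset Real MeasureTheory
open Pool.Agent.Lib.MP_2a816b_nt (e norm_e conj_e e_add e_neg)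

namespace Pool.Agent.Lib.MP_570bef_ntWE

open Pool.Agent.Lib.MP_570bef_ntWD

theorem energy {k v t : ℕ} {r : ℕ → ℝ} {η κ : ℝ} (h : Cy k v t r η κ) :
    ∃ C P₀ : ℝ, 0 < C ∧ 1 ≤ P₀ ∧ ∀ P : ℝ, P₀ ≤ P → ∀ β : ℝ, 0 ≤ β → β ≤ 1 →
      ∀ b : ℝ, 1 ≤ b → b ≤ k + 1 →
      ∫ ξ in (-P ^ (b - k))..(P ^ (b - k)), ‖Es k β (HH k r η t P) ξ‖ ^ 2 ≤
        C * ((HH k r η t P).card : ℝ) ^ 2 * P ^ (-(k : ℝ) + max 1 (b - k * (1 - κ))) := by
  obtain ⟨C1, hC1, hE⟩ := energy_one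
  obtain ⟨C2, P₀, hC2, hP0, hcnt⟩ := cnt_HC h
  refine ⟨C1 * C2, P₀, mul_pos hC1 hC2, hP0, fun P hP β hβ0 hβ1 b hb1 hbk => ?_⟩
  have hPpos : 0 < P := lt_of_lt_of_le one_pos (hP0.trans hP)
  have hY : 0 < P ^ (b - k) := Real.rpow_pos_of_pos hPpos _
  have hinv : 1 / P ^ (b - (k : ℝ)) = P ^ ((k : ℝ) - b) := by
    rw [one_div, ← Real.rpow_neg hPpos.le, neg_sub]
  have h1 := hE k (HH k r η t P) β (P ^ (b - k))
    (C2 * ((HH k r η t P).card : ℝ) * P ^ (-(min (b - 1) (k * (1 - κ))))) hY (fun c => by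
      rw [hinv]
      exact hcnt P hP β hβ0 hβ1 b hb1 hbk c)
  refine h1.trans (le_of_eq ?_)
  have he : -(k : ℝ) + max 1 (b - k * (1 - κ)) = (b - k) + -(min (b - 1) (k * (1 - κ))) := by
    rcases le_total (b - 1) (k * (1 - κ)) with h2 | h2
    · rw [min_eq_left h2, max_eq_left (by linarith)]
      ring
    · rw [min_eq_right h2, max_eq_right (by linarith)]
      ring
  rw [he, Real.rpow_add hPpos]
  ring

end Pool.Agent.Lib.MP_570bef_ntWE
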