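import Mathlib
import Pool.Agent.Lib.MP_570bef_ntWE.Defs
import Pool.Agent.Lib.MP_570bef_ntWE.EsG
import Pool.Agent.Lib.MP_570bef_ntWE.EnB
import Pool.Agent.Lib.MP_570bef_ntWD.RwI

/-!
# RegC: one dyadic piece of the range P^(b₀-k) ≤ |ξ| ≤ P^(1/2) (medium)

P = 2^n large, ω = 2κ, b₀ ≤ b ≤ k + 1/2. On the set ‖Es BC ξ‖ ≤ 2 |BC| (|ξ| P^k)^(-ω) ≤ 2 |BC| P^(-(ω b)) (β is not in Bad, |ξ| P^k ≥ P^b).
The other factors but HH: trivial (GC_norm, GC_card, VS_le, Es_norm_le): JC ≤ w ‖Es GC ξ‖ ≤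
w (|GC|/|HH|²) 2 P^(-(ω b)) ‖Es HH ξ‖². The set is contained in |ξ| ≤ 2 P^(b-k) ≤ P^(b'-k), b' = b + log 2/log P ≤ k + 1 (so P^b' = 2 P^b):
energy gives ∫ ‖Es HH‖² ≤ C |HH|² P^(-k + max 1 (b' - k (1-κ))) ≤ 2 C |HH|² P^(-k + max 1 (b - k (1-κ))). So the integral is
≤ 4 C |GC| P^(-1/4 - k) P^(max 1 (b - k (1-κ)) - ω b), and 1 - ω b ≤ 1 - 2κ b₀ ≤ -3, b - k (1-κ) - 2κ b = b (1 - 2κ) - k (1-κ) ≤
(k + 1/2)(1 - 2κ) - k (1 - κ) ≤ 1/2 - k κ ≤ -3.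
-/

set_option autoImplicit false

open Finset Real MeasureTheory
open Pool.Agent.Lib.MP_2a816b_nt (e norm_e conj_e e_add e_neg)

namespace Pool.Agent.Lib.MP_570bef_ntWE

open Pool.Agent.Lib.MP_570bef_ntWD

private theorem RegC_max {k : ℕ} {κ b : ℝ} {b₀ : ℕ} (hκ : 0 < κ) (hκ8 : κ ≤ 1 / 8) (hkκ : 4 ≤ (k : ℝ) * κ)
    (hb : 4 ≤ (b₀ : ℝ) * (2 * κ)) (h1 : (b₀ : ℝ) ≤ b) (h2 : b ≤ k + 1 / 2) :
    max 1 (b - k * (1 - κ)) - 2 * κ * b ≤ -3 := by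
  rcases le_total (b - k * (1 - κ)) 1 with h3 | h3
  · rw [max_eq_left h3]
    nlinarith
  · rw [max_eq_right h3]
    nlinarith

private theorem RegC_pt {k v t : ℕ} {r : ℕ → ℝ} {η : ℝ} (κ : ℝ) (hκ : 0 < κ) (u b₀ n : ℕ) {β : ℝ} (hβ0 : 0 ≤ β)
    (hβ1 : β ≤ 1) (hB : β ∉ BadC k r η v (2 * κ) b₀ ((2 : ℝ) ^ n)) {b : ℝ} (hb : (b₀ : ℝ) ≤ b) {ξ : ℝ}
    (h1 : ((2 : ℝ) ^ n) ^ (b - k) ≤ |ξ|) (h2 : |ξ| ≤ ((2 : ℝ) ^ n) ^ (1 / 2 : ℝ)) :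
    JC k r η v t u n β ξ ≤ ((2 : ℝ) ^ n) ^ (-(1 / 4) : ℝ) *
      (((Finset.Icc (2 ^ (n - 1)) (2 ^ (n + 1)) : Finset ℕ).card : ℝ) * (((2 ^ (n - 4) : ℕ) : ℝ) ^ u *
        (2 * ((BC k r η v ((2 : ℝ) ^ n)).card : ℝ) * ((2 : ℝ) ^ n) ^ (-(2 * κ * b))))) *
        ‖Es k β (HH k r η t ((2 : ℝ) ^ n)) ξ‖ ^ 2 := by
  obtain ⟨P, hP⟩ : ∃ P : ℝ, P = (2 : ℝ) ^ n := ⟨_, rfl⟩
  have hP1 : 1 ≤ P := by
    rw [hP]
    exact one_le_pow₀ (by norm_num)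
  have hP0 : 0 < P := by linarith
  have hG := GC_norm k r η v t u n β ξ
  have hV := Pool.Agent.Lib.MP_570bef_ntWE.VS_le k β (2 ^ (n - 4)) ξ
  rw [← hP] at h1 h2 hB hG ⊢
  have hBB : ‖Es k β (BC k r η v P) ξ‖ ≤ 2 * ((BC k r η v P).card : ℝ) * P ^ (-(2 * κ * b)) := by
    have h3 : ‖Es k β (BC k r η v P) ξ‖ ≤ 2 * ((BC k r η v P).card : ℝ) * (|ξ| * P ^ (k : ℝ)) ^ (-(2 * κ)) := by
      by_contra hc
      rw [not_le] at hc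
      refine hB ⟨hβ0, hβ1, ξ, ?_, h2, hc⟩
      refine le_trans ?_ h1
      exact Real.rpow_le_rpow_of_exponent_le hP1 (by linarith)
    refine h3.trans (mul_le_mul_of_nonneg_left ?_ (by positivity))
    have h4 : P ^ b ≤ |ξ| * P ^ (k : ℝ) := by
      have h5 : P ^ b = P ^ (b - k) * P ^ (k : ℝ) := by
        rw [← Real.rpow_add hP0, sub_add_cancel]
      rw [h5]
      exact mul_le_mul_of_nonneg_right h1 (by positivity)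
    have h6 : P ^ (-(2 * κ * b)) = (P ^ b) ^ (-(2 * κ)) := by
      rw [← Real.rpow_mul hP0.le]
      congr 1
      ring
    rw [h6]
    exact Real.rpow_le_rpow_of_nonpos (Real.rpow_pos_of_pos hP0 _) h4 (by linarith)
  unfold JC Jn
  rw [← hP]
  have hw : 0 < P ^ (-(1 / 4) : ℝ) := Real.rpow_pos_of_pos hP0 _
  have hmin : min 1 (π * (P ^ ((k : ℝ) - 1 / 4) * ξ) ^ 2) ≤ 1 := min_le_left _ _
  have hmin0 : 0 ≤ min 1 (π * (P ^ ((k : ℝ) - 1 / 4) * ξ) ^ 2) := le_min zero_le_one (by positivity)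
  have hexp : Real.exp (-π * (P ^ (-(1 / 4) : ℝ) * ξ) ^ 2) ≤ 1 := by
    rw [Real.exp_le_one_iff]
    have : 0 ≤ π * (P ^ (-(1 / 4) : ℝ) * ξ) ^ 2 := by positivity
    linarith
  have hexp0 := (Real.exp_pos (-π * (P ^ (-(1 / 4) : ℝ) * ξ) ^ 2)).le
  have e1 : P ^ (-(1 / 4) : ℝ) * min 1 (π * (P ^ ((k : ℝ) - 1 / 4) * ξ) ^ 2) *
      Real.exp (-π * (P ^ (-(1 / 4) : ℝ) * ξ) ^ 2) ≤ P ^ (-(1 / 4) : ℝ) := by
    calc P ^ (-(1 / 4) : ℝ) * min 1 (π * (P ^ ((k : ℝ) - 1 / 4) * ξ) ^ 2) *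
        Real.exp (-π * (P ^ (-(1 / 4) : ℝ) * ξ) ^ 2) ≤ P ^ (-(1 / 4) : ℝ) * 1 * 1 := by
          apply mul_le_mul _ hexp hexp0 (by positivity)
          exact mul_le_mul_of_nonneg_left hmin hw.le
      _ = P ^ (-(1 / 4) : ℝ) := by ring
  have e2 : ‖Es k β (GC k r η v t u n) ξ‖ ≤
      ((Finset.Icc (2 ^ (n - 1)) (2 ^ (n + 1)) : Finset ℕ).card : ℝ) * (((2 ^ (n - 4) : ℕ) : ℝ) ^ u *
        (2 * ((BC k r η v P).card : ℝ) * P ^ (-(2 * κ * b)))) * ‖Es k β (HH k r η t P) ξ‖ ^ 2 := by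
    refine hG.trans ?_
    have h3 : ‖Pool.Agent.Lib.MP_570bef_ntS.VS k β (2 ^ (n - 4)) ξ‖ ^ u ≤ ((2 ^ (n - 4) : ℕ) : ℝ) ^ u :=
      pow_le_pow_left₀ (norm_nonneg _) hV u
    calc ((Finset.Icc (2 ^ (n - 1)) (2 ^ (n + 1)) : Finset ℕ).card : ℝ) *
        (‖Pool.Agent.Lib.MP_570bef_ntS.VS k β (2 ^ (n - 4)) ξ‖ ^ u * (‖Es k β (BC k r η v P) ξ‖ * ‖Es k β (HH k r η t P) ξ‖ ^ 2))
        ≤ ((Finset.Icc (2 ^ (n - 1)) (2 ^ (n + 1)) : Finset ℕ).card : ℝ) *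
        (((2 ^ (n - 4) : ℕ) : ℝ) ^ u * ((2 * ((BC k r η v P).card : ℝ) * P ^ (-(2 * κ * b))) *
          ‖Es k β (HH k r η t P) ξ‖ ^ 2)) := by
          refine mul_le_mul_of_nonneg_left ?_ (Nat.cast_nonneg _)
          refine mul_le_mul h3 ?_ (by positivity) (by positivity)
          exact mul_le_mul_of_nonneg_right hBB (by positivity)
      _ = _ := by ring
  calc P ^ (-(1 / 4) : ℝ) * min 1 (π * (P ^ ((k : ℝ) - 1 / 4) * ξ) ^ 2) *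
      Real.exp (-π * (P ^ (-(1 / 4) : ℝ) * ξ) ^ 2) * ‖Es k β (GC k r η v t u n) ξ‖
      ≤ P ^ (-(1 / 4) : ℝ) * (((Finset.Icc (2 ^ (n - 1)) (2 ^ (n + 1)) : Finset ℕ).card : ℝ) *
        (((2 ^ (n - 4) : ℕ) : ℝ) ^ u * (2 * ((BC k r η v P).card : ℝ) * P ^ (-(2 * κ * b)))) *
          ‖Es k β (HH k r η t P) ξ‖ ^ 2) := mul_le_mul e1 e2 (norm_nonneg _) hw.le
    _ = _ := by ring

theorem regC {k v t : ℕ} {r : ℕ → ℝ} {η κ : ℝ} (h : Cy k v t r η κ) (u b₀ : ℕ)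
    (hb1 : 1 ≤ b₀) (hb : 4 ≤ (b₀ : ℝ) * (2 * κ)) :
    ∃ (C : ℝ) (n₀ : ℕ), 0 < C ∧ ∀ n ≥ n₀, ∀ β : ℝ, 0 ≤ β → β ≤ 1 →
      β ∉ BadC k r η v (2 * κ) b₀ ((2 : ℝ) ^ n) → ∀ b : ℝ, (b₀ : ℝ) ≤ b → b ≤ k + 1 / 2 →
      ∫ ξ in {ξ : ℝ | ((2 : ℝ) ^ n) ^ (b - k) ≤ |ξ| ∧ |ξ| ≤ 2 * ((2 : ℝ) ^ n) ^ (b - k) ∧
          |ξ| ≤ ((2 : ℝ) ^ n) ^ (1 / 2 : ℝ)}, JC k r η v t u n β ξ ≤
        C * ((GC k r η v t u n).card : ℝ) * ((2 : ℝ) ^ n) ^ (-(k : ℝ) - 3) := by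
  obtain ⟨C, P₀, hC, hP₀, hE⟩ := energy h
  refine ⟨4 * C, max 2 ⌈P₀⌉₊, by positivity, fun n hn β hβ0 hβ1 hB b hb2 hbk => ?_⟩
  have hn2 : 2 ≤ n := (le_max_left _ _).trans hn
  have hnR : (2 : ℝ) ≤ n := by exact_mod_cast hn2
  obtain ⟨P, hP⟩ : ∃ P : ℝ, P = (2 : ℝ) ^ n := ⟨_, rfl⟩
  have hPP : P₀ ≤ P := by
    have h1 : P₀ ≤ (n : ℝ) := (Nat.le_ceil _).trans (by exact_mod_cast (le_max_right _ _).trans hn)
    have h2 : (n : ℝ) ≤ (2 : ℝ) ^ n := by exact_mod_cast (Nat.lt_two_pow_self (n := n)).le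
    rw [hP]
    exact h1.trans h2
  have hP1 : 1 ≤ P := hP₀.trans hPP
  have hP0 : 0 < P := by linarith
  have hroot : P ^ ((n : ℝ)⁻¹) = 2 := by
    rw [hP]
    exact Real.pow_rpow_inv_natCast (by norm_num) (by omega)
  have hb1' : (1 : ℝ) ≤ b₀ := by exact_mod_cast hb1
  have hninv : 0 < (n : ℝ)⁻¹ := by positivity
  have hninv2 : (n : ℝ)⁻¹ ≤ 1 / 2 := by
    rw [inv_eq_one_div]
    exact one_div_le_one_div_of_le (by norm_num) hnR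
  have hY : P ^ (b + (n : ℝ)⁻¹ - k) = 2 * P ^ (b - k) := by
    rw [show b + (n : ℝ)⁻¹ - k = (n : ℝ)⁻¹ + (b - k) by ring, Real.rpow_add hP0, hroot]
  have hEn := hE P hPP β hβ0 hβ1 (b + (n : ℝ)⁻¹) (by linarith) (by linarith)
  rw [hY] at hEn
  have hY0 : 0 < 2 * P ^ (b - k) := by
    have := Real.rpow_pos_of_pos hP0 (b - k)
    positivity
  -- the constant
  obtain ⟨M, hM⟩ : ∃ M : ℝ, M = P ^ (-(1 / 4) : ℝ) *
      (((Finset.Icc (2 ^ (n - 1)) (2 ^ (n + 1)) : Finset ℕ).card : ℝ) * (((2 ^ (n - 4) : ℕ) : ℝ) ^ u *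
        (2 * ((BC k r η v P).card : ℝ) * P ^ (-(2 * κ * b))))) := ⟨_, rfl⟩
  have hM0 : 0 ≤ M := by
    rw [hM]
    positivity
  have hcont : Continuous fun ξ : ℝ => M * ‖Es k β (HH k r η t P) ξ‖ ^ 2 :=
    continuous_const.mul ((Es_cont k β _).norm.pow 2)
  have hnn : ∀ ξ : ℝ, 0 ≤ M * ‖Es k β (HH k r η t P) ξ‖ ^ 2 := fun ξ => by positivity
  obtain ⟨S, hS⟩ : ∃ S : Set ℝ, S = {ξ : ℝ | P ^ (b - k) ≤ |ξ| ∧ |ξ| ≤ 2 * P ^ (b - k) ∧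
    |ξ| ≤ P ^ (1 / 2 : ℝ)} := ⟨_, rfl⟩
  have hSm : MeasurableSet S := by
    rw [hS]
    refine (isClosed_le continuous_const continuous_abs).measurableSet.inter ?_
    exact (isClosed_le continuous_abs continuous_const).measurableSet.inter
      (isClosed_le continuous_abs continuous_const).measurableSet
  have hSI : S ⊆ Set.Icc (-(2 * P ^ (b - k))) (2 * P ^ (b - k)) := by
    intro ξ hξ
    rw [hS] at hξ
    exact ⟨neg_le_of_abs_le hξ.2.1, le_of_abs_le hξ.2.1⟩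
  have hIcc : IntegrableOn (fun ξ : ℝ => M * ‖Es k β (HH k r η t P) ξ‖ ^ 2)
      (Set.Icc (-(2 * P ^ (b - k))) (2 * P ^ (b - k))) := hcont.continuousOn.integrableOn_Icc
  have h1 : ∫ ξ in S, JC k r η v t u n β ξ ≤ ∫ ξ in S, M * ‖Es k β (HH k r η t P) ξ‖ ^ 2 := by
    refine integral_mono_of_nonneg ?_ (hIcc.mono_set hSI) ?_
    · refine Filter.Eventually.of_forall fun ξ => ?_
      exact Jn_nonneg _ _ _ _ _ _ (by positivity)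
    · refine (ae_restrict_iff' hSm).2 (Filter.Eventually.of_forall fun ξ hξ => ?_)
      rw [hS] at hξ
      have h2 := RegC_pt (k := k) (v := v) (t := t) (r := r) (η := η) κ h.hκ u b₀ n hβ0 hβ1 hB hb2
        (ξ := ξ) (by rw [← hP]; exact hξ.1) (by rw [← hP]; exact hξ.2.2)
      rw [← hP, ← hM] at h2
      exact h2
  have h2 : ∫ ξ in S, M * ‖Es k β (HH k r η t P) ξ‖ ^ 2 ≤
      ∫ ξ in Set.Icc (-(2 * P ^ (b - k))) (2 * P ^ (b - k)), M * ‖Es k β (HH k r η t P) ξ‖ ^ 2 :=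
    setIntegral_mono_set hIcc (Filter.Eventually.of_forall hnn) hSI.eventuallyLE
  have h3 : ∫ ξ in Set.Icc (-(2 * P ^ (b - k))) (2 * P ^ (b - k)), M * ‖Es k β (HH k r η t P) ξ‖ ^ 2 =
      M * ∫ ξ in (-(2 * P ^ (b - k)))..(2 * P ^ (b - k)), ‖Es k β (HH k r η t P) ξ‖ ^ 2 := by
    rw [integral_Icc_eq_integral_Ioc, intervalIntegral.integral_of_le (by linarith), integral_const_mul]
  have h4 : P ^ (-(k : ℝ) + max 1 (b + (n : ℝ)⁻¹ - k * (1 - κ))) ≤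
      2 * P ^ (-(k : ℝ) + max 1 (b - k * (1 - κ))) := by
    have h5 : -(k : ℝ) + max 1 (b + (n : ℝ)⁻¹ - k * (1 - κ)) ≤
        (n : ℝ)⁻¹ + (-(k : ℝ) + max 1 (b - k * (1 - κ))) := by
      have h6 : max 1 (b + (n : ℝ)⁻¹ - k * (1 - κ)) ≤ (n : ℝ)⁻¹ + max 1 (b - k * (1 - κ)) := by
        refine max_le ?_ ?_
        · have := le_max_left 1 (b - k * (1 - κ))
          linarith
        · have := le_max_right 1 (b - k * (1 - κ))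
          linarith
      linarith
    refine (Real.rpow_le_rpow_of_exponent_le hP1 h5).trans (le_of_eq ?_)
    rw [Real.rpow_add hP0, hroot]
  have h7 : P ^ (-(1 / 4) : ℝ) * P ^ (-(2 * κ * b)) * P ^ (-(k : ℝ) + max 1 (b - k * (1 - κ))) ≤ P ^ (-(k : ℝ) - 3) := by
    rw [← Real.rpow_add hP0, ← Real.rpow_add hP0]
    refine Real.rpow_le_rpow_of_exponent_le hP1 ?_
    have := RegC_max h.hκ (h.hκ16.trans (by norm_num)) h.hkκ hb hb2 hbk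
    linarith
  have hcard := GC_card k r η v t u n
  rw [← hP] at hcard ⊢
  rw [← hS]
  refine h1.trans (h2.trans ?_)
  rw [h3]
  have h8 : M * ∫ ξ in (-(2 * P ^ (b - k)))..(2 * P ^ (b - k)), ‖Es k β (HH k r η t P) ξ‖ ^ 2 ≤
      M * (C * ((HH k r η t P).card : ℝ) ^ 2 * (2 * P ^ (-(k : ℝ) + max 1 (b - k * (1 - κ))))) := by
    refine mul_le_mul_of_nonneg_left (hEn.trans ?_) hM0
    exact mul_le_mul_of_nonneg_left h4 (by positivity)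
  refine h8.trans ?_
  have h9 : M * (C * ((HH k r η t P).card : ℝ) ^ 2 * (2 * P ^ (-(k : ℝ) + max 1 (b - k * (1 - κ))))) =
      4 * C * ((GC k r η v t u n).card : ℝ) *
        (P ^ (-(1 / 4) : ℝ) * P ^ (-(2 * κ * b)) * P ^ (-(k : ℝ) + max 1 (b - k * (1 - κ)))) := by
    rw [hM, hcard]
    ring
  rw [h9]
  exact mul_le_mul_of_nonneg_left h7 (by positivity)

end Pool.Agent.Lib.MP_570bef_ntWE
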