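import Mathlib
import Pool.Agent.Lib.MP_570bef_ntWE.Defs
import Pool.Agent.Lib.MP_570bef_ntWE.RegC

/-!
# RegD: the range P^(b₀-k) ≤ |ξ| ≤ P^(1/2) (medium-)

P = 2^n, n ≥ 1. For i ∈ ℕ let b_i = b₀ + i/n, so 2^i P^(b₀-k) = P^(b_i - k). The set is covered by the sets of regC for the b_i with
b_i ≤ k + 1/2, i ≤ n (k + 1): for ξ in it choose i with 2^i P^(b₀-k) ≤ |ξ| < 2^(i+1) P^(b₀-k); then P^(b_i - k) ≤ P^(1/2). JC ≥ 0 and
integrable (Jn_nonneg, Jn_int): the integral over the finite union is ≤ the sum (setIntegral_mono_set, integral_finset_biUnion_le or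
induction), ≤ (n (k+1) + 1) C |GC| P^(-k-3) ≤ C' |GC| P^(-k-2) ≤ C' |GC| P^(-k-3/4), as n ≤ 2^n = P.
-/

set_option autoImplicit false

open Finset Real MeasureTheory
open Pool.Agent.Lib.MP_2a816b_nt (e norm_e conj_e e_add e_neg)

namespace Pool.Agent.Lib.MP_570bef_ntWE

open Pool.Agent.Lib.MP_570bef_ntWD

private theorem RegD_cover {f : ℝ → ℝ} (hf : Integrable f) (h0 : ∀ x, 0 ≤ f x) {S : Set ℝ}
    (hS : MeasurableSet S) (m : ℕ) (T : ℕ → Set ℝ) (hT : ∀ i, MeasurableSet (T i))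
    (hc : ∀ x ∈ S, ∃ i < m, x ∈ T i) : ∫ x in S, f x ≤ ∑ i ∈ range m, ∫ x in T i, f x := by
  have h1 : ∑ i ∈ range m, ∫ x in T i, f x = ∫ x, ∑ i ∈ range m, (T i).indicator f x := by
    rw [integral_finsetSum _ fun i _ => hf.indicator (hT i)]
    exact Finset.sum_congr rfl fun i _ => (integral_indicator (hT i)).symm
  rw [h1, ← integral_indicator hS]
  refine integral_mono (hf.indicator hS) (integrable_finsetSum _ fun i _ => hf.indicator (hT i)) fun x => ?_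
  have h2 : ∀ i ∈ range m, 0 ≤ (T i).indicator f x := fun i _ => Set.indicator_nonneg (fun y _ => h0 y) x
  by_cases hx : x ∈ S
  · obtain ⟨i, hi, hxi⟩ := hc x hx
    rw [Set.indicator_of_mem hx]
    have h3 := Finset.single_le_sum h2 (Finset.mem_range.2 hi)
    rwa [Set.indicator_of_mem hxi] at h3
  · rw [Set.indicator_of_notMem hx]
    exact Finset.sum_nonneg h2

theorem regD {k v t : ℕ} {r : ℕ → ℝ} {η κ : ℝ} (h : Cy k v t r η κ) (u b₀ : ℕ)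
    (hb1 : 1 ≤ b₀) (hb : 4 ≤ (b₀ : ℝ) * (2 * κ)) :
    ∃ (C : ℝ) (n₀ : ℕ), 0 < C ∧ ∀ n ≥ n₀, ∀ β : ℝ, 0 ≤ β → β ≤ 1 →
      β ∉ BadC k r η v (2 * κ) b₀ ((2 : ℝ) ^ n) →
      ∫ ξ in {ξ : ℝ | ((2 : ℝ) ^ n) ^ ((b₀ : ℝ) - k) ≤ |ξ| ∧ |ξ| ≤ ((2 : ℝ) ^ n) ^ (1 / 2 : ℝ)},
        JC k r η v t u n β ξ ≤
        C * ((GC k r η v t u n).card : ℝ) * ((2 : ℝ) ^ n) ^ (-(k : ℝ) - 3 / 4) := by
  classical
  obtain ⟨C, n₁, hC, hreg⟩ := regC h u b₀ hb1 hb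
  refine ⟨((k : ℝ) + 2) * C, max n₁ 1, by positivity, fun n hn β hβ hβ1 hB => ?_⟩
  have hn1 : n₁ ≤ n := (le_max_left _ _).trans hn
  have hn0 : 1 ≤ n := (le_max_right _ _).trans hn
  have hnR : (0 : ℝ) < n := by exact_mod_cast hn0
  have hreg' := hreg n hn1 β hβ hβ1 hB
  obtain ⟨G, hG⟩ : ∃ G : ℝ, G = ((GC k r η v t u n).card : ℝ) := ⟨_, rfl⟩
  have hG0 : 0 ≤ G := by
    rw [hG]
    exact Nat.cast_nonneg _
  rw [← hG] at hreg' ⊢
  have hf : Integrable (JC k r η v t u n β) :=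
    Jn_int k β _ _ _ (Real.rpow_pos_of_pos (by positivity) _)
  have hf0 : ∀ ξ, 0 ≤ JC k r η v t u n β ξ := fun ξ =>
    Jn_nonneg k β _ _ _ ξ (Real.rpow_nonneg (by positivity) _)
  have hpw : ∀ i : ℕ, ((2 : ℝ) ^ n) ^ ((i : ℝ) / n) = 2 ^ i := by
    intro i
    rw [← Real.rpow_natCast 2 n, ← Real.rpow_mul (by norm_num), mul_div_cancel₀ _ hnR.ne', Real.rpow_natCast]
  have hnP : (n : ℝ) ≤ (2 : ℝ) ^ n := by
    exact_mod_cast (Nat.lt_two_pow_self (n := n)).le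
  have hP1 : (1 : ℝ) < (2 : ℝ) ^ n := one_lt_pow₀ (by norm_num) (by omega)
  obtain ⟨P, hP⟩ : ∃ P : ℝ, P = (2 : ℝ) ^ n := ⟨_, rfl⟩
  rw [← hP] at hreg' hpw hnP hP1 ⊢
  have hP0 : 0 < P := by linarith
  obtain ⟨bb, hbb⟩ : ∃ bb : ℕ → ℝ, ∀ i, bb i = (b₀ : ℝ) + (i : ℝ) / n := ⟨_, fun _ => rfl⟩
  have hbpw : ∀ i, P ^ (bb i - k) = P ^ ((b₀ : ℝ) - k) * 2 ^ i := by
    intro i
    rw [← hpw i, ← Real.rpow_add hP0, hbb]
    congr 1
    ring
  obtain ⟨T, hT⟩ : ∃ T : ℕ → Set ℝ, ∀ i, T i = if bb i ≤ k + 1 / 2 then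
      {ξ : ℝ | P ^ (bb i - k) ≤ |ξ| ∧ |ξ| ≤ 2 * P ^ (bb i - k) ∧ |ξ| ≤ P ^ (1 / 2 : ℝ)} else ∅ := ⟨_, fun _ => rfl⟩
  have hTm : ∀ i, MeasurableSet (T i) := by
    intro i
    rw [hT]
    split_ifs
    · exact (measurableSet_le measurable_const continuous_abs.measurable).inter
        ((measurableSet_le continuous_abs.measurable measurable_const).inter
          (measurableSet_le continuous_abs.measurable measurable_const))
    · exact MeasurableSet.empty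
  have hSm : MeasurableSet {ξ : ℝ | P ^ ((b₀ : ℝ) - k) ≤ |ξ| ∧ |ξ| ≤ P ^ (1 / 2 : ℝ)} :=
    (measurableSet_le measurable_const continuous_abs.measurable).inter
      (measurableSet_le continuous_abs.measurable measurable_const)
  have hcov : ∀ ξ ∈ {ξ : ℝ | P ^ ((b₀ : ℝ) - k) ≤ |ξ| ∧ |ξ| ≤ P ^ (1 / 2 : ℝ)}, ∃ i < n * (k + 1) + 1, ξ ∈ T i := by
    rintro ξ ⟨h1, h2⟩
    have hpos : 0 < P ^ ((b₀ : ℝ) - k) := Real.rpow_pos_of_pos hP0 _
    obtain ⟨i, hi1, hi2⟩ := exists_nat_pow_near (x := |ξ| / P ^ ((b₀ : ℝ) - k)) (y := (2 : ℝ))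
      ((one_le_div hpos).2 h1) (by norm_num)
    rw [le_div_iff₀ hpos, mul_comm, ← hbpw] at hi1
    rw [div_lt_iff₀ hpos, pow_succ] at hi2
    have hbi : bb i - k ≤ 1 / 2 := (Real.rpow_le_rpow_left_iff hP1).1 (hi1.trans h2)
    refine ⟨i, ?_, ?_⟩
    · have h3 : (i : ℝ) / n ≤ k + 1 := by
        rw [hbb] at hbi
        have : (0 : ℝ) ≤ b₀ := Nat.cast_nonneg _
        linarith
      rw [div_le_iff₀ hnR] at h3
      have h4 : i ≤ (k + 1) * n := by exact_mod_cast h3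
      rw [mul_comm] at h4
      omega
    · rw [hT, if_pos (by linarith)]
      refine ⟨hi1, ?_, h2⟩
      rw [hbpw]
      linarith
  refine (RegD_cover hf hf0 hSm _ T hTm hcov).trans ?_
  have hone : ∀ i ∈ range (n * (k + 1) + 1), ∫ ξ in T i, JC k r η v t u n β ξ ≤ C * G * P ^ (-(k : ℝ) - 3) := by
    intro i _
    rw [hT]
    split_ifs with hi
    · refine hreg' (bb i) ?_ hi
      rw [hbb]
      have : (0 : ℝ) ≤ (i : ℝ) / n := by positivity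
      linarith
    · rw [Measure.restrict_empty, integral_zero_measure]
      positivity
  refine (Finset.sum_le_sum hone).trans ?_
  rw [Finset.sum_const, Finset.card_range, nsmul_eq_mul]
  have h5 : ((n * (k + 1) + 1 : ℕ) : ℝ) ≤ (k + 2) * P := by
    push_cast
    have h6 : (1 : ℝ) ≤ n := by exact_mod_cast hn0
    have h7 : (n : ℝ) * (k + 2) ≤ P * (k + 2) := mul_le_mul_of_nonneg_right hnP (by positivity)
    nlinarith
  have h8 : P * P ^ (-(k : ℝ) - 3) ≤ P ^ (-(k : ℝ) - 3 / 4) := by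
    have h9 : P * P ^ (-(k : ℝ) - 3) = P ^ (1 + (-(k : ℝ) - 3)) := by
      rw [Real.rpow_add hP0, Real.rpow_one]
    rw [h9]
    exact Real.rpow_le_rpow_of_exponent_le hP1.le (by linarith)
  calc ((n * (k + 1) + 1 : ℕ) : ℝ) * (C * G * P ^ (-(k : ℝ) - 3))
      ≤ ((k + 2) * P) * (C * G * P ^ (-(k : ℝ) - 3)) := mul_le_mul_of_nonneg_right h5 (by positivity)
    _ = ((k : ℝ) + 2) * C * G * (P * P ^ (-(k : ℝ) - 3)) := by ring
    _ ≤ ((k : ℝ) + 2) * C * G * P ^ (-(k : ℝ) - 3 / 4) := mul_le_mul_of_nonneg_left h8 (by positivity)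

end Pool.Agent.Lib.MP_570bef_ntWE
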