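import Mathlib
import Pool.Agent.Lib.MP_570bef_ntWE.Defs
import Pool.Agent.Lib.MP_570bef_ntWE.EsG
import Pool.Agent.Lib.MP_570bef_ntWD.RwI

/-!
# RegE: the tail |ξ| ≥ P^(1/2) (medium-)

JC ≤ w exp(-π (w ξ)²) |GC|, w = P^(-1/4). For |ξ| ≥ P^(1/2): (w ξ)² ≥ P^(1/2), so exp(-π (wξ)²) ≤ exp(-(π/2) P^(1/2)) exp(-(π/2) (w ξ)²), and
∫ w exp(-(π/2) (w ξ)²) dξ = sqrt 2 (integral_gaussian). So the integral is ≤ sqrt 2 exp(-(π/2) P^(1/2)) |GC| ≤ |GC| P^(-k-3/4) for large P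
(exp(-x) x^m → 0; P = 2^n).
-/

set_option autoImplicit false

open Finset Real MeasureTheory
open Pool.Agent.Lib.MP_2a816b_nt (e norm_e conj_e e_add e_neg)

namespace Pool.Agent.Lib.MP_570bef_ntWE

open Pool.Agent.Lib.MP_570bef_ntWD

private theorem RegE_ev (k : ℕ) : ∃ n₀ : ℕ, ∀ n ≥ n₀,
    Real.exp (-(π / 2) * ((2 : ℝ) ^ n) ^ (1 / 2 : ℝ)) ≤ ((2 : ℝ) ^ n) ^ (-(k : ℝ) - 3 / 4) := by
  have h := tendsto_rpow_mul_exp_neg_mul_atTop_nhds_zero (2 * (k : ℝ) + 3 / 2) (π / 2)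
    (by positivity)
  have h1 := h.eventually_le_const (by norm_num : (0 : ℝ) < 1)
  have h2 : Filter.Tendsto (fun n : ℕ => ((2 : ℝ) ^ n) ^ (1 / 2 : ℝ)) Filter.atTop Filter.atTop :=
    (tendsto_rpow_atTop (by norm_num : (0 : ℝ) < 1 / 2)).comp
      (tendsto_pow_atTop_atTop_of_one_lt one_lt_two)
  obtain ⟨n₀, hn₀⟩ := Filter.eventually_atTop.1 (h2.eventually h1)
  refine ⟨n₀, fun n hn => ?_⟩
  have h3 : (((2 : ℝ) ^ n) ^ (1 / 2 : ℝ)) ^ (2 * (k : ℝ) + 3 / 2) *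
      Real.exp (-(π / 2) * ((2 : ℝ) ^ n) ^ (1 / 2 : ℝ)) ≤ 1 := hn₀ n hn
  have hP : (0 : ℝ) < (2 : ℝ) ^ n := by positivity
  have h4 : (((2 : ℝ) ^ n) ^ (1 / 2 : ℝ)) ^ (2 * (k : ℝ) + 3 / 2) =
      ((2 : ℝ) ^ n) ^ ((k : ℝ) + 3 / 4) := by
    rw [← Real.rpow_mul hP.le]
    ring_nf
  rw [h4] at h3
  have h5 : ((2 : ℝ) ^ n) ^ (-(k : ℝ) - 3 / 4) = (((2 : ℝ) ^ n) ^ ((k : ℝ) + 3 / 4))⁻¹ := by
    rw [← Real.rpow_neg hP.le]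
    ring_nf
  rw [h5, ← one_div, le_div_iff₀ (Real.rpow_pos_of_pos hP _), mul_comm]
  exact h3

private theorem RegE_pt (k : ℕ) (r : ℕ → ℝ) (η : ℝ) (v t u n : ℕ) (β ξ : ℝ)
    (hξ : ((2 : ℝ) ^ n) ^ (1 / 2 : ℝ) ≤ |ξ|) : JC k r η v t u n β ξ ≤
      ((2 : ℝ) ^ n) ^ (-(1 / 4) : ℝ) * Real.exp (-(π / 2) * ((2 : ℝ) ^ n) ^ (1 / 2 : ℝ)) *
        ((GC k r η v t u n).card : ℝ) *
        Real.exp (-(π / 2 * (((2 : ℝ) ^ n) ^ (-(1 / 4) : ℝ)) ^ 2) * ξ ^ 2) := by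
  have hP : (0 : ℝ) < (2 : ℝ) ^ n := by positivity
  obtain ⟨w, hw⟩ : ∃ w, w = ((2 : ℝ) ^ n) ^ (-(1 / 4) : ℝ) := ⟨_, rfl⟩
  have hw0 : 0 < w := by
    rw [hw]
    exact Real.rpow_pos_of_pos hP _
  have hJ : JC k r η v t u n β ξ = w * min 1 (π * (((2 : ℝ) ^ n) ^ ((k : ℝ) - 1 / 4) * ξ) ^ 2) *
      Real.exp (-π * (w * ξ) ^ 2) * ‖Es k β (GC k r η v t u n) ξ‖ := by
    rw [hw]
    rfl
  rw [hJ, ← hw]
  have hE := Es_norm_le k β (GC k r η v t u n) ξ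
  have hmin : w * min 1 (π * (((2 : ℝ) ^ n) ^ ((k : ℝ) - 1 / 4) * ξ) ^ 2) ≤ w := by
    calc w * min 1 (π * (((2 : ℝ) ^ n) ^ ((k : ℝ) - 1 / 4) * ξ) ^ 2) ≤ w * 1 :=
          mul_le_mul_of_nonneg_left (min_le_left _ _) hw0.le
      _ = w := mul_one w
  have hsq : ((2 : ℝ) ^ n) ^ (1 / 2 : ℝ) ≤ (w * ξ) ^ 2 := by
    have h1 : (w * ξ) ^ 2 = w ^ 2 * |ξ| ^ 2 := by
      rw [mul_pow, sq_abs]
    have h2 : w ^ 2 * (((2 : ℝ) ^ n) ^ (1 / 2 : ℝ)) ^ 2 = ((2 : ℝ) ^ n) ^ (1 / 2 : ℝ) := by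
      rw [hw, ← Real.rpow_natCast (((2 : ℝ) ^ n) ^ (-(1 / 4) : ℝ)) 2,
        ← Real.rpow_natCast (((2 : ℝ) ^ n) ^ (1 / 2 : ℝ)) 2, ← Real.rpow_mul hP.le,
        ← Real.rpow_mul hP.le, ← Real.rpow_add hP]
      norm_num
    rw [h1, ← h2]
    have h3 : 0 ≤ ((2 : ℝ) ^ n) ^ (1 / 2 : ℝ) := Real.rpow_nonneg hP.le _
    exact mul_le_mul_of_nonneg_left (pow_le_pow_left₀ h3 hξ 2) (by positivity)
  have hexp : Real.exp (-π * (w * ξ) ^ 2) ≤ Real.exp (-(π / 2) * ((2 : ℝ) ^ n) ^ (1 / 2 : ℝ)) *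
      Real.exp (-(π / 2 * w ^ 2) * ξ ^ 2) := by
    rw [← Real.exp_add]
    apply Real.exp_le_exp.2
    have h4 := mul_le_mul_of_nonneg_left hsq (by positivity : 0 ≤ π / 2)
    nlinarith
  calc w * min 1 (π * (((2 : ℝ) ^ n) ^ ((k : ℝ) - 1 / 4) * ξ) ^ 2) *
      Real.exp (-π * (w * ξ) ^ 2) * ‖Es k β (GC k r η v t u n) ξ‖
      ≤ w * Real.exp (-π * (w * ξ) ^ 2) * ((GC k r η v t u n).card : ℝ) := by
        refine mul_le_mul (mul_le_mul_of_nonneg_right hmin (Real.exp_pos _).le) hE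
          (norm_nonneg _) (by positivity)
    _ ≤ w * (Real.exp (-(π / 2) * ((2 : ℝ) ^ n) ^ (1 / 2 : ℝ)) *
      Real.exp (-(π / 2 * w ^ 2) * ξ ^ 2)) * ((GC k r η v t u n).card : ℝ) := by
        refine mul_le_mul_of_nonneg_right (mul_le_mul_of_nonneg_left hexp hw0.le)
          (Nat.cast_nonneg _)
    _ = _ := by ring

theorem regE (k : ℕ) (r : ℕ → ℝ) (η : ℝ) (v t u : ℕ) :
    ∃ (C : ℝ) (n₀ : ℕ), 0 < C ∧ ∀ n ≥ n₀, ∀ β : ℝ,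
      ∫ ξ in {ξ : ℝ | ((2 : ℝ) ^ n) ^ (1 / 2 : ℝ) ≤ |ξ|}, JC k r η v t u n β ξ ≤
        C * ((GC k r η v t u n).card : ℝ) * ((2 : ℝ) ^ n) ^ (-(k : ℝ) - 3 / 4) := by
  obtain ⟨n₀, hn₀⟩ := RegE_ev k
  refine ⟨2, n₀, two_pos, fun n hn β => ?_⟩
  have hP : (0 : ℝ) < (2 : ℝ) ^ n := by positivity
  obtain ⟨w, hw⟩ : ∃ w, w = ((2 : ℝ) ^ n) ^ (-(1 / 4) : ℝ) := ⟨_, rfl⟩
  have hw0 : 0 < w := by
    rw [hw]
    exact Real.rpow_pos_of_pos hP _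
  obtain ⟨A, hA⟩ : ∃ A, A = Real.exp (-(π / 2) * ((2 : ℝ) ^ n) ^ (1 / 2 : ℝ)) := ⟨_, rfl⟩
  have hA0 : 0 < A := by
    rw [hA]
    exact Real.exp_pos _
  obtain ⟨G, hG⟩ : ∃ G : ℝ, G = ((GC k r η v t u n).card : ℝ) := ⟨_, rfl⟩
  have hG0 : 0 ≤ G := by
    rw [hG]
    exact Nat.cast_nonneg _
  have hb : 0 < π / 2 * w ^ 2 := by positivity
  have hint : Integrable (fun ξ : ℝ => w * A * G * Real.exp (-(π / 2 * w ^ 2) * ξ ^ 2)) :=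
    (integrable_exp_neg_mul_sq hb).const_mul _
  have hJint : Integrable (fun ξ => JC k r η v t u n β ξ) := by
    have h1 := Jn_int k β (GC k r η v t u n) (((2 : ℝ) ^ n) ^ (-(1 / 4) : ℝ))
      (((2 : ℝ) ^ n) ^ ((k : ℝ) - 1 / 4)) (Real.rpow_pos_of_pos hP _)
    exact h1
  have hS : MeasurableSet {ξ : ℝ | ((2 : ℝ) ^ n) ^ (1 / 2 : ℝ) ≤ |ξ|} :=
    measurableSet_le measurable_const continuous_abs.measurable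
  have h1 : ∫ ξ in {ξ : ℝ | ((2 : ℝ) ^ n) ^ (1 / 2 : ℝ) ≤ |ξ|}, JC k r η v t u n β ξ ≤
      ∫ ξ in {ξ : ℝ | ((2 : ℝ) ^ n) ^ (1 / 2 : ℝ) ≤ |ξ|},
        w * A * G * Real.exp (-(π / 2 * w ^ 2) * ξ ^ 2) := by
    refine setIntegral_mono_on hJint.integrableOn hint.integrableOn hS fun ξ hξ => ?_
    rw [hA, hG, hw]
    exact RegE_pt k r η v t u n β ξ hξ
  have h2 : ∫ ξ in {ξ : ℝ | ((2 : ℝ) ^ n) ^ (1 / 2 : ℝ) ≤ |ξ|},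
        w * A * G * Real.exp (-(π / 2 * w ^ 2) * ξ ^ 2) ≤
      ∫ ξ : ℝ, w * A * G * Real.exp (-(π / 2 * w ^ 2) * ξ ^ 2) :=
    setIntegral_le_integral hint (Filter.Eventually.of_forall fun ξ => by positivity)
  have h3 : ∫ ξ : ℝ, w * A * G * Real.exp (-(π / 2 * w ^ 2) * ξ ^ 2) = A * G * √2 := by
    rw [integral_const_mul, integral_gaussian]
    have h4 : π / (π / 2 * w ^ 2) = 2 / w ^ 2 := by
      have hpi := Real.pi_pos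
      field_simp
    rw [h4, Real.sqrt_div (by norm_num), Real.sqrt_sq hw0.le]
    field_simp
  have h5 : √2 ≤ 2 := by
    rw [Real.sqrt_le_left (by norm_num)]
    norm_num
  have h6 : A ≤ ((2 : ℝ) ^ n) ^ (-(k : ℝ) - 3 / 4) := by
    rw [hA]
    exact hn₀ n hn
  refine (h1.trans h2).trans ?_
  rw [h3, ← hG]
  calc A * G * √2 ≤ A * G * 2 := mul_le_mul_of_nonneg_left h5 (by positivity)
    _ = 2 * G * A := by ring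
    _ ≤ 2 * G * ((2 : ℝ) ^ n) ^ (-(k : ℝ) - 3 / 4) := mul_le_mul_of_nonneg_left h6 (by positivity)

end Pool.Agent.Lib.MP_570bef_ntWE
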