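import Mathlib
import Pool.Agent.Lib.MP_570bef_ntWE.Defs
import Pool.Agent.Lib.MP_570bef_ntWE.RegA
import Pool.Agent.Lib.MP_570bef_ntWE.RegB
import Pool.Agent.Lib.MP_570bef_ntWE.RegD
import Pool.Agent.Lib.MP_570bef_ntWE.RegE
import Pool.Agent.Lib.MP_570bef_ntWE.ManC

/-!
# Low: the lower bound for the smoothed number of representations (easy+)

ℝ is the union of the sets of regA, regB, regD, regE; JC ≥ 0 integrable: ∫ JC ≤ 4 C |GC| P^(-k-3/4). rw_cmp with w = P^(-1/4),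
W = P^(k-1/4), w/W = P^(-k); Rw W τ ≥ exp(-π) #{x ∈ GC : |Ps k β x - τ| ≤ W} ≥ exp(-π) c |GC| P^(-1/4) (many). So
Rw w τ ≥ exp(-π) c |GC| P^(-k-1/4) - 4 C |GC| P^(-k-3/4) ≥ (exp(-π) c/2) |GC| P^(-k-1/4) for P^(1/2) ≥ 8 C e^π/c.
-/

set_option autoImplicit false

open Finset Real MeasureTheory
open Pool.Agent.Lib.MP_2a816b_nt (e norm_e conj_e e_add e_neg)

namespace Pool.Agent.Lib.MP_570bef_ntWE

open Pool.Agent.Lib.MP_570bef_ntWD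

private theorem Low_union {f : ℝ → ℝ} (hf : Integrable f) (h0 : ∀ x, 0 ≤ f x) (A B : Set ℝ) :
    ∫ x in A ∪ B, f x ≤ (∫ x in A, f x) + ∫ x in B, f x := by
  have h1 : ∫ x in A ∪ B, f x ≤ ∫ x, f x ∂(volume.restrict A + volume.restrict B) :=
    integral_mono_measure (Measure.restrict_union_le A B) (Filter.Eventually.of_forall h0)
      (hf.restrict.add_measure hf.restrict)
  rwa [integral_add_measure hf.restrict hf.restrict] at h1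

open Classical in
private theorem Low_count (k : ℕ) (β : ℝ) (G : Finset (List ℕ)) {W : ℝ} (hW : 0 < W) (τ : ℝ) :
    Real.exp (-π) * ((G.filter fun x => |Ps k β x - τ| ≤ W).card : ℝ) ≤ Rw k β G W τ := by
  unfold Rw
  have h1 : Real.exp (-π) * ((G.filter fun x => |Ps k β x - τ| ≤ W).card : ℝ) =
      ∑ x ∈ G.filter fun x => |Ps k β x - τ| ≤ W, Real.exp (-π) := by
    rw [Finset.sum_const, nsmul_eq_mul, mul_comm]
  rw [h1]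
  refine le_trans (Finset.sum_le_sum (g := fun x => Real.exp (-π * ((Ps k β x - τ) / W) ^ 2)) fun x hx => ?_)
    (Finset.sum_le_sum_of_subset_of_nonneg (Finset.filter_subset _ _) fun x _ _ => (Real.exp_pos _).le)
  have h2 := (Finset.mem_filter.1 hx).2
  refine Real.exp_le_exp.2 ?_
  have h3 : ((Ps k β x - τ) / W) ^ 2 ≤ 1 := by
    rw [sq_le_one_iff_abs_le_one, abs_div, abs_of_pos hW, div_le_one hW]
    exact h2
  have h4 := mul_le_mul_of_nonneg_left h3 Real.pi_pos.le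
  rw [mul_one] at h4
  linarith

theorem rw_lower {k v t : ℕ} {r : ℕ → ℝ} {η κ : ℝ} (h : Cy k v t r η κ) (u b₀ : ℕ)
    (hs : SzC k v t u) (hu4 : 4 ≤ u) (hbk : b₀ + 2 ≤ k) (hu : (b₀ : ℝ) + 1 ≤ u * sg b₀)
    (hb1 : 1 ≤ b₀) (hb : 4 ≤ (b₀ : ℝ) * (2 * κ)) :
    ∃ (c : ℝ) (n₀ : ℕ), 0 < c ∧ ∀ n ≥ n₀, ∀ β : ℝ, 0 ≤ β → β ≤ 1 →
      β ∉ BadC k r η v (2 * κ) b₀ ((2 : ℝ) ^ n) →
      ∀ τ : ℝ, ((2 : ℝ) ^ n) ^ k ≤ τ → τ ≤ ((2 : ℝ) ^ (n + 1)) ^ k →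
      c * ((GC k r η v t u n).card : ℝ) * ((2 : ℝ) ^ n) ^ (-(k : ℝ) - 1 / 4) ≤
        Rw k β (GC k r η v t u n) (((2 : ℝ) ^ n) ^ (-(1 / 4) : ℝ)) τ := by
  classical
  obtain ⟨CA, nA, hCA, hA⟩ := regA h u hu4
  obtain ⟨CB, nB, hCB, hB⟩ := regB h u b₀ hbk hu
  obtain ⟨CD, nD, hCD, hD⟩ := regD h u b₀ hb1 hb
  obtain ⟨CE, nE, hCE, hE⟩ := regE k r η v t u
  obtain ⟨c, nM, hc, hM⟩ := many h u hs
  obtain ⟨C, hC⟩ : ∃ C : ℝ, C = CA + CB + CD + CE := ⟨_, rfl⟩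
  have hC0 : 0 < C := by
    rw [hC]
    positivity
  obtain ⟨K, hK⟩ : ∃ K : ℝ, K = 2 * C * Real.exp π / c := ⟨_, rfl⟩
  have hK0 : 0 < K := by
    rw [hK]
    positivity
  refine ⟨Real.exp (-π) * c / 2, nA + nB + nD + nE + nM + ⌈K ^ 2⌉₊, by positivity, ?_⟩
  intro n hn β hβ0 hβ1 hbad τ hτ0 hτ1
  obtain ⟨P, hP⟩ : ∃ P : ℝ, P = (2 : ℝ) ^ n := ⟨_, rfl⟩
  have hP1 : 1 ≤ P := by
    rw [hP]
    exact one_le_pow₀ one_le_two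
  have hP0 : 0 < P := lt_of_lt_of_le one_pos hP1
  have hKP : K ^ 2 ≤ P := by
    have h1 : K ^ 2 ≤ (n : ℝ) := by
      refine (Nat.le_ceil _).trans ?_
      exact_mod_cast (by omega : ⌈K ^ 2⌉₊ ≤ n)
    have h2 : (n : ℝ) ≤ P := by
      rw [hP]
      exact_mod_cast (Nat.lt_two_pow_self (n := n)).le
    exact h1.trans h2
  have hA' := hA n (by omega) β hβ0 hβ1
  have hB' := hB n (by omega) β hβ0 hβ1
  have hD' := hD n (by omega) β hβ0 hβ1 hbad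
  have hE' := hE n (by omega) β
  have hM' := hM n (by omega) β hβ0 hβ1 τ hτ0 hτ1
  clear hA hB hD hE hM hbad
  rw [← hP] at hA' hB' hD' hE' hM' ⊢
  obtain ⟨N, hN⟩ : ∃ N : ℝ, N = ((GC k r η v t u n).card : ℝ) := ⟨_, rfl⟩
  have hN0 : 0 ≤ N := by
    rw [hN]
    exact Nat.cast_nonneg _
  rw [← hN] at hA' hB' hD' hE' hM' ⊢
  have hw : 0 < P ^ (-(1 / 4) : ℝ) := Real.rpow_pos_of_pos hP0 _
  have hW : 0 < P ^ ((k : ℝ) - 1 / 4) := Real.rpow_pos_of_pos hP0 _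
  have hwW : P ^ (-(1 / 4) : ℝ) ≤ P ^ ((k : ℝ) - 1 / 4) := by
    refine Real.rpow_le_rpow_of_exponent_le hP1 ?_
    have h1 : (0 : ℝ) ≤ k := Nat.cast_nonneg k
    linarith
  -- the integral of the error
  have hJ : JC k r η v t u n β = Jn k β (GC k r η v t u n) (P ^ (-(1 / 4) : ℝ)) (P ^ ((k : ℝ) - 1 / 4)) := by
    rw [hP]
    rfl
  have hJi : Integrable (JC k r η v t u n β) := by
    rw [hJ]
    exact Jn_int k β _ _ _ hw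
  have hJ0 : ∀ x, 0 ≤ JC k r η v t u n β x := by
    rw [hJ]
    exact fun x => Jn_nonneg k β _ _ _ x hw.le
  have hint : ∫ x, JC k r η v t u n β x ≤ C * N * P ^ (-(k : ℝ) - 3 / 4) := by
    have hcov : (Set.univ : Set ℝ) = {ξ : ℝ | |ξ| ≤ P ^ (-(k : ℝ) + 1 / 2)} ∪
        ({ξ : ℝ | P ^ (-(k : ℝ) + 1 / 2) ≤ |ξ| ∧ |ξ| ≤ P ^ ((b₀ : ℝ) - k)} ∪
        ({ξ : ℝ | P ^ ((b₀ : ℝ) - k) ≤ |ξ| ∧ |ξ| ≤ P ^ (1 / 2 : ℝ)} ∪ {ξ : ℝ | P ^ (1 / 2 : ℝ) ≤ |ξ|})) := by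
      ext ξ
      simp only [Set.mem_univ, Set.mem_union, Set.mem_ofPred_eq, true_iff]
      rcases le_total |ξ| (P ^ (-(k : ℝ) + 1 / 2)) with h1 | h1
      · exact Or.inl h1
      · rcases le_total |ξ| (P ^ ((b₀ : ℝ) - k)) with h2 | h2
        · exact Or.inr (Or.inl ⟨h1, h2⟩)
        · rcases le_total |ξ| (P ^ (1 / 2 : ℝ)) with h3 | h3
          · exact Or.inr (Or.inr (Or.inl ⟨h2, h3⟩))
          · exact Or.inr (Or.inr (Or.inr h3))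
    rw [← setIntegral_univ, hcov]
    refine (Low_union hJi hJ0 _ _).trans ?_
    have h2 := Low_union hJi hJ0 {ξ : ℝ | P ^ (-(k : ℝ) + 1 / 2) ≤ |ξ| ∧ |ξ| ≤ P ^ ((b₀ : ℝ) - k)}
      ({ξ : ℝ | P ^ ((b₀ : ℝ) - k) ≤ |ξ| ∧ |ξ| ≤ P ^ (1 / 2 : ℝ)} ∪ {ξ : ℝ | P ^ (1 / 2 : ℝ) ≤ |ξ|})
    have h3 := Low_union hJi hJ0 {ξ : ℝ | P ^ ((b₀ : ℝ) - k) ≤ |ξ| ∧ |ξ| ≤ P ^ (1 / 2 : ℝ)}
      {ξ : ℝ | P ^ (1 / 2 : ℝ) ≤ |ξ|}
    have h4 : C * N * P ^ (-(k : ℝ) - 3 / 4) = CA * N * P ^ (-(k : ℝ) - 3 / 4) +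
        (CB * N * P ^ (-(k : ℝ) - 3 / 4) + (CD * N * P ^ (-(k : ℝ) - 3 / 4) + CE * N * P ^ (-(k : ℝ) - 3 / 4))) := by
      rw [hC]
      ring
    rw [h4]
    exact add_le_add hA' (h2.trans (add_le_add hB' (h3.trans (add_le_add hD' hE'))))
  have hcmp := rw_cmp k β (GC k r η v t u n) _ _ τ hw hwW
  have hint' : ∫ ξ, Jn k β (GC k r η v t u n) (P ^ (-(1 / 4) : ℝ)) (P ^ ((k : ℝ) - 1 / 4)) ξ ≤
      C * N * P ^ (-(k : ℝ) - 3 / 4) := by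
    rw [hJ] at hint
    exact hint
  have hq : P ^ (-(1 / 4) : ℝ) / P ^ ((k : ℝ) - 1 / 4) = P ^ (-(k : ℝ)) := by
    rw [← Real.rpow_sub hP0]
    congr 1
    ring
  rw [hq] at hcmp
  have hRW : Real.exp (-π) * (c * N * P ^ (-(1 / 4) : ℝ)) ≤
      Rw k β (GC k r η v t u n) (P ^ ((k : ℝ) - 1 / 4)) τ := by
    refine le_trans ?_ (Low_count k β (GC k r η v t u n) hW τ)
    refine mul_le_mul_of_nonneg_left ?_ (Real.exp_pos _).le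
    refine hM'.trans (le_of_eq ?_)
    congr 1
  have hPk : 0 < P ^ (-(k : ℝ)) := Real.rpow_pos_of_pos hP0 _
  have h5 := mul_le_mul_of_nonneg_left hRW hPk.le
  have e1 : P ^ (-(k : ℝ) - 1 / 4) = P ^ (-(k : ℝ)) * P ^ (-(1 / 4) : ℝ) := by
    rw [← Real.rpow_add hP0]
    congr 1
  have e2 : P ^ (-(k : ℝ) - 3 / 4) = P ^ (-(k : ℝ) - 1 / 4) * P ^ (-(1 / 2) : ℝ) := by
    rw [← Real.rpow_add hP0]
    congr 1
    ring
  have hKs : K ≤ P ^ (1 / 2 : ℝ) := by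
    rw [← Real.sqrt_eq_rpow]
    exact Real.le_sqrt_of_sq_le hKP
  have h6 : C * P ^ (-(1 / 2) : ℝ) ≤ Real.exp (-π) * c / 2 := by
    have h7 : 0 < P ^ (1 / 2 : ℝ) := Real.rpow_pos_of_pos hP0 _
    have h8 : P ^ (-(1 / 2) : ℝ) = (P ^ (1 / 2 : ℝ))⁻¹ := Real.rpow_neg hP0.le _
    rw [h8, ← div_eq_mul_inv, div_le_iff₀ h7]
    have h9 : Real.exp (-π) * c / 2 * K = C := by
      rw [hK, Real.exp_neg]
      have h10 : Real.exp π ≠ 0 := (Real.exp_pos _).ne'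
      field_simp
    calc C = Real.exp (-π) * c / 2 * K := h9.symm
      _ ≤ Real.exp (-π) * c / 2 * P ^ (1 / 2 : ℝ) := mul_le_mul_of_nonneg_left hKs (by positivity)
  have hQ : 0 ≤ N * P ^ (-(k : ℝ) - 1 / 4) := mul_nonneg hN0 (Real.rpow_pos_of_pos hP0 _).le
  have h11 := mul_le_mul_of_nonneg_left h6 hQ
  have e3 : C * N * P ^ (-(k : ℝ) - 3 / 4) = N * P ^ (-(k : ℝ) - 1 / 4) * (C * P ^ (-(1 / 2) : ℝ)) := by
    rw [e2]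
    ring
  have e4 : P ^ (-(k : ℝ)) * (Real.exp (-π) * (c * N * P ^ (-(1 / 4) : ℝ))) =
      N * P ^ (-(k : ℝ) - 1 / 4) * (Real.exp (-π) * c) := by
    rw [e1]
    ring
  rw [e4] at h5
  rw [e3] at hint'
  have e5 : Real.exp (-π) * c / 2 * N * P ^ (-(k : ℝ) - 1 / 4) =
      N * P ^ (-(k : ℝ) - 1 / 4) * (Real.exp (-π) * c) - N * P ^ (-(k : ℝ) - 1 / 4) * (Real.exp (-π) * c / 2) := by
    ring
  rw [e5]
  linarith

end Pool.Agent.Lib.MP_570bef_ntWE
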