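import Mathlib
import Pool.Agent.Lib.MP_570bef_ntWE.Defs
import Pool.Agent.Lib.MP_570bef_ntWE.Low

/-!
# Circ: every large real number is approximated (medium-)

Given δ > 0. For τ large choose n with (2^n)^k ≤ τ ≤ (2^(n+1))^k (k ≥ 1, Nat.find or floor of the logarithm), n as large as we want. If
|Ps k β x - τ| ≥ δ for all x ∈ GC then Rw w τ ≤ |GC| exp(-π (δ/w)²) = |GC| exp(-π δ² P^(1/2)), w = P^(-1/4), against
rw_lower: c |GC| P^(-k-1/4) and |GC| > 0 (GC_pos), for large P (exp(-π δ² P^(1/2)) P^(k+1/4) → 0). So there is x ∈ GC with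
|Ps k β x - τ| < δ, and its length is nt (GC_len).
-/

set_option autoImplicit false

open Finset Real MeasureTheory
open Pool.Agent.Lib.MP_2a816b_nt (e norm_e conj_e e_add e_neg)

namespace Pool.Agent.Lib.MP_570bef_ntWE

open Pool.Agent.Lib.MP_570bef_ntWD

theorem circ {k v t : ℕ} {r : ℕ → ℝ} {η κ : ℝ} (h : Cy k v t r η κ) (u b₀ : ℕ)
    (hs : SzC k v t u) (hu4 : 4 ≤ u) (hbk : b₀ + 2 ≤ k) (hu : (b₀ : ℝ) + 1 ≤ u * sg b₀)
    (hb1 : 1 ≤ b₀) (hb : 4 ≤ (b₀ : ℝ) * (2 * κ)) (β : ℝ) (hβ : 0 ≤ β) (hβ1 : β ≤ 1)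
    (hbad : ∃ n₀ : ℕ, ∀ n ≥ n₀, β ∉ BadC k r η v (2 * κ) b₀ ((2 : ℝ) ^ n)) :
    ∀ δ : ℝ, 0 < δ → ∃ τ₀ : ℝ, ∀ τ : ℝ, τ₀ ≤ τ → ∃ x : List ℕ, x.length = ntc v t u ∧
      |Ps k β x - τ| < δ := by
  intro δ hδ
  obtain ⟨c, n₁, hc, hlow⟩ := rw_lower h u b₀ hs hu4 hbk hu hb1 hb
  obtain ⟨n₂, hpos⟩ := GC_pos h u
  obtain ⟨n₀, hbad⟩ := hbad
  have hk : 1 ≤ k := by
    have := h.hk
    omega
  have hA : (0 : ℝ) < π * δ ^ 2 := by positivity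
  -- the exponential is small
  have hev : ∀ᶠ n : ℕ in Filter.atTop, Real.exp (-(π * δ ^ 2) * ((2 : ℝ) ^ n) ^ (1 / 2 : ℝ)) <
      c * ((2 : ℝ) ^ n) ^ (-(k : ℝ) - 1 / 4) := by
    have h1 := (isLittleO_exp_neg_mul_rpow_atTop hA (-(2 * (k : ℝ)) - 1 / 2)).def (half_pos hc)
    have h2 : Filter.Tendsto (fun n : ℕ => ((2 : ℝ) ^ n) ^ (1 / 2 : ℝ)) Filter.atTop Filter.atTop :=
      (tendsto_rpow_atTop (by norm_num)).comp (tendsto_pow_atTop_atTop_of_one_lt one_lt_two)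
    filter_upwards [h2.eventually h1] with n hn
    have hP : (0 : ℝ) < (2 : ℝ) ^ n := by positivity
    rw [Real.norm_of_nonneg (Real.exp_pos _).le, Real.norm_of_nonneg (by positivity), ← Real.rpow_mul hP.le] at hn
    have h3 : (1 / 2 : ℝ) * (-(2 * (k : ℝ)) - 1 / 2) = -(k : ℝ) - 1 / 4 := by ring
    rw [h3] at hn
    refine lt_of_le_of_lt hn ?_
    have h4 : 0 < ((2 : ℝ) ^ n) ^ (-(k : ℝ) - 1 / 4) := Real.rpow_pos_of_pos hP _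
    nlinarith
  obtain ⟨n₃, hn3⟩ := Filter.eventually_atTop.1 hev
  set N := max (max n₀ n₁) (max n₂ n₃) with hN
  refine ⟨max 1 (((2 : ℝ) ^ k) ^ N), fun τ hτ => ?_⟩
  have hy : (1 : ℝ) < (2 : ℝ) ^ k := one_lt_pow₀ one_lt_two (by omega)
  obtain ⟨n, hn1, hn2⟩ := exists_nat_pow_near ((le_max_left _ _).trans hτ) hy
  have hNn : N ≤ n := by
    have h5 : ((2 : ℝ) ^ k) ^ N < ((2 : ℝ) ^ k) ^ (n + 1) :=
      lt_of_le_of_lt ((le_max_right _ _).trans hτ) hn2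
    have h6 := (pow_lt_pow_iff_right₀ hy).1 h5
    omega
  have h00 : n₀ ≤ n := ((le_max_left _ _).trans (le_max_left _ _)).trans hNn
  have h01 : n₁ ≤ n := ((le_max_right _ _).trans (le_max_left _ _)).trans hNn
  have h02 : n₂ ≤ n := ((le_max_left _ _).trans (le_max_right _ _)).trans hNn
  have h03 : n₃ ≤ n := ((le_max_right _ _).trans (le_max_right _ _)).trans hNn
  have hl := hlow n h01 β hβ hβ1 (hbad n h00) τ (by rwa [pow_right_comm])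
    (by rw [pow_right_comm]; exact hn2.le)
  by_contra hcon
  push Not at hcon
  have hP : (0 : ℝ) < (2 : ℝ) ^ n := by positivity
  have hw : (0 : ℝ) < ((2 : ℝ) ^ n) ^ (-(1 / 4) : ℝ) := Real.rpow_pos_of_pos hP _
  have hR : Rw k β (GC k r η v t u n) (((2 : ℝ) ^ n) ^ (-(1 / 4) : ℝ)) τ ≤
      ((GC k r η v t u n).card : ℝ) * Real.exp (-(π * δ ^ 2) * ((2 : ℝ) ^ n) ^ (1 / 2 : ℝ)) := by
    unfold Rw
    rw [← nsmul_eq_mul]
    refine Finset.sum_le_card_nsmul _ _ _ fun x hx => ?_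
    have h5 := hcon x (GC_len k r η v t u n x hx)
    have h6 : ((2 : ℝ) ^ n) ^ (1 / 2 : ℝ) * ((((2 : ℝ) ^ n) ^ (-(1 / 4) : ℝ)) ^ 2) = 1 := by
      rw [sq, ← Real.rpow_add hP, ← Real.rpow_add hP]
      norm_num
    have h7 : δ ^ 2 ≤ (Ps k β x - τ) ^ 2 := by
      rw [← sq_abs (Ps k β x - τ)]
      exact pow_le_pow_left₀ hδ.le h5 2
    have h8 : δ ^ 2 * ((2 : ℝ) ^ n) ^ (1 / 2 : ℝ) ≤
        ((Ps k β x - τ) / ((2 : ℝ) ^ n) ^ (-(1 / 4) : ℝ)) ^ 2 := by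
      rw [div_pow, le_div_iff₀ (by positivity), mul_assoc, h6, mul_one]
      exact h7
    refine Real.exp_le_exp.2 ?_
    nlinarith [Real.pi_pos]
  have h9 := hpos n h02
  have h10 := hn3 n h03
  have h11 := hl.trans hR
  have h12 : ((GC k r η v t u n).card : ℝ) * Real.exp (-(π * δ ^ 2) * ((2 : ℝ) ^ n) ^ (1 / 2 : ℝ)) <
      ((GC k r η v t u n).card : ℝ) * (c * ((2 : ℝ) ^ n) ^ (-(k : ℝ) - 1 / 4)) :=
    mul_lt_mul_of_pos_left h10 h9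
  have h13 : c * ((GC k r η v t u n).card : ℝ) * ((2 : ℝ) ^ n) ^ (-(k : ℝ) - 1 / 4) =
      ((GC k r η v t u n).card : ℝ) * (c * ((2 : ℝ) ^ n) ^ (-(k : ℝ) - 1 / 4)) := by ring
  linarith


end Pool.Agent.Lib.MP_570bef_ntWE
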