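import Mathlib
import Pool.Agent.Lib.MP_570bef_ntWD.Sep

/-!
# CvC: covering through a chain of scales (medium)

(a) For i ≤ q, β₁ ∈ [0,1]: sepcov for the set of τ ∈ [0, ℓ i] with β₁ + τ ∈ S: there is a finite set of at most M reals y such that every
point of S ∩ [β₁, β₁ + ℓ i] is in some [β₁ + y - ρ i, β₁ + y + ρ i]. (b) S is covered by at most (2/ℓ q) M intervals of length 2 ρ q: windows
β₁ = a ℓ q, a = 0, .., ⌊1/ℓ q⌋ (a point β ∈ S ⊆ [0,1] is in the window a = ⌊β/ℓ q⌋), their number ⌊1/ℓ⌋ + 1 ≤ 2/ℓ. (c) If S is covered by n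
intervals of length 2 ρ (i+1), i < q, then by n (Λ+1) M intervals of length 2 ρ i: for an interval [x, x + 2 ρ (i+1)] put x' = max x 0; the points
of S in it are in the windows β₁ = x' + a ℓ i, a = 0, .., ⌊2 ρ (i+1)/ℓ i⌋ with β₁ ≤ 1 (at most Λ + 1 of them); use (a). Induction on q - i.
-/

set_option autoImplicit false

namespace Pool.Agent.Lib.MP_570bef_ntWE

open Pool.Agent.Lib.MP_570bef_ntWD

private theorem CvC_one (S : Set ℝ) (ℓ ρ M : ℝ) (hM : 1 ≤ M) (hρ : 0 < ρ)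
    (hwin : ∀ β₁ : ℝ, 0 ≤ β₁ → β₁ ≤ 1 → ∀ R : Finset ℝ,
      (∀ τ ∈ R, 0 ≤ τ ∧ τ ≤ ℓ) → (∀ τ ∈ R, ∀ τ' ∈ R, τ ≠ τ' → ρ < |τ - τ'|) →
      (∀ τ ∈ R, β₁ + τ ∈ S) → (R.card : ℝ) ≤ M) (β : ℝ) :
    ∃ G : Finset ℝ, (G.card : ℝ) ≤ M ∧ (0 ≤ β → β ≤ 1 → ∀ z ∈ S, β ≤ z → z ≤ β + ℓ →
      ∃ y ∈ G, y ≤ z ∧ z ≤ y + 2 * ρ) := by
  classical
  by_cases hβ : 0 ≤ β ∧ β ≤ 1
  · obtain ⟨F, hF1, hF2⟩ := sepcov {τ : ℝ | (0 ≤ τ ∧ τ ≤ ℓ) ∧ β + τ ∈ S} ρ M hρ (fun R h1 h2 =>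
      hwin β hβ.1 hβ.2 R (fun τ hτ => (h1 τ hτ).1) h2 (fun τ hτ => (h1 τ hτ).2))
    refine ⟨F.image fun τ => β + τ - ρ, le_trans (by exact_mod_cast Finset.card_image_le) hF1, ?_⟩
    intro _ _ z hz h1 h2
    obtain ⟨y, hy, hyz⟩ := hF2 (z - β) ⟨⟨by linarith, by linarith⟩, by
      have h3 : β + (z - β) = z := by ring
      rw [h3]
      exact hz⟩
    have h4 := abs_le.1 hyz
    exact ⟨β + y - ρ, Finset.mem_image.2 ⟨y, hy, rfl⟩, by linarith [h4.1, h4.2], by linarith [h4.1, h4.2]⟩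
  · refine ⟨∅, ?_, fun h1 h2 => absurd ⟨h1, h2⟩ hβ⟩
    rw [Finset.card_empty, Nat.cast_zero]
    linarith

private theorem CvC_many {ι : Type} (I : Finset ι) (b : ι → ℝ) (S : Set ℝ) (ℓ ρ M : ℝ) (hM : 1 ≤ M) (hρ : 0 < ρ)
    (hwin : ∀ β₁ : ℝ, 0 ≤ β₁ → β₁ ≤ 1 → ∀ R : Finset ℝ,
      (∀ τ ∈ R, 0 ≤ τ ∧ τ ≤ ℓ) → (∀ τ ∈ R, ∀ τ' ∈ R, τ ≠ τ' → ρ < |τ - τ'|) →
      (∀ τ ∈ R, β₁ + τ ∈ S) → (R.card : ℝ) ≤ M) :
    ∃ G : Finset ℝ, (G.card : ℝ) ≤ (I.card : ℝ) * M ∧ ∀ z ∈ S, ∀ a ∈ I, 0 ≤ b a → b a ≤ 1 → b a ≤ z →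
      z ≤ b a + ℓ → ∃ y ∈ G, y ≤ z ∧ z ≤ y + 2 * ρ := by
  classical
  choose G hG1 hG2 using CvC_one S ℓ ρ M hM hρ hwin
  refine ⟨I.biUnion fun a => G (b a), ?_, ?_⟩
  · have h1 : ((I.biUnion fun a => G (b a)).card : ℝ) ≤ ∑ a ∈ I, ((G (b a)).card : ℝ) := by
      exact_mod_cast Finset.card_biUnion_le
    refine h1.trans ((Finset.sum_le_sum fun a _ => hG1 (b a)).trans ?_)
    rw [Finset.sum_const, nsmul_eq_mul]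
  · intro z hz a ha h1 h2 h3 h4
    obtain ⟨y, hy, hyz⟩ := hG2 (b a) h1 h2 z hz h3 h4
    exact ⟨y, Finset.mem_biUnion.2 ⟨a, ha, hy⟩, hyz⟩

private theorem CvC_floor {ℓ u : ℝ} (hℓ : 0 < ℓ) (hu : 0 ≤ u) :
    (⌊u / ℓ⌋₊ : ℝ) * ℓ ≤ u ∧ u ≤ (⌊u / ℓ⌋₊ : ℝ) * ℓ + ℓ := by
  have h1 := Nat.floor_le (div_nonneg hu hℓ.le)
  have h2 := (Nat.lt_floor_add_one (u / ℓ)).le
  rw [le_div_iff₀ hℓ] at h1
  rw [div_le_iff₀ hℓ] at h2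
  exact ⟨h1, by linarith⟩

theorem chain_cover (S : Set ℝ) (hS : ∀ x ∈ S, 0 ≤ x ∧ x ≤ 1) (q : ℕ) (ℓ ρ : ℕ → ℝ) (M Λ : ℝ)
    (hM : 1 ≤ M) (hΛ : 0 ≤ Λ) (hℓ : ∀ i ≤ q, 0 < ℓ i ∧ ℓ i ≤ 1) (hρ : ∀ i ≤ q, 0 < ρ i)
    (hwin : ∀ i ≤ q, ∀ β₁ : ℝ, 0 ≤ β₁ → β₁ ≤ 1 → ∀ R : Finset ℝ,
      (∀ τ ∈ R, 0 ≤ τ ∧ τ ≤ ℓ i) → (∀ τ ∈ R, ∀ τ' ∈ R, τ ≠ τ' → ρ i < |τ - τ'|) →
      (∀ τ ∈ R, β₁ + τ ∈ S) → (R.card : ℝ) ≤ M)
    (hstep : ∀ i < q, 2 * ρ (i + 1) ≤ Λ * ℓ i) :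
    ∃ F : Finset (ℝ × ℝ), S ⊆ ⋃ p ∈ F, Set.Icc p.1 (p.1 + p.2) ∧ (∀ p ∈ F, p.2 = 2 * ρ 0) ∧
      (F.card : ℝ) ≤ 2 / ℓ q * (M * ((Λ + 1) * M) ^ q) := by
  classical
  have hmain : ∀ j ≤ q, ∃ G : Finset ℝ, (G.card : ℝ) ≤ 2 / ℓ q * (M * ((Λ + 1) * M) ^ j) ∧
      ∀ z ∈ S, ∃ y ∈ G, y ≤ z ∧ z ≤ y + 2 * ρ (q - j) := by
    intro j
    induction j with
    | zero =>
      intro _
      obtain ⟨h1, h2⟩ := hℓ q le_rfl
      obtain ⟨G, hG1, hG2⟩ := CvC_many (Finset.range (⌊1 / ℓ q⌋₊ + 1)) (fun a => (a : ℝ) * ℓ q) S (ℓ q) (ρ q) M hM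
        (hρ q le_rfl) (hwin q le_rfl)
      refine ⟨G, hG1.trans ?_, fun z hz => ?_⟩
      · rw [Finset.card_range, pow_zero, mul_one]
        refine mul_le_mul_of_nonneg_right ?_ (by linarith)
        push_cast
        have h3 := Nat.floor_le (div_nonneg zero_le_one h1.le)
        have h4 : 1 ≤ 1 / ℓ q := by
          rw [le_div_iff₀ h1]
          linarith
        have h5 : 2 / ℓ q = 1 / ℓ q + 1 / ℓ q := by ring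
        linarith
      · obtain ⟨hz0, hz1⟩ := hS z hz
        obtain ⟨h3, h4⟩ := CvC_floor h1 hz0
        refine hG2 z hz ⌊z / ℓ q⌋₊ ?_ (by positivity) (h3.trans hz1) h3 h4
        rw [Finset.mem_range, Nat.lt_succ_iff]
        exact Nat.floor_le_floor (div_le_div_of_nonneg_right hz1 h1.le)
    | succ j ih =>
      intro hj
      obtain ⟨G, hG1, hG2⟩ := ih (by omega)
      obtain ⟨i, hi⟩ : ∃ i, i = q - (j + 1) := ⟨_, rfl⟩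
      have hi1 : q - j = i + 1 := by omega
      have hiq : i < q := by omega
      rw [← hi]
      rw [hi1] at hG2
      obtain ⟨h1, h2⟩ := hℓ i hiq.le
      have hρ1 := hρ (i + 1) hiq
      obtain ⟨G', hG1', hG2'⟩ := CvC_many (G ×ˢ Finset.range (⌊2 * ρ (i + 1) / ℓ i⌋₊ + 1))
        (fun a => max a.1 0 + (a.2 : ℝ) * ℓ i) S (ℓ i) (ρ i) M hM (hρ i hiq.le) (hwin i hiq.le)
      refine ⟨G', hG1'.trans ?_, fun z hz => ?_⟩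
      · rw [Finset.card_product, Finset.card_range]
        push_cast
        have h3 := Nat.floor_le (div_nonneg (by positivity : 0 ≤ 2 * ρ (i + 1)) h1.le)
        have h4 : 2 * ρ (i + 1) / ℓ i ≤ Λ := by
          rw [div_le_iff₀ h1]
          exact hstep i hiq
        calc (G.card : ℝ) * ((⌊2 * ρ (i + 1) / ℓ i⌋₊ : ℝ) + 1) * M ≤ (G.card : ℝ) * (Λ + 1) * M := by
              refine mul_le_mul_of_nonneg_right (mul_le_mul_of_nonneg_left ?_ (Nat.cast_nonneg _)) (by linarith)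
              linarith
          _ = (G.card : ℝ) * ((Λ + 1) * M) := by ring
          _ ≤ 2 / ℓ q * (M * ((Λ + 1) * M) ^ j) * ((Λ + 1) * M) :=
              mul_le_mul_of_nonneg_right hG1 (mul_nonneg (by linarith) (by linarith))
          _ = 2 / ℓ q * (M * ((Λ + 1) * M) ^ (j + 1)) := by ring
      · obtain ⟨hz0, hz1⟩ := hS z hz
        obtain ⟨y, hy, hy1, hy2⟩ := hG2 z hz
        have h3 : max y 0 ≤ z := max_le hy1 hz0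
        have h4 : z - max y 0 ≤ 2 * ρ (i + 1) := by
          have := le_max_left y 0
          linarith
        obtain ⟨h5, h6⟩ := CvC_floor h1 (sub_nonneg.2 h3)
        refine hG2' z hz (y, ⌊(z - max y 0) / ℓ i⌋₊) ?_ ?_ ?_ ?_ ?_
        · rw [Finset.mem_product, Finset.mem_range, Nat.lt_succ_iff]
          exact ⟨hy, Nat.floor_le_floor (div_le_div_of_nonneg_right h4 h1.le)⟩
        · exact add_nonneg (le_max_right _ _) (mul_nonneg (Nat.cast_nonneg _) h1.le)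
        · show max y 0 + (⌊(z - max y 0) / ℓ i⌋₊ : ℝ) * ℓ i ≤ 1
          linarith
        · show max y 0 + (⌊(z - max y 0) / ℓ i⌋₊ : ℝ) * ℓ i ≤ z
          linarith
        · show z ≤ max y 0 + (⌊(z - max y 0) / ℓ i⌋₊ : ℝ) * ℓ i + ℓ i
          linarith
  obtain ⟨G, hG1, hG2⟩ := hmain q le_rfl
  rw [Nat.sub_self] at hG2
  refine ⟨G.image fun x => (x, 2 * ρ 0), fun z hz => ?_, fun p hp => ?_, ?_⟩
  · obtain ⟨y, hy, hyz⟩ := hG2 z hz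
    rw [Set.mem_iUnion₂]
    exact ⟨(y, 2 * ρ 0), Finset.mem_image.2 ⟨y, hy, rfl⟩, hyz⟩
  · obtain ⟨y, _, rfl⟩ := Finset.mem_image.1 hp
    rfl
  · exact le_trans (by exact_mod_cast Finset.card_image_le) hG1

end Pool.Agent.Lib.MP_570bef_ntWE
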