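import Mathlib
import Pool.Agent.Lib.MP_570bef_ntWE.Bk3
import Pool.Agent.Lib.MP_570bef_ntWD.Dls
import Pool.Agent.Lib.MP_570bef_ntWD.Bin

/-!
# Win: the number of separated bad shifts in a window, two equations (medium-; model MP_570bef_ntWD/Win.lean with j = 2, P = Q)

The proof of win in MP_570bef_ntWD/Win.lean with j = 2, P replaced by Q, BB by S = blk (k-1) (fun _ => 2) r η Q v (s = 2 v variables,
blk_len; entries ≤ Q/4, blk_entry h), cnt_BB by cnt_BC. The condition b ≤ k + 1 is not needed elsewhere. Recall: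
Y i = 2 Q^(-(k-i) + max 0 (b (1 - i/2))), Z i = CZ Q^(k-i), (y τ) i = ξ τ * τ^i, z x i = choose k i * Ps (k-i) β₁ x,
∏_(i ≤ k) Y i Z i = (2 CZ)^(k+1) Q^(b + b/2), N = C1 |S| Q^(-(3b/2) + 2 + max 0 (b - (k-1)(1-ε))), dls:
|R| (|S| Q^(-ωb))² ≤ C ∏ (Y i Z i) |S| N.
-/

set_option autoImplicit false

open Finset Real MeasureTheory
open Pool.Agent.Lib.MP_2a816b_nt (e norm_e conj_e e_add e_neg)

namespace Pool.Agent.Lib.MP_570bef_ntWE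

open Pool.Agent.Lib.MP_570bef_ntWD

private theorem Win_sum2 {k : ℕ} (hk : 2 ≤ k) {b : ℝ} (hb : 0 ≤ b) :
    ∑ i : Fin (k + 1), max 0 (b * (1 - ((i : ℕ) : ℝ) / 2)) = 3 * b / 2 := by
  rw [Fin.sum_univ_eq_sum_range (fun i : ℕ => max 0 (b * (1 - (i : ℝ) / 2))) (k + 1),
    ← Finset.sum_range_add_sum_Ico _ (by omega : 2 ≤ k + 1)]
  have h1 : ∑ i ∈ Finset.Ico 2 (k + 1), max 0 (b * (1 - (i : ℝ) / 2)) = 0 := by
    refine Finset.sum_eq_zero fun i hi => ?_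
    rw [Finset.mem_Ico] at hi
    have h2 : (2 : ℝ) ≤ i := by exact_mod_cast hi.1
    exact max_eq_left (mul_nonpos_of_nonneg_of_nonpos hb (by linarith))
  rw [h1, Finset.sum_range_succ, Finset.sum_range_one, max_eq_right (by
    rw [Nat.cast_zero]
    linarith), max_eq_right (by
    rw [Nat.cast_one]
    linarith), Nat.cast_zero, Nat.cast_one]
  ring

theorem win2 {k : ℕ} {r : ℕ → ℝ} {η : ℝ} (h : Bl k 2 (k - 1) (fun _ => 2) r η) (hk : 8 ≤ k)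
    (v : ℕ) : ∃ C Q₀ : ℝ, 0 < C ∧ 2 ≤ Q₀ ∧ ∀ Q : ℝ, Q₀ ≤ Q → ∀ ε b ω β₁ : ℝ, 0 < ε → ε ≤ 1 / 4 →
      la (k - 1) v ≤ ε → 2 ≤ b → b ≤ 3 / 2 * ((k : ℝ) - 1) → 0 ≤ ω → 0 ≤ β₁ → β₁ ≤ 1 →
      ∀ R : Finset ℝ, (∀ τ ∈ R, 0 ≤ τ ∧ τ ≤ Q ^ (1 - b / 2)) →
      (∀ τ ∈ R, ∀ τ' ∈ R, τ ≠ τ' → 2 * Q ^ (1 - b) < |τ - τ'|) →
      (∀ τ ∈ R, ∃ ξ : ℝ, Q ^ (b - k) ≤ |ξ| ∧ |ξ| ≤ 2 * Q ^ (b - k) ∧
        ((blk (k - 1) (fun _ => 2) r η Q v).card : ℝ) * Q ^ (-(ω * b)) ≤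
          ‖Es k (β₁ + τ) (blk (k - 1) (fun _ => 2) r η Q v) ξ‖) →
      (R.card : ℝ) ≤ C * Q ^ (2 * ω * b + 2 + max 0 (b - ((k : ℝ) - 1) * (1 - ε))) := by
  classical
  obtain ⟨C0, hC0, hdls⟩ := dls (k + 1)
  obtain ⟨C1, P1, hC1, hP1, hcnt⟩ := cnt_BC h hk v
  obtain ⟨c2, P2, hc2, hP2, hcard⟩ := blk_card h v
  have hj0 : (0 : ℝ) < 2 := by norm_num
  obtain ⟨s, hs⟩ : ∃ s : ℕ, s = ∑ _l ∈ range v, 2 := ⟨_, rfl⟩
  obtain ⟨CZ, hCZ⟩ : ∃ CZ : ℝ, CZ = 2 ^ k * (s : ℝ) + 1 := ⟨_, rfl⟩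
  have hCZ1 : 1 ≤ CZ := by
    rw [hCZ]
    have : (0 : ℝ) ≤ 2 ^ k * (s : ℝ) := by positivity
    linarith
  have hCZ0 : 0 < CZ := lt_of_lt_of_le one_pos hCZ1
  refine ⟨C0 * (2 * CZ) ^ (k + 1) * C1, max 2 (max P1 P2), by positivity, le_max_left _ _, ?_⟩
  intro P hP ε b ω β₁ hε hε4 hla hjb hbk hω hβ₁ hβ₁' R hR hsep hbad
  have hP2' : 2 ≤ P := (le_max_left _ _).trans hP
  have hPP1 : P1 ≤ P := ((le_max_left _ _).trans (le_max_right _ _)).trans hP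
  have hPP2 : P2 ≤ P := ((le_max_right _ _).trans (le_max_right _ _)).trans hP
  have hP0 : 0 < P := by linarith
  have hP1' : 1 ≤ P := by linarith
  have hb0 : 0 ≤ b := hj0.le.trans hjb
  obtain ⟨S, hS⟩ : ∃ S : Finset (List ℕ), S = blk (k - 1) (fun _ => 2) r η P v := ⟨_, rfl⟩
  rw [← hS] at hbad
  have hSc : 0 < (S.card : ℝ) := by
    have h1 := hcard P hPP2
    rw [hS]
    exact lt_of_lt_of_le (mul_pos hc2 (Real.rpow_pos_of_pos hP0 _)) h1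
  have hR1 : ∀ τ ∈ R, τ ≤ 1 := by
    intro τ hτ
    refine (hR τ hτ).2.trans ?_
    have h1 : 1 - b / 2 ≤ 0 := by
      have := (one_le_div hj0).mpr hjb
      linarith
    exact Real.rpow_le_one_of_one_le_of_nonpos hP1' h1
  -- the frequencies
  have hξ : ∀ τ : ℝ, τ ∈ R → ∃ ξ : ℝ, P ^ (b - k) ≤ ξ ∧ ξ ≤ 2 * P ^ (b - k) ∧
      (S.card : ℝ) * P ^ (-(ω * b)) ≤ ‖Es k (β₁ + τ) S ξ‖ := by
    intro τ hτ
    obtain ⟨ξ, h1, h2, h3⟩ := hbad τ hτ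
    refine ⟨|ξ|, h1, h2, ?_⟩
    rcases abs_choice ξ with h4 | h4
    · rw [h4]
      exact h3
    · rw [h4, Es_norm_neg]
      exact h3
  choose! ξ hξ1 hξ2 hξ3 using hξ
  have hξ0 : ∀ τ ∈ R, 0 < ξ τ := fun τ hτ => lt_of_lt_of_le (Real.rpow_pos_of_pos hP0 _) (hξ1 τ hτ)
  obtain ⟨y, hy⟩ : ∃ y : ℝ → Fin (k + 1) → ℝ, y = fun (τ : ℝ) (i : Fin (k + 1)) => ξ τ * τ ^ (i : ℕ) := ⟨_, rfl⟩
  obtain ⟨z, hz⟩ : ∃ z : List ℕ → Fin (k + 1) → ℝ,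
      z = fun (x : List ℕ) (i : Fin (k + 1)) => (k.choose (i : ℕ) : ℝ) * Ps (k - (i : ℕ)) β₁ x := ⟨_, rfl⟩
  obtain ⟨Y, hY⟩ : ∃ Y : Fin (k + 1) → ℝ,
      Y = fun (i : Fin (k + 1)) => 2 * P ^ (-((k : ℝ) - ((i : ℕ) : ℝ)) + max 0 (b * (1 - ((i : ℕ) : ℝ) / 2))) := ⟨_, rfl⟩
  obtain ⟨Z, hZ⟩ : ∃ Z : Fin (k + 1) → ℝ, Z = fun (i : Fin (k + 1)) => CZ * P ^ ((k : ℝ) - ((i : ℕ) : ℝ)) := ⟨_, rfl⟩
  have hY0 : ∀ i, 0 < Y i := by
    intro i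
    rw [hY]
    have := Real.rpow_pos_of_pos hP0 (-((k : ℝ) - ((i : ℕ) : ℝ)) + max 0 (b * (1 - ((i : ℕ) : ℝ) / 2)))
    positivity
  have hZ0 : ∀ i, 0 < Z i := by
    intro i
    rw [hZ]
    exact mul_pos hCZ0 (Real.rpow_pos_of_pos hP0 _)
  have hYZ : ∀ i, Y i * Z i = 2 * CZ * P ^ (max 0 (b * (1 - ((i : ℕ) : ℝ) / 2))) := by
    intro i
    rw [hY, hZ]
    have h1 : P ^ (max 0 (b * (1 - ((i : ℕ) : ℝ) / 2))) =
        P ^ (-((k : ℝ) - ((i : ℕ) : ℝ)) + max 0 (b * (1 - ((i : ℕ) : ℝ) / 2))) * P ^ ((k : ℝ) - ((i : ℕ) : ℝ)) := by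
      rw [← Real.rpow_add hP0]
      congr 1
      ring
    rw [h1]
    ring
  have hYZ1 : ∀ i, 1 ≤ Y i * Z i := by
    intro i
    rw [hYZ]
    have h1 : 1 ≤ P ^ (max 0 (b * (1 - ((i : ℕ) : ℝ) / 2))) :=
      Real.one_le_rpow hP1' (le_max_left _ _)
    nlinarith [h1, hCZ1]
  have hzb : ∀ x ∈ S, ∀ i, |z x i| ≤ Z i := by
    intro x hx i
    have hx' : x ∈ blk (k - 1) (fun _ => 2) r η P v := by
      rw [hS] at hx
      exact hx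
    have hl : x.length = s := by
      rw [hs]
      exact blk_len (k - 1) (fun _ => 2) r η P v x hx'
    obtain ⟨h1, h2⟩ := Ps_bound hl hβ₁ hβ₁' hP2' (fun a ha => blk_entry h hP1' v hx' ha) (k - (i : ℕ))
    have hik : (i : ℕ) ≤ k := Nat.lt_succ_iff.mp i.isLt
    have h3 : P ^ (k - (i : ℕ)) = P ^ ((k : ℝ) - ((i : ℕ) : ℝ)) := by
      rw [← Nat.cast_sub hik, Real.rpow_natCast]
    have h4 : ((k.choose (i : ℕ) : ℕ) : ℝ) ≤ 2 ^ k := by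
      exact_mod_cast Nat.choose_le_two_pow k (i : ℕ)
    rw [hz, hZ]
    simp only
    rw [abs_of_nonneg (mul_nonneg (Nat.cast_nonneg _) h1), ← h3]
    calc ((k.choose (i : ℕ) : ℕ) : ℝ) * Ps (k - (i : ℕ)) β₁ x ≤ 2 ^ k * (s * P ^ (k - (i : ℕ))) :=
          mul_le_mul h4 h2 h1 (by positivity)
      _ = (2 ^ k * (s : ℝ)) * P ^ (k - (i : ℕ)) := by ring
      _ ≤ CZ * P ^ (k - (i : ℕ)) := by
          apply mul_le_mul_of_nonneg_right _ (by positivity)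
          rw [hCZ]
          linarith
  have hyb : ∀ τ ∈ R, ∀ i, |y τ i| ≤ Y i := by
    intro τ hτ i
    obtain ⟨hτ0, hτ1⟩ := hR τ hτ
    rw [hy, hY]
    simp only
    rw [abs_of_nonneg (mul_nonneg (hξ0 τ hτ).le (pow_nonneg hτ0 _))]
    calc ξ τ * τ ^ (i : ℕ) ≤ (2 * P ^ (b - k)) * (P ^ (1 - b / 2)) ^ (i : ℕ) :=
          mul_le_mul (hξ2 τ hτ) (pow_le_pow_left₀ hτ0 hτ1 _) (pow_nonneg hτ0 _)
            (by have := Real.rpow_pos_of_pos hP0 (b - k); positivity)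
      _ = 2 * P ^ (-((k : ℝ) - ((i : ℕ) : ℝ)) + b * (1 - ((i : ℕ) : ℝ) / 2)) := by
          rw [← Real.rpow_natCast, ← Real.rpow_mul hP0.le, mul_assoc, ← Real.rpow_add hP0]
          congr 2
          field_simp
          ring
      _ ≤ 2 * P ^ (-((k : ℝ) - ((i : ℕ) : ℝ)) + max 0 (b * (1 - ((i : ℕ) : ℝ) / 2))) := by
          apply mul_le_mul_of_nonneg_left _ (by norm_num)
          apply Real.rpow_le_rpow_of_exponent_le hP1'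
          have := le_max_right 0 (b * (1 - ((i : ℕ) : ℝ) / 2))
          linarith
  have hsep' : ∀ τ ∈ R, ∀ τ' ∈ R, τ ≠ τ' → ∃ i, 1 / Z i < |y τ i - y τ' i| := by
    intro τ hτ τ' hτ' hne
    by_contra hcon
    push Not at hcon
    have hk1 : 1 < k + 1 := by omega
    have e0 := hcon ⟨0, by omega⟩
    have e1 := hcon ⟨1, hk1⟩
    rw [hy, hZ] at e0 e1
    simp only [pow_zero, mul_one, pow_one, Nat.cast_zero, sub_zero, Nat.cast_one] at e0 e1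
    have hk0 : 1 / (CZ * P ^ (k : ℝ)) ≤ P ^ (-(k : ℝ)) := by
      rw [Real.rpow_neg hP0.le, one_div]
      apply inv_anti₀ (Real.rpow_pos_of_pos hP0 _)
      have := Real.rpow_pos_of_pos hP0 (k : ℝ)
      nlinarith
    have hk1' : 1 / (CZ * P ^ ((k : ℝ) - 1)) ≤ P ^ (1 - (k : ℝ)) := by
      have h1 : P ^ (1 - (k : ℝ)) = (P ^ ((k : ℝ) - 1))⁻¹ := by
        rw [← Real.rpow_neg hP0.le]
        congr 1
        ring
      rw [h1, one_div]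
      apply inv_anti₀ (Real.rpow_pos_of_pos hP0 _)
      have := Real.rpow_pos_of_pos hP0 ((k : ℝ) - 1)
      nlinarith
    have hkk : P ^ (-(k : ℝ)) ≤ P ^ (1 - (k : ℝ)) :=
      Real.rpow_le_rpow_of_exponent_le hP1' (by linarith)
    have hτ'1 : |τ'| ≤ 1 := by
      rw [abs_of_nonneg (hR τ' hτ').1]
      exact hR1 τ' hτ'
    have h1 : ξ τ * |τ - τ'| ≤ 2 * P ^ (1 - (k : ℝ)) := by
      have h2 : ξ τ * |τ - τ'| = |(ξ τ * τ - ξ τ' * τ') - (ξ τ - ξ τ') * τ'| := by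
        rw [← abs_of_pos (hξ0 τ hτ), ← abs_mul, abs_of_pos (hξ0 τ hτ)]
        congr 1
        ring
      rw [h2]
      calc |(ξ τ * τ - ξ τ' * τ') - (ξ τ - ξ τ') * τ'| ≤ |ξ τ * τ - ξ τ' * τ'| + |(ξ τ - ξ τ') * τ'| := abs_sub _ _
        _ ≤ P ^ (1 - (k : ℝ)) + P ^ (-(k : ℝ)) * 1 := by
            rw [abs_mul]
            exact add_le_add (e1.trans hk1') (mul_le_mul (e0.trans hk0) hτ'1 (abs_nonneg _)
              (Real.rpow_pos_of_pos hP0 _).le)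
        _ ≤ 2 * P ^ (1 - (k : ℝ)) := by linarith
    have h2 : P ^ (b - k) * |τ - τ'| ≤ 2 * P ^ (1 - (k : ℝ)) :=
      (mul_le_mul_of_nonneg_right (hξ1 τ hτ) (abs_nonneg _)).trans h1
    have h3 := hsep τ hτ τ' hτ' hne
    have h4 : 2 * P ^ (1 - (k : ℝ)) = P ^ (b - k) * (2 * P ^ (1 - b)) := by
      have : P ^ (1 - (k : ℝ)) = P ^ (b - k) * P ^ (1 - b) := by
        rw [← Real.rpow_add hP0]
        congr 1
        ring
      rw [this]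
      ring
    rw [h4] at h2
    exact absurd (le_of_mul_le_mul_left h2 (Real.rpow_pos_of_pos hP0 _)) (not_le.mpr h3)
  have hinj : Set.InjOn y (R : Set ℝ) := by
    intro τ hτ τ' hτ' he
    by_contra hne
    obtain ⟨i, hi⟩ := hsep' τ hτ τ' hτ' hne
    rw [he, sub_self, abs_zero] at hi
    have := div_pos one_pos (hZ0 i)
    linarith
  obtain ⟨N, hN⟩ : ∃ N : ℝ, N = C1 * (S.card : ℝ) *
      P ^ (-(3 * b / 2) + 2 + max 0 (b - ((k : ℝ) - 1) * (1 - ε))) := ⟨_, rfl⟩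
  have hmain := hdls Y Z hY0 hZ0 hYZ1 S z hzb (R.image y) (by
    intro w hw i
    obtain ⟨τ, hτ, rfl⟩ := Finset.mem_image.mp hw
    exact hyb τ hτ i) (by
    intro w hw w' hw' hne
    obtain ⟨τ, hτ, rfl⟩ := Finset.mem_image.mp hw
    obtain ⟨τ', hτ', rfl⟩ := Finset.mem_image.mp hw'
    exact hsep' τ hτ τ' hτ' (fun he => hne (by rw [he]))) N (by
    intro c
    have h1 := hcnt P hPP1 β₁ hβ₁ hβ₁' ε b hε hε4 hla hb0 hbk
      (fun i => if hi : i < k + 1 then c ⟨i, hi⟩ / (k.choose i : ℝ) else 0)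
    rw [← hS, ← hN] at h1
    refine le_trans ?_ h1
    unfold Nm
    refine Nat.cast_le.mpr (Finset.card_le_card fun x hx => ?_)
    rw [Finset.mem_filter] at hx ⊢
    refine ⟨hx.1, fun i hi => ?_⟩
    have hik : i < k + 1 := by omega
    have hch : (1 : ℝ) ≤ (k.choose i : ℝ) := by
      exact_mod_cast Nat.choose_pos (by omega : i ≤ k)
    have hch0 : (0 : ℝ) < (k.choose i : ℝ) := lt_of_lt_of_le one_pos hch
    have h2 := hx.2 ⟨i, hik⟩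
    rw [hz, hY] at h2
    simp only at h2
    beta_reduce
    rw [dif_pos hik]
    have h3 : |Ps (k - i) β₁ x - c ⟨i, hik⟩ / (k.choose i : ℝ)| ≤
        |(k.choose i : ℝ) * Ps (k - i) β₁ x - c ⟨i, hik⟩| := by
      have h4 : (k.choose i : ℝ) * Ps (k - i) β₁ x - c ⟨i, hik⟩ =
          (k.choose i : ℝ) * (Ps (k - i) β₁ x - c ⟨i, hik⟩ / (k.choose i : ℝ)) := by
        field_simp
      rw [h4, abs_mul, abs_of_pos hch0]
      exact le_mul_of_one_le_left (abs_nonneg _) hch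
    refine h3.trans (h2.trans ?_)
    have h5 : 1 / (2 * P ^ (-((k : ℝ) - (i : ℝ)) + max 0 (b * (1 - (i : ℝ) / 2)))) =
        1 / 2 * P ^ ((k : ℝ) - (i : ℝ) - max 0 (b * (1 - (i : ℝ) / 2))) := by
      have h6 : P ^ ((k : ℝ) - (i : ℝ) - max 0 (b * (1 - (i : ℝ) / 2))) =
          (P ^ (-((k : ℝ) - (i : ℝ)) + max 0 (b * (1 - (i : ℝ) / 2))))⁻¹ := by
        rw [← Real.rpow_neg hP0.le]
        congr 1
        ring
      rw [h6]
      field_simp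
    rw [h5]
    have h7 : P ^ ((k : ℝ) - (i : ℝ) - max 0 (b * (1 - (i : ℝ) / 2))) ≤
        P ^ ((k : ℝ) - (i : ℝ) - b * (1 - (i : ℝ) / 2)) := by
      apply Real.rpow_le_rpow_of_exponent_le hP1'
      have := le_max_right 0 (b * (1 - (i : ℝ) / 2))
      linarith
    have h8 := Real.rpow_pos_of_pos hP0 ((k : ℝ) - (i : ℝ) - max 0 (b * (1 - (i : ℝ) / 2)))
    linarith)
  rw [Finset.sum_image hinj] at hmain
  have hprod : ∏ i, Y i * Z i = (2 * CZ) ^ (k + 1) * P ^ (3 * b / 2) := by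
    rw [← Win_sum2 (by omega : 2 ≤ k) hb0, Real.rpow_sum_of_pos hP0, Finset.prod_congr rfl (fun i _ => hYZ i),
      Finset.prod_mul_distrib, Finset.prod_const, Finset.card_univ, Fintype.card_fin]
  have hlow : ∀ τ ∈ R, ((S.card : ℝ) * P ^ (-(ω * b))) ^ 2 ≤ ‖∑ x ∈ S, e (∑ i, y τ i * z x i)‖ ^ 2 := by
    intro τ hτ
    have h1 : ∑ x ∈ S, e (∑ i, y τ i * z x i) = Es k (β₁ + τ) S (ξ τ) := by
      unfold Es
      refine Finset.sum_congr rfl fun x _ => ?_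
      rw [Ps_shift, Finset.mul_sum]
      congr 1
      refine Finset.sum_congr rfl fun i _ => ?_
      rw [hy, hz]
      ring
    rw [h1]
    exact pow_le_pow_left₀ (by have := Real.rpow_pos_of_pos hP0 (-(ω * b)); positivity) (hξ3 τ hτ) 2
  have hsum := Finset.card_nsmul_le_sum R _ _ hlow
  rw [nsmul_eq_mul] at hsum
  have hall := hsum.trans hmain
  rw [hprod, hN] at hall
  have hpw : P ^ (3 * b / 2) * P ^ (-(3 * b / 2) + 2 + max 0 (b - ((k : ℝ) - 1) * (1 - ε))) =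
      P ^ (2 + max 0 (b - ((k : ℝ) - 1) * (1 - ε))) := by
    rw [← Real.rpow_add hP0]
    congr 1
    ring
  have hpw2 : (P ^ (-(ω * b))) ^ 2 * P ^ (2 * ω * b + 2 + max 0 (b - ((k : ℝ) - 1) * (1 - ε))) =
      P ^ (2 + max 0 (b - ((k : ℝ) - 1) * (1 - ε))) := by
    rw [← Real.rpow_natCast, ← Real.rpow_mul hP0.le, ← Real.rpow_add hP0]
    congr 1
    push_cast
    ring
  have hA := Real.rpow_pos_of_pos hP0 (-(ω * b))
  have hfin : ((S.card : ℝ) ^ 2 * (P ^ (-(ω * b))) ^ 2) * (R.card : ℝ) ≤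
      ((S.card : ℝ) ^ 2 * (P ^ (-(ω * b))) ^ 2) *
        (C0 * (2 * CZ) ^ (k + 1) * C1 * P ^ (2 * ω * b + 2 + max 0 (b - ((k : ℝ) - 1) * (1 - ε)))) := by
    calc ((S.card : ℝ) ^ 2 * (P ^ (-(ω * b))) ^ 2) * (R.card : ℝ)
        = (R.card : ℝ) * ((S.card : ℝ) * P ^ (-(ω * b))) ^ 2 := by ring
      _ ≤ C0 * ((2 * CZ) ^ (k + 1) * P ^ (3 * b / 2)) * S.card * (C1 * (S.card : ℝ) *
          P ^ (-(3 * b / 2) + 2 + max 0 (b - ((k : ℝ) - 1) * (1 - ε)))) := hall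
      _ = (C0 * (2 * CZ) ^ (k + 1) * C1) * (S.card : ℝ) ^ 2 * (P ^ (3 * b / 2) *
          P ^ (-(3 * b / 2) + 2 + max 0 (b - ((k : ℝ) - 1) * (1 - ε)))) := by ring
      _ = ((S.card : ℝ) ^ 2 * (P ^ (-(ω * b))) ^ 2) *
        (C0 * (2 * CZ) ^ (k + 1) * C1 * P ^ (2 * ω * b + 2 + max 0 (b - ((k : ℝ) - 1) * (1 - ε)))) := by
          rw [hpw, ← hpw2]
          ring
  exact le_of_mul_le_mul_left hfin (by positivity)

end Pool.Agent.Lib.MP_570bef_ntWE
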