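import Mathlib
import Pool.Agent.Lib.MP_570bef_ntWE.Win

/-!
# LvW: the bad shifts seen from the level l (medium)

λ = la (k-1) l, x = xl k b l = b - (1-λ) k ≥ 4, Q = P^λ, v' = v - l, β ∈ Sb. BC k r η v P = blk (k-1) (fun _ => 2) r η P (l + v'), so by
sub_bad (σ = P^(-(ωb)); blk P l is not empty for large P: blk_card) each τ ∈ R has ξ with P^(b-k) ≤ |ξ| ≤ 2 P^(b-k) and
|blk Q v'| P^(-(ωb)) ≤ ‖Es k (β₁+τ) (blk Q v') ξ‖. Apply win2 to Q, v', b' = x/λ, ω' = ω b/x, ε = κ/λ: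
Q^(b'-k) = P^(x - λ k) = P^(b - k); Q^(1 - b'/2) = P^(λ - x/2); Q^(1-b') = P^(λ - x); Q^(-(ω' b')) = P^(-(ω b)). Conditions:
la (k-1) v' = la (k-1) v/λ ≤ κ/λ ≤ 1/4; b' ≥ x ≥ 2 (λ ≤ 1); b' = k - (k-b)/λ ≤ k + 1/(2λ) ≤ k + k/32 ≤ (3/2)(k-1), as λ ≥ 4κ ≥ 16/k (k ≥ 8).
Result in powers of P: λ (2 ω' b' + 2 + max 0 (b' - (k-1)(1-κ/λ))) = 2 ω b + 2 λ + max 0 (x - (k-1)(λ-κ)), and
x - (k-1)(λ-κ) = b - k + λ + (k-1) κ: ≤ 0 if b ≤ k/2 (κ ≤ 1/16, k ≥ 8); otherwise ≤ 1/2 + 1 + 2 κ b (k ≤ 2b, b ≤ k + 1/2). So the exponent is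
≤ (2ω+2κ) b + 4 (b ≥ 0 since x ≥ 4, λ ≤ 1). The constants: maximum over the finitely many l < v (Q ≥ Q₀ for P large: λ > 0, la_pos).
-/

set_option autoImplicit false

open Finset Real MeasureTheory
open Pool.Agent.Lib.MP_2a816b_nt (e norm_e conj_e e_add e_neg)

namespace Pool.Agent.Lib.MP_570bef_ntWE

open Pool.Agent.Lib.MP_570bef_ntWD

private theorem LvW_a {k lam κ b x : ℝ} (hk : 8 ≤ k) (h0 : 0 < lam) (h1 : lam ≤ 1)
    (hκ : 4 * κ ≤ lam) (hkκ : 4 ≤ k * κ) (hb : b ≤ k + 1 / 2) (hx : x = b - (1 - lam) * k) :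
    x / lam ≤ 3 / 2 * (k - 1) := by
  rw [div_le_iff₀ h0, hx]
  have h2 : 16 ≤ lam * k := by
    have h3 : 4 * κ * k ≤ lam * k := mul_le_mul_of_nonneg_right hκ (by linarith)
    linarith
  linarith

private theorem LvW_b {k lam κ b x ω : ℝ} (hk : 8 ≤ k) (h0 : 0 < lam) (h1 : lam ≤ 1)
    (hκ0 : 0 < κ) (hκ16 : κ ≤ 1 / 16) (hb : b ≤ k + 1 / 2) (hb0 : 0 < b)
    (hx : x = b - (1 - lam) * k) (hx0 : 0 < x) :
    lam * (2 * (ω * b / x) * (x / lam) + 2 + max 0 (x / lam - (k - 1) * (1 - κ / lam))) ≤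
      (2 * ω + 2 * κ) * b + 4 := by
  have e1 : lam * (2 * (ω * b / x) * (x / lam)) = 2 * ω * b := by field_simp
  have e2 : lam * (x / lam - (k - 1) * (1 - κ / lam)) = x - (k - 1) * (lam - κ) := by
    field_simp
  have e3 : lam * max 0 (x / lam - (k - 1) * (1 - κ / lam)) ≤ 2 * κ * b + 4 - 2 * lam := by
    rw [mul_max_of_nonneg _ _ h0.le, mul_zero, e2]
    have hκb : 0 < κ * b := mul_pos hκ0 hb0
    refine max_le (by linarith) ?_
    rw [hx]
    rcases le_total b (k / 2) with h2 | h2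
    · have h3 : (k - 1) * κ ≤ (k - 1) * (1 / 16) :=
        mul_le_mul_of_nonneg_left hκ16 (by linarith)
      nlinarith
    · have h3 : k * κ ≤ 2 * b * κ := mul_le_mul_of_nonneg_right (by linarith) hκ0.le
      nlinarith
  calc lam * (2 * (ω * b / x) * (x / lam) + 2 + max 0 (x / lam - (k - 1) * (1 - κ / lam)))
      = lam * (2 * (ω * b / x) * (x / lam)) + 2 * lam +
        lam * max 0 (x / lam - (k - 1) * (1 - κ / lam)) := by ring
    _ ≤ (2 * ω + 2 * κ) * b + 4 := by rw [e1]; linarith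

theorem lev_win {k v t : ℕ} {r : ℕ → ℝ} {η κ : ℝ} (h : Cy k v t r η κ) :
    ∃ C P₀ : ℝ, 1 ≤ C ∧ 2 ≤ P₀ ∧ ∀ P : ℝ, P₀ ≤ P → ∀ l < v, ∀ b ω β₁ : ℝ,
      4 * κ ≤ la (k - 1) l → 4 ≤ xl k b l → b ≤ k + 1 / 2 → 0 ≤ ω → 0 ≤ β₁ → β₁ ≤ 1 →
      ∀ R : Finset ℝ, (∀ τ ∈ R, 0 ≤ τ ∧ τ ≤ P ^ (la (k - 1) l - xl k b l / 2)) →
      (∀ τ ∈ R, ∀ τ' ∈ R, τ ≠ τ' → 2 * P ^ (la (k - 1) l - xl k b l) < |τ - τ'|) →
      (∀ τ ∈ R, β₁ + τ ∈ Sb k r η v ω b P) →
      (R.card : ℝ) ≤ C * P ^ ((2 * ω + 2 * κ) * b + 4) := by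
  have hk1 : 2 ≤ k - 1 := by have := h.hk; omega
  have hk0 : 1 ≤ k - 1 := by omega
  have hkr : (8 : ℝ) ≤ (k : ℝ) := by exact_mod_cast h.hk
  choose C1 Q1 hC1 hQ1 hwin using fun l : ℕ => win2 (bl_BC h) h.hk (v - l)
  choose c2 P2 hc2 hP2 hcard using fun l : ℕ => blk_card (bl_BC h) l
  refine ⟨1 + ∑ l ∈ range v, C1 l, 2 + ∑ l ∈ range v, ((Q1 l) ^ (1 / la (k - 1) l) + P2 l),
    ?_, ?_, fun P hP l hl b ω β₁ hlκ hx hbk hω hβ0 hβ1 R hR1 hR2 hR3 => ?_⟩
  · have : 0 ≤ ∑ l ∈ range v, C1 l := Finset.sum_nonneg fun l _ => (hC1 l).le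
    linarith
  · have : 0 ≤ ∑ l ∈ range v, ((Q1 l) ^ (1 / la (k - 1) l) + P2 l) :=
      Finset.sum_nonneg fun l _ => by
        have h1 := hQ1 l
        have h2 := hP2 l
        have h3 : 0 ≤ (Q1 l) ^ (1 / la (k - 1) l) := Real.rpow_nonneg (by linarith) _
        linarith
    linarith
  · have hsum : (Q1 l) ^ (1 / la (k - 1) l) + P2 l ≤
        ∑ l ∈ range v, ((Q1 l) ^ (1 / la (k - 1) l) + P2 l) :=
      Finset.single_le_sum (f := fun l => (Q1 l) ^ (1 / la (k - 1) l) + P2 l) (fun i _ => by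
        have h1 := hQ1 i
        have h2 := hP2 i
        have h3 : 0 ≤ (Q1 i) ^ (1 / la (k - 1) i) := Real.rpow_nonneg (by linarith) _
        show 0 ≤ (Q1 i) ^ (1 / la (k - 1) i) + P2 i
        linarith) (mem_range.mpr hl)
    have hCle : C1 l ≤ 1 + ∑ l ∈ range v, C1 l := by
      have := Finset.single_le_sum (f := C1) (fun i _ => (hC1 i).le) (mem_range.mpr hl)
      linarith
    have hQ1l := hQ1 l
    have hP2l := hP2 l
    have hQ1p : 0 ≤ (Q1 l) ^ (1 / la (k - 1) l) := Real.rpow_nonneg (by linarith) _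
    have hP1 : 1 ≤ P := by linarith
    have hP0 : 0 < P := by linarith
    have hPP2 : P2 l ≤ P := by linarith
    have hPQ : (Q1 l) ^ (1 / la (k - 1) l) ≤ P := by linarith
    have hcardl : 0 < ((blk (k - 1) (fun _ => 2) r η P l).card : ℝ) := by
      refine lt_of_lt_of_le ?_ (hcard l P hPP2)
      have := hc2 l
      positivity
    have hlav : la (k - 1) v = la (k - 1) l * la (k - 1) (v - l) := by
      unfold la
      rw [← pow_add]
      congr 1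
      omega
    have hκ := h.hκ
    have hxd : xl k b l = b - (1 - la (k - 1) l) * k := rfl
    have hl0 : 0 < la (k - 1) l := la_pos hk1 l
    have hl1 : la (k - 1) l ≤ 1 := la_le_one hk0 l
    have hxb : xl k b l ≤ b := by
      rw [hxd]
      have : 0 ≤ (1 - la (k - 1) l) * k := mul_nonneg (by linarith) (by linarith)
      linarith
    have hx0 : 0 < xl k b l := by linarith
    have hb0 : 0 < b := by linarith
    have hQ : Q1 l ≤ P ^ la (k - 1) l := by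
      have h1 : ((Q1 l) ^ (1 / la (k - 1) l)) ^ la (k - 1) l = Q1 l := by
        rw [← Real.rpow_mul (by linarith), one_div, inv_mul_cancel₀ hl0.ne', Real.rpow_one]
      rw [← h1]
      exact Real.rpow_le_rpow hQ1p hPQ hl0.le
    have hpow : ∀ y : ℝ, (P ^ la (k - 1) l) ^ y = P ^ (la (k - 1) l * y) :=
      fun y => (Real.rpow_mul hP0.le _ _).symm
    have hlb : la (k - 1) l * (xl k b l / la (k - 1) l) = xl k b l := by field_simp
    have hmain := hwin l (P ^ la (k - 1) l) hQ (κ / la (k - 1) l) (xl k b l / la (k - 1) l)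
      (ω * b / xl k b l) β₁ (by positivity)
      (by rw [div_le_iff₀ hl0]; linarith)
      (by
        rw [le_div_iff₀ hl0, mul_comm, ← hlav]
        exact h.hv)
      (by
        rw [le_div_iff₀ hl0]
        linarith)
      (LvW_a hkr hl0 hl1 hlκ h.hkκ hbk hxd)
      (by positivity) hβ0 hβ1 R
      (fun τ hτ => by
        refine ⟨(hR1 τ hτ).1, (hR1 τ hτ).2.trans (le_of_eq ?_)⟩
        rw [hpow]
        congr 1
        rw [mul_sub, mul_one, mul_div_assoc', hlb])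
      (fun τ hτ τ' hτ' hne => by
        refine lt_of_eq_of_lt ?_ (hR2 τ hτ τ' hτ' hne)
        rw [hpow, mul_sub, mul_one, hlb])
      (fun τ hτ => by
        obtain ⟨-, -, ξ, h1, h2, h3⟩ := hR3 τ hτ
        have h4 : (P ^ la (k - 1) l) ^ (xl k b l / la (k - 1) l - (k : ℝ)) = P ^ (b - k) := by
          rw [hpow, mul_sub, hlb, hxd]
          congr 1
          ring
        have h5 : (P ^ la (k - 1) l) ^ (-(ω * b / xl k b l * (xl k b l / la (k - 1) l))) =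
            P ^ (-(ω * b)) := by
          rw [hpow]
          congr 1
          field_simp
        refine ⟨ξ, by rw [h4]; exact h1, by rw [h4]; exact h2, ?_⟩
        rw [h5]
        refine sub_bad (k - 1) 2 r η P hP0 l (v - l) k (β₁ + τ) ξ (P ^ (-(ω * b)))
          (by exact_mod_cast hcardl) ?_
        have h6 : l + (v - l) = v := by omega
        rw [h6]
        exact h3)
    refine hmain.trans ?_
    rw [hpow]
    refine mul_le_mul hCle (Real.rpow_le_rpow_of_exponent_le hP1 ?_) (by positivity) ?_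
    · exact LvW_b hkr hl0 hl1 hκ h.hκ16 hbk hb0 hxd hx0
    · have := hC1 l
      linarith

end Pool.Agent.Lib.MP_570bef_ntWE
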