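import Mathlib
import Pool.Agent.Lib.MP_570bef_ntWE.LvW
import Pool.Agent.Lib.MP_570bef_ntWE.Chn
import Pool.Agent.Lib.MP_570bef_ntWE.CvC

/-!
# CovA: covering of the bad shifts of one dyadic size (medium-)

L from levels, λ i = la (k-1) (L i), x i = xl k b (L i); chain_cover with S = Sb k r η v ω b P, ℓ i = P^(λ i - x i/2) (≤ 1: x i ≥ 4, λ i ≤ 1),
ρ i = 2 P^(λ i - x i), M = C1 P^((2ω+2κ) b + 4) (lev_win, C1 ≥ 1, so M ≥ 1), Λ = 4 P: 2 ρ (i+1) = 4 P^(λ (i+1) - x (i+1)) ≤ 4 P^(1 - x i/2) ≤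
4 P P^(λ i - x i/2). For i = 0: λ 0 = 1, x 0 = b: 2 ρ 0 = 4 P^(1-b). Count: 2/ℓ q = 2 P^(x q/2 - λ q) ≤ 2 P^(b/2^(q+1) + 2), (Λ+1) M ≤ 5 P M:
total ≤ 2 P^(b/2^(q+1) + 2) M^(q+1) (5P)^q = C P^(b/2^(q+1) + 2 + q + (q+1)((2ω+2κ) b + 4)).
-/

set_option autoImplicit false

open Finset Real MeasureTheory
open Pool.Agent.Lib.MP_2a816b_nt (e norm_e conj_e e_add e_neg)

namespace Pool.Agent.Lib.MP_570bef_ntWE

open Pool.Agent.Lib.MP_570bef_ntWD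

private theorem CovA_la {k : ℕ} (hk : 8 ≤ k) (l : ℕ) : 0 ≤ la (k - 1) l ∧ la (k - 1) l ≤ 1 := by
  unfold la
  have h1 : (1 : ℝ) ≤ ((k - 1 : ℕ) : ℝ) := by exact_mod_cast (by omega : 1 ≤ k - 1)
  have h2 : 1 / ((k - 1 : ℕ) : ℝ) ≤ 1 := by
    rw [div_le_one (by linarith)]
    exact h1
  have h3 : 0 ≤ 1 / ((k - 1 : ℕ) : ℝ) := by positivity
  exact ⟨pow_nonneg (by linarith) _, pow_le_one₀ (by linarith) (by linarith)⟩

theorem cov_one {k v t : ℕ} {r : ℕ → ℝ} {η κ : ℝ} (h : Cy k v t r η κ) (q : ℕ)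
    (hq : κ ≤ (1 / 2 : ℝ) ^ (q + 4)) (hkq : 2 ^ (q + 5) ≤ k) :
    ∃ C P₀ : ℝ, 0 < C ∧ 2 ≤ P₀ ∧ ∀ P : ℝ, P₀ ≤ P → ∀ b ω : ℝ, (2 : ℝ) ^ (q + 3) ≤ b →
      b ≤ k + 1 / 2 → 0 ≤ ω → ∃ F : Finset (ℝ × ℝ),
        Sb k r η v ω b P ⊆ ⋃ p ∈ F, Set.Icc p.1 (p.1 + p.2) ∧
        (∀ p ∈ F, p.2 = 4 * P ^ (1 - b)) ∧
        (F.card : ℝ) ≤
          C * P ^ (b / 2 ^ (q + 1) + ((q : ℝ) + 1) * ((2 * ω + 2 * κ) * b) + 5 * q + 6) := by
  classical
  obtain ⟨C1, P1, hC1, hP1, hw⟩ := lev_win h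
  refine ⟨2 * C1 ^ (q + 1) * 5 ^ q, P1, by positivity, hP1, ?_⟩
  intro P hP b ω hb hbk hω
  have hP2 : (2 : ℝ) ≤ P := hP1.trans hP
  have hP0 : 0 < P := by linarith
  have hPone : (1 : ℝ) ≤ P := by linarith
  have hb0 : 0 ≤ b := le_trans (by positivity) hb
  have hκ := h.hκ
  obtain ⟨L, hL0, hLi, hLs⟩ := levels h q hq hkq b hb hbk
  have hexp : 0 ≤ (2 * ω + 2 * κ) * b := mul_nonneg (by linarith) hb0
  obtain ⟨M, hM⟩ : ∃ M : ℝ, M = C1 * P ^ ((2 * ω + 2 * κ) * b + 4) := ⟨_, rfl⟩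
  have hM1 : 1 ≤ M := by
    rw [hM]
    have h1 : 1 ≤ P ^ ((2 * ω + 2 * κ) * b + 4) := Real.one_le_rpow hPone (by linarith)
    calc (1 : ℝ) = 1 * 1 := by ring
      _ ≤ C1 * P ^ ((2 * ω + 2 * κ) * b + 4) := mul_le_mul hC1 h1 (by norm_num) (by linarith)
  have hM0 : 0 ≤ M := by linarith
  obtain ⟨F, hF1, hF2, hF3⟩ := chain_cover (Sb k r η v ω b P) (fun x hx => ⟨hx.1, hx.2.1⟩) q
    (fun i => P ^ (la (k - 1) (L i) - xl k b (L i) / 2)) (fun i => 2 * P ^ (la (k - 1) (L i) - xl k b (L i)))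
    M (4 * P) hM1 (by linarith)
    (by
      intro i hi
      refine ⟨Real.rpow_pos_of_pos hP0 _, ?_⟩
      have h1 := (hLi i hi).2.2.1
      have h2 := (CovA_la h.hk (L i)).2
      exact Real.rpow_le_one_of_one_le_of_nonpos hPone (by linarith))
    (by
      intro i _
      positivity)
    (by
      intro i hi β₁ hβ hβ' R hR1 hR2 hR3
      rw [hM]
      exact hw P hP (L i) (hLi i hi).1 b ω β₁ (hLi i hi).2.1 (hLi i hi).2.2.1 hbk hω hβ hβ' R hR1 hR2 hR3)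
    (by
      intro i hi
      have h1 := hLs i hi
      have h2 := (CovA_la h.hk (L (i + 1))).2
      have h3 := (CovA_la h.hk (L i)).1
      have h4 : P ^ (la (k - 1) (L (i + 1)) - xl k b (L (i + 1))) ≤
          P ^ (1 + (la (k - 1) (L i) - xl k b (L i) / 2)) :=
        Real.rpow_le_rpow_of_exponent_le hPone (by linarith)
      rw [Real.rpow_add hP0, Real.rpow_one] at h4
      calc 2 * (2 * P ^ (la (k - 1) (L (i + 1)) - xl k b (L (i + 1))))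
          = 4 * P ^ (la (k - 1) (L (i + 1)) - xl k b (L (i + 1))) := by ring
        _ ≤ 4 * (P * P ^ (la (k - 1) (L i) - xl k b (L i) / 2)) := by linarith
        _ = 4 * P * P ^ (la (k - 1) (L i) - xl k b (L i) / 2) := by ring)
  have e0 : la (k - 1) (L 0) = 1 := by
    rw [hL0]
    unfold la
    rw [pow_zero]
  have e1 : xl k b (L 0) = b := by
    unfold xl
    rw [e0]
    ring
  refine ⟨F, hF1, ?_, ?_⟩
  · intro p hp
    have h1 := hF2 p hp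
    simp only [e0, e1] at h1
    rw [h1]
    ring
  · refine hF3.trans ?_
    have h1 : 2 / P ^ (la (k - 1) (L q) - xl k b (L q) / 2) ≤ 2 * P ^ (b / 2 ^ (q + 1) + 2) := by
      have h2 : 2 / P ^ (la (k - 1) (L q) - xl k b (L q) / 2) =
          2 * P ^ (-(la (k - 1) (L q) - xl k b (L q) / 2)) := by
        rw [Real.rpow_neg hP0.le, div_eq_mul_inv]
      rw [h2]
      refine mul_le_mul_of_nonneg_left (Real.rpow_le_rpow_of_exponent_le hPone ?_) (by norm_num)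
      have h3 := (hLi q le_rfl).2.2.2
      have h4 := (CovA_la h.hk (L q)).1
      have h5 : b / 2 ^ (q + 1) = b / 2 ^ q / 2 := by
        rw [pow_succ, div_div]
      rw [h5]
      linarith
    have h2 : M * ((4 * P + 1) * M) ^ q ≤ M ^ (q + 1) * (5 * P) ^ q := by
      rw [mul_pow, pow_succ M q]
      have h3 : (4 * P + 1) ^ q ≤ (5 * P) ^ q := pow_le_pow_left₀ (by linarith) (by linarith) _
      calc M * ((4 * P + 1) ^ q * M ^ q) = M ^ q * M * (4 * P + 1) ^ q := by ring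
        _ ≤ M ^ q * M * (5 * P) ^ q := mul_le_mul_of_nonneg_left h3 (by positivity)
    have h3 : 0 ≤ M * ((4 * P + 1) * M) ^ q := by positivity
    have h4 : (0 : ℝ) ≤ 2 * P ^ (b / 2 ^ (q + 1) + 2) := by positivity
    refine (mul_le_mul h1 h2 h3 h4).trans (le_of_eq ?_)
    have h5 : M ^ (q + 1) = C1 ^ (q + 1) * P ^ (((q : ℝ) + 1) * ((2 * ω + 2 * κ) * b + 4)) := by
      rw [hM, mul_pow, ← Real.rpow_mul_natCast hP0.le]
      congr 2
      push_cast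
      ring
    have h6 : P ^ (b / 2 ^ (q + 1) + ((q : ℝ) + 1) * ((2 * ω + 2 * κ) * b) + 5 * q + 6) =
        P ^ (b / 2 ^ (q + 1) + 2) * P ^ (((q : ℝ) + 1) * ((2 * ω + 2 * κ) * b + 4)) * P ^ q := by
      rw [← Real.rpow_natCast P q, ← Real.rpow_add hP0, ← Real.rpow_add hP0]
      congr 1
      ring
    rw [h5, h6, mul_pow]
    ring

end Pool.Agent.Lib.MP_570bef_ntWE
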