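import Mathlib
import Pool.Agent.Lib.MP_570bef_ntWE.CovA

/-!
# CovB: covering of all the bad shifts at one scale (easy+; model MP_570bef_ntWD/CovB.lean)

The proof of cov_all in MP_570bef_ntWD/CovB.lean. P ≥ P₀, P ≥ 2. For i ∈ ℕ let b_i = b₀ + i log 2/log P, so P^(b_i) = 2^i P^b₀. If β ∈ BadC
with ξ, choose i with 2^i P^(b₀-k) ≤ |ξ| < 2^(i+1) P^(b₀-k); then b_i ≤ k + 1/2 and i ≤ I := ⌊(k+1) log P/log 2⌋₊, and β ∈ Sb for b_i, because
2 (|ξ| P^k)^(-ω) ≥ P^(-(ω b_i)) (0 ≤ ω ≤ 1). Union of the F's of cov_one for the i ≤ I with b_i ≤ k + 1/2. p.2 = 4 P^(1-b_i) ≤ 4 P^(-1).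
g = s - 1/2^(q+1) - (q+1)(2ω+2κ): ∑_(p in F_i) p.2^s ≤ C P^(b/2^(q+1) + (q+1)(2ω+2κ) b + 5q + 6) 4^s P^(s(1-b)) ≤ 4 C P^(5q + 7 - b g) ≤
4 C P^(5q + 7 - b₀ g) ≤ 4 C P^(-2) (s ≤ 1). The number of i is ≤ C' P. Total ≤ C'' P^(-1).
-/

set_option autoImplicit false

open Finset Real MeasureTheory
open Pool.Agent.Lib.MP_2a816b_nt (e norm_e conj_e e_add e_neg)

namespace Pool.Agent.Lib.MP_570bef_ntWE

open Pool.Agent.Lib.MP_570bef_ntWD

private theorem CovB_sum {ι α : Type} [DecidableEq α] (S : Finset ι) (F : ι → Finset α) (f : α → ℝ)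
    (hf : ∀ i ∈ S, ∀ x ∈ F i, 0 ≤ f x) : ∑ x ∈ S.biUnion F, f x ≤ ∑ i ∈ S, ∑ x ∈ F i, f x := by
  classical
  induction S using Finset.induction_on with
  | empty => simp
  | insert i S hi ih =>
    rw [Finset.biUnion_insert, Finset.sum_insert hi]
    have h1 := Finset.sum_union_inter (s₁ := F i) (s₂ := S.biUnion F) (f := f)
    have h2 : 0 ≤ ∑ x ∈ F i ∩ S.biUnion F, f x := Finset.sum_nonneg fun x hx =>
      hf i (Finset.mem_insert_self i S) x (Finset.mem_of_mem_inter_left hx)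
    have h3 := ih fun i' hi' x hx => hf i' (Finset.mem_insert_of_mem hi') x hx
    linarith

theorem cov_all {k v t : ℕ} {r : ℕ → ℝ} {η κ : ℝ} (h : Cy k v t r η κ) (q : ℕ)
    (hq : κ ≤ (1 / 2 : ℝ) ^ (q + 4)) (hkq : 2 ^ (q + 5) ≤ k) (ω b₀ s : ℝ)
    (hω : 0 ≤ ω) (hω1 : ω ≤ 1) (hb : (2 : ℝ) ^ (q + 3) ≤ b₀) (hs : 0 < s) (hs1 : s ≤ 1)
    (hg : 0 < s - 1 / 2 ^ (q + 1) - ((q : ℝ) + 1) * (2 * ω + 2 * κ))
    (hgb : 5 * (q : ℝ) + 9 ≤ b₀ * (s - 1 / 2 ^ (q + 1) - ((q : ℝ) + 1) * (2 * ω + 2 * κ))) :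
    ∃ C P₀ : ℝ, 0 < C ∧ 2 ≤ P₀ ∧ ∀ P : ℝ, P₀ ≤ P → ∃ F : Finset (ℝ × ℝ),
      BadC k r η v ω b₀ P ⊆ ⋃ p ∈ F, Set.Icc p.1 (p.1 + p.2) ∧
      (∀ p ∈ F, 0 < p.2 ∧ p.2 ≤ C * P ^ (-1 : ℝ)) ∧
      ∑ p ∈ F, p.2 ^ s ≤ C * P ^ (-1 : ℝ) := by
  classical
  obtain ⟨C₁, P₁, hC₁, hP₁, hcov⟩ := cov_one h q hq hkq
  have hl2 : 0 < Real.log 2 := Real.log_pos (by norm_num)
  have hj2 : (2 : ℝ) ≤ b₀ := by
    have h1 : (2 : ℝ) ^ 1 ≤ (2 : ℝ) ^ (q + 3) := pow_le_pow_right₀ (by norm_num) (by omega)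
    linarith
  obtain ⟨A, hA⟩ : ∃ A : ℝ, A = ((k : ℝ) + 1) / Real.log 2 + 1 := ⟨_, rfl⟩
  have hA0 : 0 < A := by
    rw [hA]
    positivity
  refine ⟨4 * C₁ * A + 4, P₁, by positivity, hP₁, fun P hP => ?_⟩
  have hP2 : 2 ≤ P := hP₁.trans hP
  have hP0 : 0 < P := by linarith
  have hP1 : 1 < P := by linarith
  have hlP : 0 < Real.log P := Real.log_pos hP1
  obtain ⟨b, hbd⟩ : ∃ b : ℕ → ℝ, b = fun i : ℕ => b₀ + (i : ℝ) * Real.log 2 / Real.log P := ⟨_, rfl⟩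
  have hb0 : ∀ i, b₀ ≤ b i := fun i => by
    rw [hbd]
    have : 0 ≤ (i : ℝ) * Real.log 2 / Real.log P := by positivity
    linarith
  have hPb : ∀ i : ℕ, P ^ (b i) = 2 ^ i * P ^ b₀ := by
    intro i
    rw [hbd]
    simp only
    rw [Real.rpow_add hP0, mul_comm]
    congr 1
    rw [Real.rpow_def_of_pos hP0]
    have e1 : Real.log P * ((i : ℝ) * Real.log 2 / Real.log P) = (i : ℝ) * Real.log 2 := by
      field_simp
    rw [e1, Real.exp_nat_mul, Real.exp_log (by norm_num)]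
  choose! F hF1 hF2 hF3 using fun i (hi : b i ≤ k + 1 / 2) => hcov P hP (b i) ω (hb.trans (hb0 i)) hi hω
  obtain ⟨I, hI⟩ : ∃ I : ℕ, I = ⌊((k : ℝ) + 1) * Real.log P / Real.log 2⌋₊ := ⟨_, rfl⟩
  refine ⟨((Finset.range (I + 1)).filter fun i => b i ≤ k + 1 / 2).biUnion F, ?_, ?_, ?_⟩
  · rintro β ⟨hβ0, hβ1, ξ, hξ1, hξ2, hξ3⟩
    have hq : 0 < P ^ (b₀ - k) := Real.rpow_pos_of_pos hP0 _
    obtain ⟨x, hx⟩ : ∃ x : ℝ, x = |ξ| / P ^ (b₀ - k) := ⟨_, rfl⟩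
    have hx1 : 1 ≤ x := by
      rw [hx, le_div_iff₀ hq, one_mul]
      exact hξ1
    obtain ⟨i, hi⟩ : ∃ i : ℕ, i = ⌊Real.log x / Real.log 2⌋₊ := ⟨_, rfl⟩
    have hlx : 0 ≤ Real.log x / Real.log 2 := div_nonneg (Real.log_nonneg hx1) hl2.le
    have hi1 : (2 : ℝ) ^ i ≤ x := by
      have h1 : (i : ℝ) ≤ Real.log x / Real.log 2 := by
        rw [hi]
        exact Nat.floor_le hlx
      rw [le_div_iff₀ hl2] at h1
      have h2 : Real.log ((2 : ℝ) ^ i) ≤ Real.log x := by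
        rw [Real.log_pow]
        exact h1
      exact (Real.log_le_log_iff (by positivity) (by linarith)).1 h2
    have hi2 : x < (2 : ℝ) ^ (i + 1) := by
      have h1 : Real.log x / Real.log 2 < (i : ℝ) + 1 := by
        rw [hi]
        exact Nat.lt_floor_add_one _
      rw [div_lt_iff₀ hl2] at h1
      have h2 : Real.log x < Real.log ((2 : ℝ) ^ (i + 1)) := by
        rw [Real.log_pow]
        push_cast
        exact h1
      exact (Real.log_lt_log_iff (by linarith) (by positivity)).1 h2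
    have hPbk : P ^ (b i - k) = 2 ^ i * P ^ (b₀ - k) := by
      rw [Real.rpow_sub hP0, hPb, Real.rpow_sub hP0]
      ring
    have hξx : |ξ| = x * P ^ (b₀ - k) := by
      rw [hx]
      field_simp
    have h1 : P ^ (b i - k) ≤ |ξ| := by
      rw [hPbk, hξx]
      exact mul_le_mul_of_nonneg_right hi1 hq.le
    have h2 : |ξ| ≤ 2 * P ^ (b i - k) := by
      rw [hPbk, hξx, ← mul_assoc, ← pow_succ']
      exact mul_le_mul_of_nonneg_right hi2.le hq.le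
    have h3 : b i ≤ k + 1 / 2 := by
      have h4 : P ^ (b i - k) ≤ P ^ (1 / 2 : ℝ) := h1.trans hξ2
      have h5 := (Real.rpow_le_rpow_left_iff hP1).1 h4
      linarith
    have h3' : b i ≤ k + 1 := by linarith
    have h6 : i ≤ I := by
      rw [hI]
      apply Nat.le_floor
      rw [le_div_iff₀ hl2]
      have h7 : (i : ℝ) * Real.log 2 / Real.log P ≤ k + 1 := by
        have h8 : b i = b₀ + i * Real.log 2 / Real.log P := by rw [hbd]
        linarith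
      rwa [div_le_iff₀ hlP] at h7
    have h7 : |ξ| * P ^ (k : ℝ) ≤ 2 * P ^ (b i) := by
      have h8 : P ^ (b i) = P ^ (b i - k) * P ^ (k : ℝ) := by
        rw [← Real.rpow_add hP0]
        congr 1
        ring
      rw [h8, ← mul_assoc]
      exact mul_le_mul_of_nonneg_right h2 (by positivity)
    have hξ0 : 0 < |ξ| := lt_of_lt_of_le hq hξ1
    have h8 : (2 * P ^ (b i)) ^ (-ω) ≤ (|ξ| * P ^ (k : ℝ)) ^ (-ω) :=
      Real.rpow_le_rpow_of_nonpos (by positivity) h7 (by linarith)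
    have h9 : P ^ (-(ω * b i)) ≤ 2 * (2 * P ^ (b i)) ^ (-ω) := by
      rw [Real.mul_rpow (by norm_num) (by positivity), ← Real.rpow_mul hP0.le]
      have h10 : (1 : ℝ) ≤ 2 * 2 ^ (-ω) := by
        have h11 : (2 : ℝ) * 2 ^ (-ω) = 2 ^ (1 - ω) := by
          rw [sub_eq_add_neg, Real.rpow_add (by norm_num), Real.rpow_one]
        rw [h11]
        exact Real.one_le_rpow (by norm_num) (by linarith)
      have h12 : b i * -ω = -(ω * b i) := by ring
      rw [h12, ← mul_assoc]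
      exact le_mul_of_one_le_left (by positivity) h10
    have h10 : ((BC k r η v P).card : ℝ) * P ^ (-(ω * b i)) ≤ ‖Es k β (BC k r η v P) ξ‖ := by
      refine le_trans ?_ hξ3.le
      have h11 : (0 : ℝ) ≤ ((BC k r η v P).card : ℝ) := Nat.cast_nonneg _
      calc ((BC k r η v P).card : ℝ) * P ^ (-(ω * b i))
          ≤ ((BC k r η v P).card : ℝ) * (2 * (|ξ| * P ^ (k : ℝ)) ^ (-ω)) :=
            mul_le_mul_of_nonneg_left (h9.trans (mul_le_mul_of_nonneg_left h8 (by norm_num))) h11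
        _ = 2 * ((BC k r η v P).card : ℝ) * (|ξ| * P ^ (k : ℝ)) ^ (-ω) := by ring
    have h11 := hF1 i h3 (show β ∈ _ from ⟨hβ0, hβ1, ξ, h1, h2, h10⟩)
    obtain ⟨p, hp, hp'⟩ := Set.mem_iUnion₂.1 h11
    refine Set.mem_iUnion₂.2 ⟨p, Finset.mem_biUnion.2 ⟨i, Finset.mem_filter.2 ⟨?_, h3⟩, hp⟩, hp'⟩
    exact Finset.mem_range.2 (by omega)
  · intro p hp
    obtain ⟨i, hi, hp⟩ := Finset.mem_biUnion.1 hp
    rw [hF2 i (Finset.mem_filter.1 hi).2 p hp]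
    refine ⟨by positivity, ?_⟩
    have h1 : P ^ (1 - b i) ≤ P ^ (-1 : ℝ) := by
      apply Real.rpow_le_rpow_of_exponent_le hP1.le
      have := hb0 i
      linarith
    have h2 : 0 < P ^ (-1 : ℝ) := by positivity
    have h3 : 0 ≤ 4 * C₁ * A := by positivity
    nlinarith
  · refine (CovB_sum _ F (fun p => p.2 ^ s) ?_).trans ?_
    · intro i hi x hx
      show 0 ≤ x.2 ^ s
      rw [hF2 i (Finset.mem_filter.1 hi).2 x hx]
      positivity
    have hterm : ∀ i ∈ (Finset.range (I + 1)).filter fun i => b i ≤ k + 1 / 2,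
        ∑ x ∈ F i, x.2 ^ s ≤ 4 * C₁ * P ^ (-2 : ℝ) := by
      intro i hi
      have hi' := (Finset.mem_filter.1 hi).2
      have e1 : ∑ x ∈ F i, x.2 ^ s = ((F i).card : ℝ) * (4 * P ^ (1 - b i)) ^ s := by
        rw [Finset.sum_congr rfl fun x hx => by rw [hF2 i hi' x hx], Finset.sum_const, nsmul_eq_mul]
      have e2 : (4 * P ^ (1 - b i)) ^ s ≤ 4 * P ^ ((1 - b i) * s) := by
        rw [Real.mul_rpow (by norm_num) (by positivity), ← Real.rpow_mul hP0.le]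
        refine mul_le_mul_of_nonneg_right ?_ (by positivity)
        calc (4 : ℝ) ^ s ≤ 4 ^ (1 : ℝ) := Real.rpow_le_rpow_of_exponent_le (by norm_num) hs1
          _ = 4 := Real.rpow_one 4
      have e3 : (b i / 2 ^ (q + 1) + ((q : ℝ) + 1) * ((2 * ω + 2 * κ) * b i) + 5 * q + 6) + (1 - b i) * s ≤ -2 := by
        have e4 : (b i / 2 ^ (q + 1) + ((q : ℝ) + 1) * ((2 * ω + 2 * κ) * b i) + 5 * q + 6) + (1 - b i) * s =
            s + 5 * (q : ℝ) + 6 - b i * (s - 1 / 2 ^ (q + 1) - ((q : ℝ) + 1) * (2 * ω + 2 * κ)) := by ring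
        rw [e4]
        have e5 : b₀ * (s - 1 / 2 ^ (q + 1) - ((q : ℝ) + 1) * (2 * ω + 2 * κ)) ≤ b i * (s - 1 / 2 ^ (q + 1) - ((q : ℝ) + 1) * (2 * ω + 2 * κ)) :=
          mul_le_mul_of_nonneg_right (hb0 i) hg.le
        linarith
      rw [e1]
      calc ((F i).card : ℝ) * (4 * P ^ (1 - b i)) ^ s
          ≤ (C₁ * P ^ (b i / 2 ^ (q + 1) + ((q : ℝ) + 1) * ((2 * ω + 2 * κ) * b i) + 5 * q + 6)) *
              (4 * P ^ ((1 - b i) * s)) :=
            mul_le_mul (hF3 i hi') e2 (by positivity) (by positivity)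
        _ = 4 * C₁ * P ^ ((b i / 2 ^ (q + 1) + ((q : ℝ) + 1) * ((2 * ω + 2 * κ) * b i) + 5 * q + 6) + (1 - b i) * s) := by
            rw [Real.rpow_add hP0 (b i / 2 ^ (q + 1) + ((q : ℝ) + 1) * ((2 * ω + 2 * κ) * b i) + 5 * q + 6) ((1 - b i) * s)]
            ring
        _ ≤ 4 * C₁ * P ^ (-2 : ℝ) :=
            mul_le_mul_of_nonneg_left (Real.rpow_le_rpow_of_exponent_le hP1.le e3) (by positivity)
    refine (Finset.sum_le_card_nsmul _ _ _ hterm).trans ?_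
    rw [nsmul_eq_mul]
    have hcard : ((((Finset.range (I + 1)).filter fun i => b i ≤ k + 1 / 2).card : ℕ) : ℝ) ≤ A * P := by
      have f1 : ((Finset.range (I + 1)).filter fun i => b i ≤ k + 1 / 2).card ≤ I + 1 := by
        refine (Finset.card_filter_le _ _).trans ?_
        rw [Finset.card_range]
      have f2 : ((((Finset.range (I + 1)).filter fun i => b i ≤ k + 1 / 2).card : ℕ) : ℝ) ≤ (I : ℝ) + 1 := by
        exact_mod_cast f1
      have f3 : (I : ℝ) ≤ ((k : ℝ) + 1) * Real.log P / Real.log 2 := by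
        rw [hI]
        exact Nat.floor_le (by positivity)
      have f4 : Real.log P ≤ P := (Real.log_le_sub_one_of_pos hP0).trans (by linarith)
      have f5 : ((k : ℝ) + 1) * Real.log P / Real.log 2 ≤ ((k : ℝ) + 1) / Real.log 2 * P := by
        have f6 : ((k : ℝ) + 1) * Real.log P / Real.log 2 = ((k : ℝ) + 1) / Real.log 2 * Real.log P := by ring
        rw [f6]
        exact mul_le_mul_of_nonneg_left f4 (by positivity)
      rw [hA, add_mul, one_mul]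
      linarith
    have hPm : P * P ^ (-2 : ℝ) = P ^ (-1 : ℝ) := by
      nth_rewrite 1 [← Real.rpow_one P]
      rw [← Real.rpow_add hP0]
      norm_num
    calc ((((Finset.range (I + 1)).filter fun i => b i ≤ k + 1 / 2).card : ℕ) : ℝ) * (4 * C₁ * P ^ (-2 : ℝ))
        ≤ (A * P) * (4 * C₁ * P ^ (-2 : ℝ)) := mul_le_mul_of_nonneg_right hcard (by positivity)
      _ = 4 * C₁ * A * (P * P ^ (-2 : ℝ)) := by ring
      _ = 4 * C₁ * A * P ^ (-1 : ℝ) := by rw [hPm]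
      _ ≤ (4 * C₁ * A + 4) * P ^ (-1 : ℝ) := by
          refine mul_le_mul_of_nonneg_right (by linarith) (by positivity)

end Pool.Agent.Lib.MP_570bef_ntWE
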