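import Mathlib
import Pool.Agent.Lib.MP_570bef_ntWE.CovB
import Pool.Agent.Lib.MP_570bef_ntWD.Hd

/-!
# Exc: the exceptional set (easy; model MP_570bef_ntWD/Exc.lean)
-/

set_option autoImplicit false

open Finset Real MeasureTheory
open Pool.Agent.Lib.MP_2a816b_nt (e norm_e conj_e e_add e_neg)

namespace Pool.Agent.Lib.MP_570bef_ntWE

open Pool.Agent.Lib.MP_570bef_ntWD

theorem exc {k v t : ℕ} {r : ℕ → ℝ} {η κ : ℝ} (h : Cy k v t r η κ) (q : ℕ)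
    (hq : κ ≤ (1 / 2 : ℝ) ^ (q + 4)) (hkq : 2 ^ (q + 5) ≤ k) (ω b₀ s : ℝ)
    (hω : 0 ≤ ω) (hω1 : ω ≤ 1) (hb : (2 : ℝ) ^ (q + 3) ≤ b₀) (hs : 0 < s) (hs1 : s ≤ 1)
    (hg : 0 < s - 1 / 2 ^ (q + 1) - ((q : ℝ) + 1) * (2 * ω + 2 * κ))
    (hgb : 5 * (q : ℝ) + 9 ≤ b₀ * (s - 1 / 2 ^ (q + 1) - ((q : ℝ) + 1) * (2 * ω + 2 * κ))) :
    ∃ Z : Set ℝ, dimH Z ≤ ENNReal.ofReal s ∧ ∀ β : ℝ, β ∉ Z →
      ∃ n₀ : ℕ, ∀ n ≥ n₀, β ∉ BadC k r η v ω b₀ ((2 : ℝ) ^ n) := by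
  obtain ⟨C, P₀, hC, hP₀, hcov⟩ := cov_all h q hq hkq ω b₀ s hω hω1 hb hs hs1 hg hgb
  obtain ⟨n₀, hn₀⟩ := pow_unbounded_of_one_lt P₀ (one_lt_two : (1 : ℝ) < 2)
  refine ⟨{x : ℝ | ∀ J : ℕ, ∃ n ≥ J, x ∈ BadC k r η v ω b₀ ((2 : ℝ) ^ n)}, ?_, ?_⟩
  · refine haus (fun n => BadC k r η v ω b₀ ((2 : ℝ) ^ n)) s C hs hC n₀ fun n hn => ?_
    have h1 : P₀ ≤ (2 : ℝ) ^ n := hn₀.le.trans (pow_le_pow_right₀ one_le_two hn)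
    obtain ⟨F, hF1, hF2, hF3⟩ := hcov _ h1
    have h2 : ((2 : ℝ) ^ n) ^ (-1 : ℝ) = (1 / 2 : ℝ) ^ n := by
      rw [Real.rpow_neg_one, one_div, inv_pow]
    rw [h2] at hF2 hF3
    exact ⟨F, hF1, hF2, hF3⟩
  · intro β hβ
    simp only [Set.mem_ofPred_eq, not_forall, not_exists, not_and] at hβ
    exact hβ

end Pool.Agent.Lib.MP_570bef_ntWE
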