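import Mathlib
import Pool.Agent.Lib.MP_570bef_ntWD.ParA
import Pool.Agent.Lib.MP_570bef_ntWD.Lip
import Pool.Agent.Lib.MP_570bef_ntWE.Defs

/-!
# ParB: the parameters

κ = (1/2)^(q+4), b₀ = 2^(q+4) (q+2), u = (b₀+1) * 8 (b₀+1) 2^b₀ (so u sg b₀ = b₀ + 1), L = log (1/κ) = (q+4) log 2.
For k ≥ k₀: r i = (i+1)/16 (positive, injective), η = min η₀ (1/8) with η₀ from lip (k, 2); r i + η ≤ 1/4 for i < 2;
v = ⌈(k-1) L⌉₊, t = ⌈k L⌉₊ (la_exp). ntc = 1 + u + 2 v + 2 t ≤ 1 + u + 4 (k L + 1) ≤ c k for large k, as 4 L < c. SzC: 2 (ntc - 1) ≤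
2 c k ≤ 3^k for k ≥ 2 c (k² ≤ 3^k). With s = 6 (q+4)/2^(q+4): s - 1/2^(q+1) - (q+1)(6κ) = 10/2^(q+4), and b₀ times it is
10 (q+2) ≥ 5 q + 9; b₀ (2κ) = 2 (q+2) ≥ 4; 2^(q+3) ≤ b₀.
-/

set_option autoImplicit false

open Finset Real MeasureTheory

namespace Pool.Agent.Lib.MP_570bef_ntWE

open Pool.Agent.Lib.MP_570bef_ntWD

/-- all the conditions used in the final step -/
structure AllE (q k v t u b₀ : ℕ) (r : ℕ → ℝ) (η κ c : ℝ) : Prop where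
  hC : Cy k v t r η κ
  hq : κ ≤ (1 / 2 : ℝ) ^ (q + 4)
  hkq : 2 ^ (q + 5) ≤ k
  hs : SzC k v t u
  hu4 : 4 ≤ u
  hbk : b₀ + 2 ≤ k
  hu : (b₀ : ℝ) + 1 ≤ u * sg b₀
  hb1 : 1 ≤ b₀
  hb : 4 ≤ (b₀ : ℝ) * (2 * κ)
  hqb : (2 : ℝ) ^ (q + 3) ≤ b₀
  hκ1 : 2 * κ ≤ 1
  hg : 0 < 6 * ((q : ℝ) + 4) / 2 ^ (q + 4) - 1 / 2 ^ (q + 1) -
    ((q : ℝ) + 1) * (2 * (2 * κ) + 2 * κ)
  hgb : 5 * (q : ℝ) + 9 ≤ b₀ * (6 * ((q : ℝ) + 4) / 2 ^ (q + 4) - 1 / 2 ^ (q + 1) -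
    ((q : ℝ) + 1) * (2 * (2 * κ) + 2 * κ))
  hn : ((ntc v t u : ℕ) : ℝ) ≤ c * k

private theorem ParB_sq (k : ℕ) : k * k ≤ 3 ^ k := by
  induction k with
  | zero => norm_num
  | succ k ih =>
    rcases Nat.lt_or_ge k 2 with h | h
    · interval_cases k <;> norm_num
    · rw [pow_succ]
      nlinarith

theorem par (q : ℕ) (c : ℝ) (hc : 4 * (((q : ℝ) + 4) * Real.log 2) < c) : ∃ k₀ : ℕ, ∀ k ≥ k₀,
    ∃ (v t u b₀ : ℕ) (r : ℕ → ℝ) (η κ : ℝ), AllE q k v t u b₀ r η κ c := by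
  obtain ⟨b₀, hb₀⟩ : ∃ b₀ : ℕ, b₀ = 2 ^ (q + 4) * (q + 2) := ⟨_, rfl⟩
  obtain ⟨u, hu⟩ : ∃ u : ℕ, u = (b₀ + 1) * (8 * (b₀ + 1) * 2 ^ b₀) := ⟨_, rfl⟩
  obtain ⟨κ, hκ⟩ : ∃ κ : ℝ, κ = (1 / 2 : ℝ) ^ (q + 4) := ⟨_, rfl⟩
  obtain ⟨L, hL⟩ : ∃ L : ℝ, L = Real.log (1 / κ) := ⟨_, rfl⟩
  have hκ0 : 0 < κ := by
    rw [hκ]
    positivity
  have hκi : 1 / κ = 2 ^ (q + 4) := by
    rw [hκ, one_div, one_div, inv_pow, inv_inv]
  have hLe : L = ((q : ℝ) + 4) * Real.log 2 := by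
    rw [hL, hκi, Real.log_pow]
    push_cast
    ring
  have hL0 : 0 ≤ L := by
    rw [hLe]
    exact mul_nonneg (by positivity) (Real.log_nonneg (by norm_num))
  obtain ⟨g, hg⟩ : ∃ g : ℝ, g = c - 4 * L := ⟨_, rfl⟩
  have hg0 : 0 < g := by
    rw [hg, hLe]
    linarith
  obtain ⟨E, hE⟩ : ∃ E : ℕ, E = 2 ^ (q + 6) := ⟨_, rfl⟩
  refine ⟨(b₀ + 2) + E + ⌈2 * c⌉₊ + ⌈((u : ℝ) + 5) / g⌉₊, fun k hk => ?_⟩
  have hk1 : b₀ + 2 ≤ k := by omega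
  have hk2' : E ≤ k := by omega
  have hkc : ⌈2 * c⌉₊ ≤ k := by omega
  have hkg : ⌈((u : ℝ) + 5) / g⌉₊ ≤ k := by omega
  have hk2 : 2 ^ (q + 6) ≤ k := by
    rw [← hE]
    exact hk2'
  have hk3 : 2 ^ (q + 5) ≤ k := by
    refine le_trans ?_ hk2
    exact Nat.pow_le_pow_right (by norm_num) (by omega)
  have hk8 : 8 ≤ k := by
    have h1 : 2 ^ 3 ≤ 2 ^ (q + 6) := Nat.pow_le_pow_right (by norm_num) (by omega)
    exact le_trans (by norm_num) (h1.trans hk2)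
  have hk4 : 2 * c ≤ k := (Nat.le_ceil _).trans (by exact_mod_cast hkc)
  have hk5 : (u : ℝ) + 5 ≤ k * g := by
    have h2 : ((u : ℝ) + 5) / g ≤ k := (Nat.le_ceil _).trans (by exact_mod_cast hkg)
    rwa [div_le_iff₀ hg0] at h2
  have hκ16 : κ ≤ 1 / 16 := by
    rw [hκ]
    calc (1 / 2 : ℝ) ^ (q + 4) ≤ (1 / 2 : ℝ) ^ 4 :=
          pow_le_pow_of_le_one (by norm_num) (by norm_num) (by omega)
      _ = 1 / 16 := by norm_num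
  have hinj : Function.Injective fun i : ℕ => ((i : ℝ) + 1) / 16 := by
    intro a b hab
    simp only at hab
    have : (a : ℝ) = b := by linarith
    exact_mod_cast this
  have hr : ∀ i : ℕ, 0 < ((i : ℝ) + 1) / 16 := fun i => by positivity
  obtain ⟨η₀, hη₀, hlip⟩ := lip k 2 (by omega) (fun i : ℕ => ((i : ℝ) + 1) / 16) hr hinj
  have hκ1 : κ ≤ 1 := by linarith
  have hkk : ((k - 1 : ℕ) : ℝ) ≤ k := by exact_mod_cast Nat.sub_le k 1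
  have hnt : ((ntc ⌈((k - 1 : ℕ) : ℝ) * Real.log (1 / κ)⌉₊ ⌈(k : ℝ) * Real.log (1 / κ)⌉₊ u : ℕ) :
      ℝ) ≤ c * k := by
    rw [← hL]
    have h1 := (Nat.ceil_lt_add_one (mul_nonneg (Nat.cast_nonneg (k - 1)) hL0)).le
    have h2 := (Nat.ceil_lt_add_one (mul_nonneg (Nat.cast_nonneg k) hL0)).le
    have h3 := mul_le_mul_of_nonneg_right hkk hL0
    unfold ntc
    push_cast
    rw [hg] at hk5
    have e1 : (k : ℝ) * (c - 4 * L) = c * k - 4 * (k * L) := by ring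
    rw [e1] at hk5
    linarith
  have hb₀R : (b₀ : ℝ) = 2 ^ (q + 4) * ((q : ℝ) + 2) := by
    rw [hb₀]
    push_cast
    ring
  have hgap : 6 * ((q : ℝ) + 4) / 2 ^ (q + 4) - 1 / 2 ^ (q + 1) -
      ((q : ℝ) + 1) * (2 * (2 * κ) + 2 * κ) = 10 / 2 ^ (q + 4) := by
    have h1 : κ = 1 / 2 ^ (q + 4) := by
      rw [hκ, one_div_pow]
    have h2 : (2 : ℝ) ^ (q + 4) = 8 * 2 ^ (q + 1) := by
      rw [show q + 4 = (q + 1) + 3 by ring, pow_add]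
      norm_num
      ring
    rw [h1, h2]
    field_simp
    ring
  have h2p : (0 : ℝ) < 2 ^ (q + 4) := by positivity
  refine ⟨⌈((k - 1 : ℕ) : ℝ) * Real.log (1 / κ)⌉₊, ⌈(k : ℝ) * Real.log (1 / κ)⌉₊, u, b₀,
    fun i : ℕ => ((i : ℝ) + 1) / 16, min η₀ (1 / 8), κ, ?_⟩
  refine ⟨⟨hk8, lt_min hη₀ (by norm_num), hr, ?_, ?_, hκ0, hκ16, ?_, ?_, ?_⟩, hκ.le, hk3, ?_, ?_,
    hk1, ?_, ?_, ?_, ?_, by linarith, ?_, ?_, hnt⟩
  · intro i hi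
    have h1 : ((i : ℝ) + 1) / 16 ≤ 1 / 8 := by
      have h2 : (i : ℝ) + 1 ≤ 2 := by exact_mod_cast hi
      linarith
    have h2 : min η₀ (1 / 8) ≤ 1 / 8 := min_le_right _ _
    linarith
  · exact hlip _ (lt_min hη₀ (by norm_num)) (min_le_left _ _)
  · exact la_exp (k - 1) (by omega) κ hκ0 hκ1
  · exact la_exp k (by omega) κ hκ0 hκ1
  · have h1 : ((2 : ℝ) ^ (q + 6)) ≤ k := by exact_mod_cast hk2
    have h3 : (2 : ℝ) ^ (q + 6) * κ = 4 := by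
      rw [hκ, one_div_pow, show q + 6 = (q + 4) + 2 by ring, pow_add]
      field_simp
      norm_num
    have h4 := mul_le_mul_of_nonneg_right h1 hκ0.le
    linarith
  · unfold SzC
    unfold ntc at hnt
    have h1 := ParB_sq k
    have h2 : 2 * c * k ≤ (k : ℝ) * k := mul_le_mul_of_nonneg_right hk4 (Nat.cast_nonneg k)
    have h3 : ((k * k : ℕ) : ℝ) ≤ ((3 ^ k : ℕ) : ℝ) := by exact_mod_cast h1
    have h4 : ((2 * (u + (2 * ⌈((k - 1 : ℕ) : ℝ) * Real.log (1 / κ)⌉₊ +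
        (⌈(k : ℝ) * Real.log (1 / κ)⌉₊ + ⌈(k : ℝ) * Real.log (1 / κ)⌉₊))) : ℕ) :
        ℝ) ≤ ((3 ^ k : ℕ) : ℝ) := by
      refine le_trans ?_ h3
      push_cast at hnt ⊢
      linarith
    exact_mod_cast h4
  · have h1 : 0 < 2 ^ b₀ := by positivity
    have h2 : 1 ≤ (b₀ + 1) * 2 ^ b₀ := Nat.mul_pos (by omega) h1
    rw [hu]
    nlinarith
  · unfold sg
    rw [hu]
    push_cast
    rw [mul_one_div]
    rw [le_div_iff₀ (by positivity)]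
  · rw [hb₀]
    exact Nat.mul_pos (by positivity) (by omega)
  · have h1 : (b₀ : ℝ) * (2 * κ) = 2 * ((q : ℝ) + 2) := by
      rw [hb₀R, hκ, one_div_pow]
      field_simp
    rw [h1]
    have : (0 : ℝ) ≤ q := Nat.cast_nonneg q
    linarith
  · rw [hb₀R]
    have h1 : (2 : ℝ) ^ (q + 3) ≤ 2 ^ (q + 4) := pow_le_pow_right₀ (by norm_num) (by omega)
    have : (0 : ℝ) ≤ q := Nat.cast_nonneg q
    nlinarith
  · rw [hgap]
    positivity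
  · rw [hgap, hb₀R]
    have h1 : (2 : ℝ) ^ (q + 4) * ((q : ℝ) + 2) * (10 / 2 ^ (q + 4)) = 10 * ((q : ℝ) + 2) := by
      field_simp
    rw [h1]
    have : (0 : ℝ) ≤ q := Nat.cast_nonneg q
    linarith

end Pool.Agent.Lib.MP_570bef_ntWE
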