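import Mathlib
import Pool.Agent.Lib.MP_570bef_ntWE.Exc
import Pool.Agent.Lib.MP_570bef_ntWE.Circ
import Pool.Agent.Lib.MP_570bef_ntWE.ParB
import Pool.Agent.Lib.MP_570bef_ntWD.SufA

/-!
# Fin1: the theorem

main_one: par gives the parameters; exc with ω = 2κ, s = 6 (q+4)/2^(q+4) (≤ 1 for q ≥ 1) gives Z with dimH Z ≤ s; for β ∈ [0,1], β ∉ Z:
circ, suff_list, suff_mono; suff_all, and the countable union over k ≥ k₀. main_two: for every q the set is contained in the set of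
main_one with c = 4 (q + 4).
-/

set_option autoImplicit false

open Finset Real MeasureTheory

namespace Pool.Agent.Lib.MP_570bef_ntWE

open Pool.Agent.Lib.MP_570bef_ntWD

private theorem Fin1_s (q : ℕ) (hq : 1 ≤ q) : 6 * ((q : ℝ) + 4) / 2 ^ (q + 4) ≤ 1 := by
  rw [div_le_one (by positivity)]
  induction q, hq using Nat.le_induction with
  | base => norm_num
  | succ n hn ih =>
    have h1 : (2 : ℝ) ^ (n + 1 + 4) = 2 * 2 ^ (n + 4) := by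
      rw [show n + 1 + 4 = (n + 4) + 1 by ring, pow_succ]
      ring
    rw [h1]
    push_cast
    have : (0 : ℝ) ≤ n := Nat.cast_nonneg n
    linarith

theorem main_one (q : ℕ) (hq : 1 ≤ q) (c : ℝ) (hc : 4 * (((q : ℝ) + 4) * Real.log 2) < c) :
    ∃ k₀ : ℕ, dimH {β : ℝ | ∃ k ≥ k₀, ∃ s : ℕ, c * k ≤ s ∧ ¬ Suff k β s} ≤
      ENNReal.ofReal (6 * ((q : ℝ) + 4) / 2 ^ (q + 4)) := by
  obtain ⟨k₀, hpar⟩ := par q c hc
  refine ⟨k₀, ?_⟩
  have hk : ∀ k ≥ k₀, dimH {β : ℝ | ¬ Suff k β ⌈c * k⌉₊} ≤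
      ENNReal.ofReal (6 * ((q : ℝ) + 4) / 2 ^ (q + 4)) := by
    intro k hk
    obtain ⟨v, t, u, b₀, r, η, κ, H⟩ := hpar k hk
    have hκ := H.hC.hκ
    obtain ⟨Z, hZ, hZ'⟩ := exc H.hC q H.hq H.hkq (2 * κ) b₀ (6 * ((q : ℝ) + 4) / 2 ^ (q + 4))
      (by linarith) H.hκ1 H.hqb (by positivity) (Fin1_s q hq) H.hg H.hgb
    refine suff_all k ⌈c * k⌉₊ _ ((dimH_mono ?_).trans hZ)
    rintro β ⟨⟨h0, h1⟩, hn⟩
    by_contra hβ
    have hle : ntc v t u ≤ ⌈c * k⌉₊ := by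
      have h2 : ((ntc v t u : ℕ) : ℝ) ≤ (⌈c * k⌉₊ : ℝ) := H.hn.trans (Nat.le_ceil _)
      exact_mod_cast h2
    exact hn (suff_mono hle (suff_list h0 (circ H.hC u b₀ H.hs H.hu4 H.hbk H.hu H.hb1 H.hb β h0 h1
      (hZ' β hβ))))
  have hsub : {β : ℝ | ∃ k ≥ k₀, ∃ s : ℕ, c * k ≤ s ∧ ¬ Suff k β s} ⊆
      ⋃ k : {k : ℕ // k₀ ≤ k}, {β : ℝ | ¬ Suff k.1 β ⌈c * (k.1 : ℝ)⌉₊} := by
    rintro β ⟨k, hk, s, hs, hn⟩
    refine Set.mem_iUnion.2 ⟨⟨k, hk⟩, fun h => hn (suff_mono ?_ h)⟩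
    exact Nat.ceil_le.2 hs
  refine (dimH_mono hsub).trans ?_
  rw [dimH_iUnion]
  exact iSup_le fun k => hk k.1 k.2

/-- one hundred `k` terms -/
theorem main_hundred : ∃ k₀ : ℕ,
    dimH {β : ℝ | ∃ k ≥ k₀, ∃ s ≥ 100 * k, ¬ Suff k β s} ≤ ENNReal.ofReal (1 / 10 ^ 8) := by
  have hnum : 4 * ((((32 : ℕ) : ℝ) + 4) * Real.log 2) < 100 := by
    have := Real.log_two_lt_d9
    push_cast
    linarith
  obtain ⟨k₀, h⟩ := main_one 32 (by norm_num) 100 hnum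
  refine ⟨k₀, (dimH_mono ?_).trans (h.trans (ENNReal.ofReal_le_ofReal (by norm_num)))⟩
  rintro β ⟨k, hk, s, hs, hn⟩
  exact ⟨k, hk, s, by exact_mod_cast hs, hn⟩

theorem main_two : dimH {β : ℝ | ¬ ∃ C k₀ : ℕ, ∀ k ≥ k₀, ∀ s ≥ C * k, Suff k β s} = 0 := by
  have h1 : ∀ q : ℕ, 1 ≤ q →
      dimH {β : ℝ | ¬ ∃ C k₀ : ℕ, ∀ k ≥ k₀, ∀ s ≥ C * k, Suff k β s} ≤
        ENNReal.ofReal (6 * ((q : ℝ) + 4) / 2 ^ (q + 4)) := by
    intro q hq
    have hc : 4 * (((q : ℝ) + 4) * Real.log 2) < ((4 * (q + 4) : ℕ) : ℝ) := by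
      have h2 := Real.log_two_lt_d9
      have h3 : (0 : ℝ) ≤ q := Nat.cast_nonneg q
      push_cast
      nlinarith
    obtain ⟨k₀, hk₀⟩ := main_one q hq _ hc
    refine (dimH_mono ?_).trans hk₀
    intro β hβ
    by_contra hcon
    apply hβ
    refine ⟨4 * (q + 4), k₀, fun k hk s hs => ?_⟩
    by_contra hn
    exact hcon ⟨k, hk, s, by exact_mod_cast hs, hn⟩
  have h2 : Filter.Tendsto (fun q : ℕ => ENNReal.ofReal (6 * ((q : ℝ) + 4) / 2 ^ (q + 4)))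
      Filter.atTop (nhds (ENNReal.ofReal 0)) := by
    refine ENNReal.tendsto_ofReal ?_
    have h3 : Filter.Tendsto (fun q : ℕ => ((q : ℝ)) * (1 / 2) ^ q) Filter.atTop (nhds 0) :=
      tendsto_self_mul_const_pow_of_lt_one (by norm_num) (by norm_num)
    have h4 : Filter.Tendsto (fun q : ℕ => (((q + 4 : ℕ) : ℝ)) * (1 / 2) ^ (q + 4)) Filter.atTop
        (nhds 0) := h3.comp (Filter.tendsto_add_atTop_nat 4)
    have h5 := h4.const_mul 6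
    rw [mul_zero] at h5
    refine h5.congr fun q => ?_
    push_cast
    rw [one_div_pow]
    ring
  rw [ENNReal.ofReal_zero] at h2
  have h3 := ge_of_tendsto h2 (Filter.eventually_atTop.2 ⟨1, h1⟩)
  exact le_antisymm h3 bot_le

end Pool.Agent.Lib.MP_570bef_ntWE
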